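import Mathlib
import Pool.Agent.DPN.Defs

/-!
# Dade's conjecture: the normal subgroups with a quotient with a normal Sylow `ℓ`-subgroup:
definitions
-/

namespace Pool.Agent.DPF

open Pool.Agent.DP Pool.Agent.DPC Pool.Agent.DPM Pool.Agent.DPN Pool.Agent.Lib_helper13
  Representation
open Pool.Agent.Lib_helper13.Dade (pCore DadeHolds dadeSum)

/-- `P` is a normal Sylow `ℓ`-subgroup with abelian quotient. -/
structure SylAb (ℓ : ℕ) {H : Type} [Group H] (P : Subgroup H) : Prop where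
  nrm : P.Normal
  pgr : IsPGroup ℓ P
  idx : ¬ ℓ ∣ P.index
  abl : ∀ x y : H, x * y * x⁻¹ * y⁻¹ ∈ P

/-! ### Sums over a central extension -/

/-- The element `a` of `W` is a commutator of elements which generate `W` modulo the inverse image
of `P`, modulo the commutator subgroup of the inverse image of `P`. -/
def InS {W H : Type} [Group W] [Group H] (π : W →* H) (P : Subgroup H) (a : W) : Prop :=
  ∃ x y e : W, Subgroup.closure {x, y} ⊔ P.comap π = ⊤ ∧ e ∈ ⁅P.comap π, P.comap π⁆ ∧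
    a = x * y * x⁻¹ * y⁻¹ * e

/-- The Moebius sum of the numbers of the characters over `μ` of the defects `e` with
`e + a = n`. -/
noncomputable def PSM {W H : Type} [Group W] [Fintype W] [Group H] [Fintype H] (ℓ : ℕ)
    (π : W →* H) (m : Subgroup H → ℚ) (μ : π.ker →* ℂˣ) (a n : ℕ) : ℚ :=
  ∑ V, m V * ((Nat.card V : ℚ) * Nat.card {η : ↥(V.comap π) → ℂ // IsIrr η ∧
    OvL π.ker μ _ η ∧ ∃ e, HasDefect ℓ η e ∧ e + a = n})

open Classical in
/-- The Moebius sum of the values at `a⁻¹` of the central characters of the characters of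
defect `e`. -/
noncomputable def PHT {W H : Type} [Group W] [Fintype W] [Group H] [Fintype H] (ℓ : ℕ)
    (π : W →* H) (m : Subgroup H → ℚ) (e : ℕ) (a : W) : ℂ :=
  ∑ V, (m V : ℂ) * ((Nat.card V : ℂ) *
    ∑ η ∈ irrF (V.comap π) with HasDefect ℓ η e, ext0 η a⁻¹ / η 1)

/-! ### Chains of a normal subgroup and characters of a central extension -/

section CE

variable {L K H W : Type} [Group L] [Group K] [Group H] [Group W]

/-- The inverse image in `L` of the stabilizer in `S` of the chain `τ` of `M`. -/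
noncomputable abbrev SL (π : L →* K) (M : Subgroup K) (τ : Finset (Subgroup M))
    (S : Subgroup K) : Subgroup L :=
  (S ⊓ stb (mapCh M.subtype τ)).comap π

theorem SL_mono (π : L →* K) (M : Subgroup K) (τ : Finset (Subgroup M)) {S S' : Subgroup K}
    (h : S ≤ S') : SL π M τ S ≤ SL π M τ S' :=
  Subgroup.comap_mono (inf_le_inf_right _ h)

variable [Fintype L] [Fintype K]

/-- The sum over the chains of `M`, for the stabilizers in `S` and the characters over `μ` of the
inverse images in `L` whose central function agrees with `ω` on the inverse image of `M`. -/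
noncomputable def PHU (𝔐 : Ideal (integralClosure ℤ ℂ)) (ℓ d : ℕ) (π : L →* K)
    (μ : π.ker →* ℂˣ) (M S : Subgroup K) (ω : L → (integralClosure ℤ ℂ) ⧸ 𝔐) : ℚ :=
  ∑ τ ∈ Ch ℓ (⊥ : Subgroup M), (-1 : ℚ) ^ τ.card *
    ((Nat.card ↥(S ⊓ stb (mapCh M.subtype τ)) : ℚ) *
      Nat.card {ψ : ↥(SL π M τ S) → ℂ // IsIrr ψ ∧ OvL π.ker μ _ ψ ∧ HasDefect ℓ ψ d ∧
        ∀ g ∈ M.comap π, cen 𝔐 (SL π M τ S).subtype ψ g = ω g})

/-- The sum over the chains of `K` for the characters over `μ` of the inverse images in `L` of the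
stabilizers whose central function agrees with `ω` on the inverse image of `M`. -/
noncomputable def DKU (𝔐 : Ideal (integralClosure ℤ ℂ)) (ℓ d : ℕ) (π : L →* K)
    (μ : π.ker →* ℂˣ) (M : Subgroup K) (ω : L → (integralClosure ℤ ℂ) ⧸ 𝔐) : ℚ :=
  ∑ σ ∈ Ch ℓ (⊥ : Subgroup K), (-1 : ℚ) ^ σ.card * ((Nat.card (stb σ) : ℚ) *
    Nat.card {ψ : ↥((stb σ).comap π) → ℂ // IsIrr ψ ∧ OvL π.ker μ _ ψ ∧ HasDefect ℓ ψ d ∧
      ∀ g ∈ M.comap π, cen 𝔐 ((stb σ).comap π).subtype ψ g = ω g})

/-- No character over `μ` of the inverse image of `M` with the central function `ω` has minimal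
defect. -/
def Pos (𝔐 : Ideal (integralClosure ℤ ℂ)) (ℓ : ℕ) (π : L →* K) (μ : π.ker →* ℂˣ)
    (M : Subgroup K) (ω : L → (integralClosure ℤ ℂ) ⧸ 𝔐) : Prop :=
  ∀ θ : ↥(M.comap π) → ℂ, IsIrr θ → OvL π.ker μ _ θ →
    HasDefect ℓ θ (padicValNat ℓ (Nat.card π.ker)) →
    ¬ ∀ g ∈ M.comap π, cen 𝔐 (M.comap π).subtype θ g = ω g

/-- The fixed pairs: the character `θ` over `μ` of the inverse image of the stabilizer in `M` of
the chain `τ` of `M` has the central function `ω` and is invariant, and the stabilizer of `τ`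
covers `H`. -/
structure PrU (𝔐 : Ideal (integralClosure ℤ ℂ)) (π : L →* K) (μ : π.ker →* ℂˣ) (p : K →* H)
    (M : Subgroup K) (ω : L → (integralClosure ℤ ℂ) ⧸ 𝔐) (τ : Finset (Subgroup M))
    (θ : ↥(SL π M τ M) → ℂ) : Prop where
  irr : IsIrr θ
  ovl : OvL π.ker μ _ θ
  cn : ∀ g ∈ M.comap π, cen 𝔐 (SL π M τ M).subtype θ g = ω g
  sj : ∀ h : H, ∃ k ∈ stb (mapCh M.subtype τ), p k = h
  iv : ∀ t ∈ SL π M τ ⊤, ∀ a b : ↥(SL π M τ M), (b : L) = t * a * t⁻¹ → θ b = θ a

end CE

/-! ### Extensions over an extension of the quotient -/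

/-- `G` is the fibre product of `T` and `W` over `H`. -/
structure FbP {G T W H : Type} [Group G] [Group T] [Group W] [Group H] (α : G →* T) (β : G →* W)
    (p : T →* H) (π : W →* H) : Prop where
  cm : ∀ g, p (α g) = π (β g)
  ex : ∀ t w, p t = π w → ∃! g, α g = t ∧ β g = w

/-- `W` is an extension (by `π`) of `H = T / A`, `G` is the fibre product of `T` and `W` over `H`,
and the character `E` of `G` extends the character `θ` of `A`; the kernel of `π` acts by the
inverse of `ν`. -/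
structure EXW {A T H W G : Type} [Group A] [Group T] [Group H] [Group W] [Group G] (i : A →* T)
    (θ : A → ℂ) (α : G →* T) (β : G →* W) (π : W →* H) (ν : π.ker →* ℂˣ) (E : G → ℂ) :
    Prop where
  Ec : IsChr E
  Ee : ∀ (a : A) (g : G), α g = i a → β g = 1 → E g = θ a
  El : ∀ (z : π.ker) (g g' : G), α g' = α g → β g' = z * β g → ((ν z : ℂˣ) : ℂ) * E g' = E g

section Data

variable {L K H W : Type} [Group L] [Group K] [Group H] [Group W]

/-- The embedding of the inverse image of the stabilizer in `M` of the chain `τ`. -/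
noncomputable def iSL (π : L →* K) (M : Subgroup K) (τ : Finset (Subgroup M)) :
    ↥(SL π M τ M) →* ↥(SL π M τ ⊤) :=
  Subgroup.inclusion (SL_mono π M τ le_top)

/-- The projection of the inverse image of the stabilizer of the chain `τ`. -/
noncomputable def pSL (π : L →* K) (p : K →* H) (M : Subgroup K) (τ : Finset (Subgroup M)) :
    ↥(SL π M τ ⊤) →* H :=
  (p.comp π).comp (SL π M τ ⊤).subtype

/-- The character `θ` extends over the extension `W` of `H`. -/
def EDt (π : L →* K) (p : K →* H) (M : Subgroup K) (πW : W →* H) (τ : Finset (Subgroup M))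
    (θ : ↥(SL π M τ M) → ℂ) (ν : πW.ker →* ℂˣ) : Prop :=
  ∃ (G : Type) (_ : Group G) (_ : Finite G) (α : G →* ↥(SL π M τ ⊤)) (β : G →* W) (E : G → ℂ),
    FbP α β (pSL π p M τ) πW ∧ EXW (iSL π M τ) θ α β πW ν E

/-- The characters over `θ` of the inverse images of the subgroups of `H` are counted by the
characters over `ν` of the inverse images in `W`. -/
structure NumW [Fintype L] [Fintype W] (ℓ : ℕ) (π : L →* K) (p : K →* H) (M : Subgroup K)
    (πW : W →* H) (τ : Finset (Subgroup M)) (θ : ↥(SL π M τ M) → ℂ) (ν : πW.ker →* ℂˣ) :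
    Prop where
  inv : ∀ (w : W) (z z' : πW.ker), (z' : W) = w * z * w⁻¹ → ν z' = ν z
  num : ∀ (V : Subgroup H) (d : ℕ),
    Nat.card {ψ : ↥(SL π M τ (V.comap p)) → ℂ // IsIrr ψ ∧
        ip (fun a : ↥(SL π M τ M) => ext0 ψ (a : L)) θ ≠ 0 ∧ HasDefect ℓ ψ d} =
      Nat.card {η : ↥(V.comap πW) → ℂ // IsIrr η ∧ OvL πW.ker ν _ η ∧
        ∃ e a, HasDefect ℓ η e ∧ HasDefect ℓ θ a ∧
          e + a = d + padicValNat ℓ (Nat.card πW.ker)}

open Classical in
/-- The relations between the linear characters which belong to the fixed pairs: the sums over the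
pairs of a given defect of the values at the commutators vanish. -/
def T2 [Fintype L] [Fintype K] (𝔐 : Ideal (integralClosure ℤ ℂ)) (ℓ : ℕ) (π : L →* K)
    (μ : π.ker →* ℂˣ) (p : K →* H) (M : Subgroup K) (ω : L → (integralClosure ℤ ℂ) ⧸ 𝔐)
    (πW : W →* H) (P : Subgroup H)
    (ν : ∀ τ : Finset (Subgroup M), (↥(SL π M τ M) → ℂ) → (πW.ker →* ℂˣ)) : Prop :=
  ∀ a : πW.ker, InS πW P (a : W) → ∀ n : ℕ,
    ∑ τ ∈ Ch ℓ (⊥ : Subgroup M), (-1 : ℂ) ^ τ.card *
      ∑ θ ∈ irrF (SL π M τ M) with PrU 𝔐 π μ p M ω τ θ ∧ HasDefect ℓ θ n,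
        (Nat.card ↥(M ⊓ stb (mapCh M.subtype τ)) : ℂ) * ((ν τ θ a : ℂˣ) : ℂ) = 0

end Data

end Pool.Agent.DPF
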