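import Mathlib
import Pool.Agent.DPF.Defs
import Pool.Agent.DPN.Stmts

/-!
# Dade's conjecture: the normal subgroups with a quotient with a normal Sylow `ℓ`-subgroup:
statements of the modules
-/

namespace Pool.Agent.DPF

open Pool.Agent.DP Pool.Agent.DPC Pool.Agent.DPM Pool.Agent.DPN Pool.Agent.Lib_helper13
  Representation
open Pool.Agent.Lib_helper13.Dade (pCore DadeHolds dadeSum)

/-! ### Idempotents -/

open Classical in
/-- FRZ: Frobenius' formula with a central element. -/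
def Stmt_FRZ : Prop :=
  ∀ (G : Type) [Group G] [Fintype G] (N : Subgroup G) [N.Normal] (Q : (N → ℂ) → Prop),
    (∀ (g : G) (κ : N → ℂ), Q κ → Q (fun n => κ (MulAut.conjNormal g n))) →
    ∀ a ∈ N, a ∈ Subgroup.center G →
    (Nat.card G : ℂ) * ∑ η ∈ irrF G with
        (∃ κ : N → ℂ, IsIrr κ ∧ Q κ ∧ ip (resj N.subtype η) κ ≠ 0), η a⁻¹ / η 1 =
      ∑ x : G, ∑ y : G, if x * y * x⁻¹ * y⁻¹ ∈ N then ed N Q (x * y * x⁻¹ * y⁻¹ * a) else 0

/-- EDC: the idempotent of the characters of a given defect vanishes outside the commutator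
subgroup. -/
def Stmt_EDC : Prop :=
  ∀ (W : Type) [Group W] [Fintype W] (ℓ : ℕ) (S : Subgroup W) (e : ℕ) (r : W),
    ed S (fun κ => HasDefect ℓ κ e) r ≠ 0 → r ∈ ⁅S, S⁆

/-- EDL: the idempotent of the characters of a given defect over a linear character. -/
def Stmt_EDL : Prop :=
  ∀ (W : Type) [Group W] [Fintype W] (ℓ : ℕ) (S A : Subgroup W), A ≤ S →
    (∀ s ∈ S, ∀ a ∈ A, s * a * s⁻¹ ∈ A) → ∀ ν : A →* ℂˣ,
    (∀ s ∈ S, ∀ a a' : A, (a' : W) = s * a * s⁻¹ → ν a' = ν a) → ∀ (e : ℕ) (r : W),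
    (Nat.card A : ℂ) * ed S (fun κ => OvL A ν S κ ∧ HasDefect ℓ κ e) r =
      ∑ a : A, (((ν a)⁻¹ : ℂˣ) : ℂ) * ed S (fun κ => HasDefect ℓ κ e) ((a : W)⁻¹ * r)

open Classical in
/-- EDT: the idempotent of the characters of degree prime to `ℓ` of a central extension of an
`ℓ`-group. -/
def Stmt_EDT : Prop :=
  ∀ (W : Type) [Group W] [Fintype W] (ℓ : ℕ) [Fact ℓ.Prime] (S A : Subgroup W), A ≤ S →
    (∀ a ∈ A, ∀ s ∈ S, a * s = s * a) → (∀ s ∈ S, ∃ k : ℕ, s ^ ℓ ^ k ∈ A) → ∀ r : W,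
    ed S (fun κ => HasDefect ℓ κ (padicValNat ℓ (Nat.card S))) r =
      if r ∈ ⁅S, S⁆ then 1 / (Nat.card ↥⁅S, S⁆ : ℂ) else 0

/-- DGI: the defects of characters of a normal subgroup of index prime to `ℓ`. -/
def Stmt_DGI : Prop :=
  ∀ (G : Type) [Group G] [Fintype G] (ℓ : ℕ) [Fact ℓ.Prime] (N : Subgroup G) [N.Normal],
    ¬ ℓ ∣ N.index → ∀ (η : G → ℂ) (κ : N → ℂ), IsIrr η → IsIrr κ →
    ip (resj N.subtype η) κ ≠ 0 → ∀ e : ℕ, HasDefect ℓ η e ↔ HasDefect ℓ κ e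

open Classical in
/-- EDV: the characters of a given defect of the inverse image of a subgroup. -/
def Stmt_EDV : Prop :=
  ∀ (W H : Type) [Group W] [Fintype W] [Group H] [Fintype H] (ℓ : ℕ) [Fact ℓ.Prime]
    (π : W →* H), Function.Surjective π → ∀ P : Subgroup H, SylAb ℓ P →
    ∀ (V : Subgroup H) (e : ℕ),
    (∀ ν : π.ker →* ℂˣ,
      (∀ (w : W) (z z' : π.ker), (z' : W) = w * z * w⁻¹ → ν z' = ν z) →
      (Nat.card ↥(V.comap π) : ℂ) * Nat.card {η : ↥(V.comap π) → ℂ // IsIrr η ∧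
          OvL π.ker ν _ η ∧ HasDefect ℓ η e} =
        ∑ x : W, ∑ y : W, if π x ∈ V ∧ π y ∈ V then
          ed ((V ⊓ P).comap π) (fun κ => OvL π.ker ν _ κ ∧ HasDefect ℓ κ e)
            (x * y * x⁻¹ * y⁻¹) else 0) ∧
    (π.ker ≤ Subgroup.center W → ∀ a ∈ π.ker,
      (Nat.card ↥(V.comap π) : ℂ) *
          ∑ η ∈ irrF (V.comap π) with HasDefect ℓ η e, ext0 η a⁻¹ / η 1 =
        ∑ x : W, ∑ y : W, if π x ∈ V ∧ π y ∈ V then
          ed ((V ⊓ P).comap π) (fun κ => HasDefect ℓ κ e) (x * y * x⁻¹ * y⁻¹ * a) else 0)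

open Classical in
/-- MBX: the Moebius sum for elements which do not generate. -/
def Stmt_MBX : Prop :=
  ∀ (W H : Type) [Group W] [Fintype W] [Group H] [Fintype H] (π : W →* H),
    Function.Surjective π → ∀ (P : Subgroup H) (m : Subgroup H → ℚ), Mob m → ∀ x y : W,
    (Subgroup.closure {x, y} ⊔ P.comap π ≠ ⊤ → ∀ g : Subgroup H → ℂ,
      ∑ V, (m V : ℂ) * (if π x ∈ V ∧ π y ∈ V then g (V ⊓ P) else 0) = 0) ∧
    ∑ V, (if P ≤ V ∧ π x ∈ V ∧ π y ∈ V then (m V : ℂ) else 0) =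
      if Subgroup.closure {x, y} ⊔ P.comap π = ⊤ then 1 else 0

/-! ### The two directions -/

/-- T2D: the relations imply that the Moebius sums of the numbers of characters cancel. -/
def Stmt_T2D : Prop :=
  ∀ (W H ι : Type) [Group W] [Fintype W] [Group H] [Fintype H] [Fintype ι] (ℓ : ℕ)
    [Fact ℓ.Prime] (π : W →* H), Function.Surjective π → ∀ P : Subgroup H, SylAb ℓ P →
    ∀ (s : ι → ℚ) (d : ι → ℕ) (ν : ι → (π.ker →* ℂˣ)),
    (∀ i (w : W) (z z' : π.ker), (z' : W) = w * z * w⁻¹ → ν i z' = ν i z) →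
    (∀ a : π.ker, InS π P (a : W) → ∀ n : ℕ,
      ∑ i with d i = n, (s i : ℂ) * ((ν i a : ℂˣ) : ℂ) = 0) →
    ∀ m : Subgroup H → ℚ, Mob m → ∀ n : ℕ, ∑ i, s i * PSM ℓ π m (ν i) (d i) n = 0

/-- FOX: Fourier transform of the twisted relations. -/
def Stmt_FOX : Prop :=
  ∀ (W H ι : Type) [Group W] [Fintype W] [Group H] [Fintype H] [Fintype ι] (ℓ : ℕ)
    [Fact ℓ.Prime] (π : W →* H), π.ker ≤ Subgroup.center W →
    ∀ (s : ι → ℚ) (d : ι → ℕ) (ν : ι → (π.ker →* ℂˣ)) (m : Subgroup H → ℚ),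
    (∀ (ν' : π.ker →* ℂˣ) (n : ℕ), ∑ i, s i * PSM ℓ π m (ν i * ν') (d i) n = 0) →
    ∀ (a : π.ker) (n : ℕ), ∑ i with d i ≤ n, (s i : ℂ) * ((ν i a : ℂˣ) : ℂ) *
      PHT ℓ π m (n - d i) a = 0

/-- TOPC: the leading coefficient. -/
def Stmt_TOPC : Prop :=
  ∀ (W H : Type) [Group W] [Fintype W] [Group H] [Fintype H] (ℓ : ℕ) [Fact ℓ.Prime]
    (π : W →* H), Function.Surjective π → π.ker ≤ Subgroup.center W →
    ∀ P : Subgroup H, SylAb ℓ P → ∀ m : Subgroup H → ℚ, Mob m →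
    (∀ e, padicValNat ℓ (Nat.card W) < e → ∀ a : π.ker, PHT ℓ π m e a = 0) ∧
    ∀ a : π.ker, InS π P (a : W) → PHT ℓ π m (padicValNat ℓ (Nat.card W)) a ≠ 0

/-- T2F: the twisted relations imply the relations between the linear characters. -/
def Stmt_T2F : Prop :=
  ∀ (W H ι : Type) [Group W] [Fintype W] [Group H] [Fintype H] [Fintype ι] (ℓ : ℕ)
    [Fact ℓ.Prime] (π : W →* H), Function.Surjective π → π.ker ≤ Subgroup.center W →
    ∀ P : Subgroup H, SylAb ℓ P → ∀ (s : ι → ℚ) (d : ι → ℕ) (ν : ι → (π.ker →* ℂˣ))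
      (m : Subgroup H → ℚ), Mob m →
    (∀ (ν' : π.ker →* ℂˣ) (n : ℕ), ∑ i, s i * PSM ℓ π m (ν i * ν') (d i) n = 0) →
    ∀ a : π.ker, InS π P (a : W) → ∀ n : ℕ,
      ∑ i with d i = n, (s i : ℂ) * ((ν i a : ℂˣ) : ℂ) = 0

/-! ### Numbers of characters -/

/-- NUG: the characters of the fibre product over `θ` and over a linear character of the kernel. -/
def Stmt_NUG : Prop :=
  ∀ (A T H W G : Type) [Group A] [Fintype A] [Group T] [Fintype T] [Group H] [Fintype H]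
    [Group W] [Fintype W] [Group G] [Fintype G] (ℓ : ℕ) [Fact ℓ.Prime] (i : A →* T)
    (p : T →* H), Function.Injective i → Function.Surjective p →
    (∀ t, p t = 1 ↔ t ∈ i.range) → ∀ θ : A → ℂ, IsIrr θ → ∀ π : W →* H,
    Function.Surjective π → ∀ (α : G →* T) (β : G →* W), FbP α β p π →
    ∀ (ν : π.ker →* ℂˣ) (E : G → ℂ), EXW i θ α β π ν E → ∀ ε : A →* G,
    (∀ a, α (ε a) = i a ∧ β (ε a) = 1) → ∀ (ν' : π.ker →* ℂˣ) (V : Subgroup H) (n : ℕ),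
    Nat.card {ψ : ↥(V.comap (π.comp β)) → ℂ // IsIrr ψ ∧
        ip (fun a : A => ext0 ψ (ε a)) θ ≠ 0 ∧
        (∀ (z : π.ker) (g g' : ↥(V.comap (π.comp β))), α (g' : G) = α (g : G) →
          β (g' : G) = z * β (g : G) → ψ g' = ((ν' z : ℂˣ) : ℂ) * ψ g) ∧
        HasDefect ℓ ψ n} =
      Nat.card {η : ↥(V.comap π) → ℂ // IsIrr η ∧ OvL π.ker (ν * ν') _ η ∧
        ∃ e a, HasDefect ℓ η e ∧ HasDefect ℓ θ a ∧ e + a = n}

/-- NUM: the characters of `T` over `θ`. -/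
def Stmt_NUM : Prop :=
  ∀ (A T H W G : Type) [Group A] [Fintype A] [Group T] [Fintype T] [Group H] [Fintype H]
    [Group W] [Fintype W] [Group G] [Fintype G] (ℓ : ℕ) [Fact ℓ.Prime] (i : A →* T)
    (p : T →* H), Function.Injective i → Function.Surjective p →
    (∀ t, p t = 1 ↔ t ∈ i.range) → ∀ θ : A → ℂ, IsIrr θ → ∀ π : W →* H,
    Function.Surjective π → ∀ (α : G →* T) (β : G →* W), FbP α β p π →
    ∀ (ν : π.ker →* ℂˣ) (E : G → ℂ), EXW i θ α β π ν E →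
    (∀ (w : W) (z z' : π.ker), (z' : W) = w * z * w⁻¹ → ν z' = ν z) ∧
    ∀ (V : Subgroup H) (d : ℕ),
      Nat.card {ψ : ↥(V.comap p) → ℂ // IsIrr ψ ∧ ip (fun a : A => ext0 ψ (i a)) θ ≠ 0 ∧
          HasDefect ℓ ψ d} =
        Nat.card {η : ↥(V.comap π) → ℂ // IsIrr η ∧ OvL π.ker ν _ η ∧
          ∃ e a, HasDefect ℓ η e ∧ HasDefect ℓ θ a ∧
            e + a = d + padicValNat ℓ (Nat.card π.ker)}

/-- NUW: the numbers of characters from the extension. -/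
def Stmt_NUW : Prop :=
  ∀ (L K H W : Type) [Group L] [Fintype L] [Group K] [Fintype K] [Group H] [Fintype H]
    [Group W] [Fintype W] (𝔐 : Ideal (integralClosure ℤ ℂ)) (ℓ : ℕ) [Fact ℓ.Prime]
    (π : L →* K), Function.Surjective π → ∀ (μ : π.ker →* ℂˣ) (M : Subgroup K) [M.Normal]
    (p : K →* H), (∀ k, p k = 1 ↔ k ∈ M) → ∀ ω : L → (integralClosure ℤ ℂ) ⧸ 𝔐,
    ∀ πW : W →* H, Function.Surjective πW → ∀ (τ : Finset (Subgroup M))
      (θ : ↥(SL π M τ M) → ℂ) (ν : πW.ker →* ℂˣ), PrU 𝔐 π μ p M ω τ θ →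
    EDt π p M πW τ θ ν → NumW ℓ π p M πW τ θ ν

/-- COVG: a common central extension for a finite family. -/
def Stmt_COVG : Prop :=
  ∀ (ι H : Type) [Finite ι] [Group H] [Fintype H] (A T : ι → Type) [∀ x, Group (A x)]
    [∀ x, Fintype (A x)] [∀ x, Group (T x)] [∀ x, Fintype (T x)] (i : ∀ x, A x →* T x)
    (c : ∀ x, T x →* MulAut (A x)) (p : ∀ x, T x →* H) (θ : ∀ x, A x → ℂ),
    (∀ x, ClG (i x) (c x) (p x)) → (∀ x, Function.Surjective (p x)) → (∀ x, IsIrr (θ x)) →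
    (∀ x t a, θ x (c x t a) = θ x a) →
    ∃ (W : Type) (_ : Group W) (_ : Fintype W) (π : W →* H), Function.Surjective π ∧
      π.ker ≤ Subgroup.center W ∧ ∀ x, ∃ (ν : π.ker →* ℂˣ) (G : Type) (_ : Group G)
        (_ : Finite G) (α : G →* T x) (β : G →* W) (E : G → ℂ),
        FbP α β (p x) π ∧ EXW (i x) (θ x) α β π ν E

/-- COV: a common central extension for the fixed pairs. -/
def Stmt_COV : Prop :=
  ∀ (L K H : Type) [Group L] [Fintype L] [Group K] [Fintype K] [Group H] [Fintype H]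
    (𝔐 : Ideal (integralClosure ℤ ℂ)) (π : L →* K), Function.Surjective π →
    ∀ (μ : π.ker →* ℂˣ) (M : Subgroup K) [M.Normal] (p : K →* H), Function.Surjective p →
    (∀ k, p k = 1 ↔ k ∈ M) → ∀ ω : L → (integralClosure ℤ ℂ) ⧸ 𝔐,
    ∃ (W : Type) (_ : Group W) (_ : Fintype W) (πW : W →* H)
      (ν : ∀ τ : Finset (Subgroup M), (↥(SL π M τ M) → ℂ) → (πW.ker →* ℂˣ)),
      Function.Surjective πW ∧ πW.ker ≤ Subgroup.center W ∧
      ∀ τ θ, PrU 𝔐 π μ p M ω τ θ → EDt π p M πW τ θ (ν τ θ)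

/-! ### The sums over the chains of `M` -/

open Classical in
/-- EXU: Clifford theory for the stabilizer of a chain. -/
def Stmt_EXU : Prop :=
  ∀ (L K H : Type) [Group L] [Fintype L] [Group K] [Fintype K] [Group H] [Fintype H]
    (𝔐 : Ideal (integralClosure ℤ ℂ)) (ℓ : ℕ) [Fact ℓ.Prime] (π : L →* K),
    Function.Surjective π → π.ker ≤ Subgroup.center L → ∀ (μ : π.ker →* ℂˣ)
    (M : Subgroup K) [M.Normal] (p : K →* H), Function.Surjective p →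
    (∀ k, p k = 1 ↔ k ∈ M) → ∀ (ω : L → (integralClosure ℤ ℂ) ⧸ 𝔐) (d : ℕ),
    ∀ τ ∈ Ch ℓ (⊥ : Subgroup M),
    ∃ (I : (↥(SL π M τ M) → ℂ) → Subgroup H)
      (f : (↥(SL π M τ M) → ℂ) → Subgroup H → ℚ),
      (∀ θ, IsIrr θ → OvL π.ker μ _ θ →
        (∀ g ∈ M.comap π, cen 𝔐 (SL π M τ M).subtype θ g = ω g) →
        (I θ = ⊤ ↔ PrU 𝔐 π μ p M ω τ θ)) ∧
      (∀ θ, PrU 𝔐 π μ p M ω τ θ → ∀ V, f θ V = (Nat.card V : ℚ) *
        Nat.card {ψ : ↥(SL π M τ (V.comap p)) → ℂ // IsIrr ψ ∧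
          ip (fun a : ↥(SL π M τ M) => ext0 ψ (a : L)) θ ≠ 0 ∧ HasDefect ℓ ψ d}) ∧
      ∀ V : Subgroup H,
        (Nat.card ↥(V.comap p ⊓ stb (mapCh M.subtype τ)) : ℚ) *
          Nat.card {ψ : ↥(SL π M τ (V.comap p)) → ℂ // IsIrr ψ ∧ OvL π.ker μ _ ψ ∧
            HasDefect ℓ ψ d ∧
            ∀ g ∈ M.comap π, cen 𝔐 (SL π M τ (V.comap p)).subtype ψ g = ω g} =
        ∑ θ ∈ irrF (SL π M τ M) with OvL π.ker μ _ θ ∧
            ∀ g ∈ M.comap π, cen 𝔐 (SL π M τ M).subtype θ g = ω g,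
          (Nat.card ↥(M ⊓ stb (mapCh M.subtype τ)) : ℚ) * f θ (V ⊓ I θ)

open Classical in
/-- EXPU: only the fixed pairs contribute to the Moebius sum. -/
def Stmt_EXPU : Prop :=
  ∀ (L K H : Type) [Group L] [Fintype L] [Group K] [Fintype K] [Group H] [Fintype H]
    (𝔐 : Ideal (integralClosure ℤ ℂ)) (ℓ : ℕ) [Fact ℓ.Prime] (π : L →* K),
    Function.Surjective π → π.ker ≤ Subgroup.center L → ∀ (μ : π.ker →* ℂˣ)
    (M : Subgroup K) [M.Normal] (p : K →* H), Function.Surjective p →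
    (∀ k, p k = 1 ↔ k ∈ M) → ∀ (ω : L → (integralClosure ℤ ℂ) ⧸ 𝔐) (d : ℕ)
    (m : Subgroup H → ℚ), Mob m →
    ∑ V, m V * PHU 𝔐 ℓ d π μ M (V.comap p) ω =
      ∑ τ ∈ Ch ℓ (⊥ : Subgroup M), (-1 : ℚ) ^ τ.card *
        ∑ θ ∈ irrF (SL π M τ M) with PrU 𝔐 π μ p M ω τ θ,
          (Nat.card ↥(M ⊓ stb (mapCh M.subtype τ)) : ℚ) *
            ∑ V, m V * ((Nat.card V : ℚ) *
              Nat.card {ψ : ↥(SL π M τ (V.comap p)) → ℂ // IsIrr ψ ∧
                ip (fun a : ↥(SL π M τ M) => ext0 ψ (a : L)) θ ≠ 0 ∧ HasDefect ℓ ψ d})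

/-! ### The sums over the chains of `M` vanish -/

/-- PS1: the sum over the chains of a normal subgroup vanishes if there are no characters of
minimal defect (faithful linear character of a cyclic kernel). -/
def Stmt_PS1 : Prop :=
  ∀ (L K H : Type) [Group L] [Fintype L] [Group K] [Fintype K] [Group H] [Fintype H]
    (𝔐 : Ideal (integralClosure ℤ ℂ)) (ℓ : ℕ) [Fact ℓ.Prime], 𝔐.IsMaximal →
    (ℓ : integralClosure ℤ ℂ) ∈ 𝔐 → ∀ π : L →* K, Function.Surjective π →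
    π.ker ≤ Subgroup.center L → IsCyclic π.ker → ∀ μ : π.ker →* ℂˣ, Function.Injective μ →
    HQ ℓ (Nat.card K) → ∀ (M : Subgroup K) [M.Normal] (p : K →* H), Function.Surjective p →
    (∀ k, p k = 1 ↔ k ∈ M) → ∀ P : Subgroup H, SylAb ℓ P →
    ∀ ω : L → (integralClosure ℤ ℂ) ⧸ 𝔐, Pos 𝔐 ℓ π μ M ω → ∀ d : ℕ,
    PHU 𝔐 ℓ d π μ M ⊤ ω = 0

/-- PS2: the same for arbitrary linear characters of the kernel. -/
def Stmt_PS2 : Prop :=
  ∀ (L K H : Type) [Group L] [Fintype L] [Group K] [Fintype K] [Group H] [Fintype H]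
    (𝔐 : Ideal (integralClosure ℤ ℂ)) (ℓ : ℕ) [Fact ℓ.Prime], 𝔐.IsMaximal →
    (ℓ : integralClosure ℤ ℂ) ∈ 𝔐 → ∀ π : L →* K, Function.Surjective π →
    π.ker ≤ Subgroup.center L → ∀ μ : π.ker →* ℂˣ,
    HQ ℓ (Nat.card K) → ∀ (M : Subgroup K) [M.Normal] (p : K →* H), Function.Surjective p →
    (∀ k, p k = 1 ↔ k ∈ M) → ∀ P : Subgroup H, SylAb ℓ P →
    ∀ ω : L → (integralClosure ℤ ℂ) ⧸ 𝔐, Pos 𝔐 ℓ π μ M ω → ∀ d : ℕ,
    PHU 𝔐 ℓ d π μ M ⊤ ω = 0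

/-- PS3: the same for the subgroups which contain `M`. -/
def Stmt_PS3 : Prop :=
  ∀ (L K H : Type) [Group L] [Fintype L] [Group K] [Fintype K] [Group H] [Fintype H]
    (𝔐 : Ideal (integralClosure ℤ ℂ)) (ℓ : ℕ) [Fact ℓ.Prime], 𝔐.IsMaximal →
    (ℓ : integralClosure ℤ ℂ) ∈ 𝔐 → ∀ π : L →* K, Function.Surjective π →
    π.ker ≤ Subgroup.center L → ∀ μ : π.ker →* ℂˣ,
    ∀ (M : Subgroup K) [M.Normal] (p : K →* H), Function.Surjective p →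
    (∀ k, p k = 1 ↔ k ∈ M) → ∀ P : Subgroup H, SylAb ℓ P →
    ∀ ω : L → (integralClosure ℤ ℂ) ⧸ 𝔐, Pos 𝔐 ℓ π μ M ω → ∀ V : Subgroup H,
    HQ ℓ (Nat.card ↥(V.comap p)) → ∀ d : ℕ, PHU 𝔐 ℓ d π μ M (V.comap p) ω = 0

/-- CQI: the central function of an inflated character. -/
def Stmt_CQI : Prop :=
  ∀ (L L' : Type) [Group L] [Fintype L] [Group L'] [Fintype L']
    (𝔐 : Ideal (integralClosure ℤ ℂ)) (q : L →* L'), Function.Surjective q →
    q.ker ≤ Subgroup.center L → ∀ (S : Subgroup L') (η : S → ℂ), IsIrr η →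
    IsIrr (fun x : ↥(S.comap q) => η ⟨q x, x.2⟩) ∧ ∀ g : L,
    cen 𝔐 (S.comap q).subtype (fun x : ↥(S.comap q) => η ⟨q x, x.2⟩) g =
      ((Nat.card {z : q.ker // IsConj ((z : L) * g) g} : ℕ) :
        (integralClosure ℤ ℂ) ⧸ 𝔐) * cen 𝔐 S.subtype η (q g)

/-! ### The fibre product -/

section FB

variable {L K H W : Type} [Group L] [Group K] [Group H] [Group W]

/-- The projection of the fibre product of `L` and `W` over `H` to `K`. -/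
def piY (π : L →* K) (p : K →* H) (πW : W →* H) : fpr (p.comp π) πW →* K :=
  π.comp (ffst (p.comp π) πW)

theorem kerY {π : L →* K} {p : K →* H} {πW : W →* H} {x : fpr (p.comp π) πW}
    (h : x ∈ (piY π p πW).ker) :
    (x : L × W).1 ∈ π.ker ∧ (x : L × W).2 ∈ πW.ker := by
  have h1 : π (x : L × W).1 = 1 := h
  have h2 : p (π (x : L × W).1) = πW (x : L × W).2 := x.2
  refine ⟨h1, ?_⟩
  rw [h1, map_one] at h2
  exact h2.symm

/-- The linear character of the kernel of the projection of the fibre product. -/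
def muY (π : L →* K) (p : K →* H) (πW : W →* H) (μ : π.ker →* ℂˣ) (ν : πW.ker →* ℂˣ) :
    (piY π p πW).ker →* ℂˣ where
  toFun x := μ ⟨((x : fpr (p.comp π) πW) : L × W).1, (kerY x.2).1⟩ *
    ν ⟨((x : fpr (p.comp π) πW) : L × W).2, (kerY x.2).2⟩
  map_one' := by
    change μ 1 * ν 1 = 1
    rw [map_one, map_one, one_mul]
  map_mul' := by
    intro x y
    have h1 : (⟨(((x * y : (piY π p πW).ker) : fpr (p.comp π) πW) : L × W).1,
        (kerY (x * y).2).1⟩ : π.ker) =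
        ⟨((x : fpr (p.comp π) πW) : L × W).1, (kerY x.2).1⟩ *
          ⟨((y : fpr (p.comp π) πW) : L × W).1, (kerY y.2).1⟩ := rfl
    have h2 : (⟨(((x * y : (piY π p πW).ker) : fpr (p.comp π) πW) : L × W).2,
        (kerY (x * y).2).2⟩ : πW.ker) =
        ⟨((x : fpr (p.comp π) πW) : L × W).2, (kerY x.2).2⟩ *
          ⟨((y : fpr (p.comp π) πW) : L × W).2, (kerY y.2).2⟩ := rfl
    rw [h1, h2, map_mul, map_mul]
    exact mul_mul_mul_comm _ _ _ _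

open Classical in
/-- The central function on the fibre product. -/
noncomputable def omY (𝔐 : Ideal (integralClosure ℤ ℂ)) (π : L →* K) (p : K →* H)
    (πW : W →* H) (ν : πW.ker →* ℂˣ) (ω : L → (integralClosure ℤ ℂ) ⧸ 𝔐)
    (x : fpr (p.comp π) πW) : (integralClosure ℤ ℂ) ⧸ 𝔐 :=
  if h : (x : L × W).2 ∈ πW.ker then red 𝔐 ((ν ⟨(x : L × W).2, h⟩ : ℂˣ) : ℂ) *
    ω (x : L × W).1 else 0

open Classical in
/-- The product of a character of a subgroup of `L` and a linear character of the kernel. -/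
noncomputable def thY (π : L →* K) (p : K →* H) (M : Subgroup K) (πW : W →* H)
    (τ : Finset (Subgroup M)) (θ : ↥(SL π M τ M) → ℂ) (ν : πW.ker →* ℂˣ)
    (x : ↥(SL (piY π p πW) M τ M)) : ℂ :=
  if h : ((x : fpr (p.comp π) πW) : L × W).2 ∈ πW.ker then
    ext0 θ ((x : fpr (p.comp π) πW) : L × W).1 *
      ((ν ⟨((x : fpr (p.comp π) πW) : L × W).2, h⟩ : ℂˣ) : ℂ) else 0

end FB

/-- FBA: the fibre product as a central extension. -/
def Stmt_FBA : Prop :=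
  ∀ (L K H W : Type) [Group L] [Fintype L] [Group K] [Fintype K] [Group H] [Fintype H]
    [Group W] [Fintype W] (𝔐 : Ideal (integralClosure ℤ ℂ)) (ℓ : ℕ) [Fact ℓ.Prime],
    𝔐.IsMaximal → (ℓ : integralClosure ℤ ℂ) ∈ 𝔐 → ∀ π : L →* K,
    Function.Surjective π → π.ker ≤ Subgroup.center L → ∀ (μ : π.ker →* ℂˣ)
    (M : Subgroup K) [M.Normal] (p : K →* H), Function.Surjective p →
    (∀ k, p k = 1 ↔ k ∈ M) → ∀ ω : L → (integralClosure ℤ ℂ) ⧸ 𝔐, ∀ πW : W →* H,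
    Function.Surjective πW → πW.ker ≤ Subgroup.center W → ∀ ν : πW.ker →* ℂˣ,
    Function.Surjective (piY π p πW) ∧
    (piY π p πW).ker ≤ Subgroup.center (fpr (p.comp π) πW) ∧
    (Pos 𝔐 ℓ π μ M ω →
      Pos 𝔐 ℓ (piY π p πW) (muY π p πW μ ν) M (omY 𝔐 π p πW ν ω))

open Classical in
/-- FBB: the fixed pairs of the fibre product. -/
def Stmt_FBB : Prop :=
  ∀ (L K H W : Type) [Group L] [Fintype L] [Group K] [Fintype K] [Group H] [Fintype H]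
    [Group W] [Fintype W] (𝔐 : Ideal (integralClosure ℤ ℂ)) (ℓ : ℕ) [Fact ℓ.Prime],
    𝔐.IsMaximal → (ℓ : integralClosure ℤ ℂ) ∈ 𝔐 → ∀ π : L →* K,
    Function.Surjective π → π.ker ≤ Subgroup.center L → ∀ (μ : π.ker →* ℂˣ)
    (M : Subgroup K) [M.Normal] (p : K →* H), Function.Surjective p →
    (∀ k, p k = 1 ↔ k ∈ M) → ∀ ω : L → (integralClosure ℤ ℂ) ⧸ 𝔐, ∀ πW : W →* H,
    Function.Surjective πW → πW.ker ≤ Subgroup.center W → ∀ ν : πW.ker →* ℂˣ,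
    ∀ (τ : Finset (Subgroup M)) (f : (↥(SL (piY π p πW) M τ M) → ℂ) → ℚ),
    ∑ θ ∈ irrF (SL (piY π p πW) M τ M) with
        PrU 𝔐 (piY π p πW) (muY π p πW μ ν) p M (omY 𝔐 π p πW ν ω) τ θ, f θ =
      ∑ θ ∈ irrF (SL π M τ M) with PrU 𝔐 π μ p M ω τ θ, f (thY π p M πW τ θ ν)

/-- FBC: the numbers of the characters of the fibre product. -/
def Stmt_FBC : Prop :=
  ∀ (L K H W : Type) [Group L] [Fintype L] [Group K] [Fintype K] [Group H] [Fintype H]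
    [Group W] [Fintype W] (𝔐 : Ideal (integralClosure ℤ ℂ)) (ℓ : ℕ) [Fact ℓ.Prime],
    𝔐.IsMaximal → (ℓ : integralClosure ℤ ℂ) ∈ 𝔐 → ∀ π : L →* K,
    Function.Surjective π → π.ker ≤ Subgroup.center L → ∀ (μ : π.ker →* ℂˣ)
    (M : Subgroup K) [M.Normal] (p : K →* H), Function.Surjective p →
    (∀ k, p k = 1 ↔ k ∈ M) → ∀ ω : L → (integralClosure ℤ ℂ) ⧸ 𝔐, ∀ πW : W →* H,
    Function.Surjective πW → πW.ker ≤ Subgroup.center W → ∀ ν ν' : πW.ker →* ℂˣ,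
    ∀ (τ : Finset (Subgroup M)) (θ : ↥(SL π M τ M) → ℂ), PrU 𝔐 π μ p M ω τ θ →
    EDt π p M πW τ θ ν → ∀ (V : Subgroup H) (n : ℕ),
    Nat.card {ψ : ↥(SL (piY π p πW) M τ (V.comap p)) → ℂ // IsIrr ψ ∧
        ip (fun a : ↥(SL (piY π p πW) M τ M) => ext0 ψ (a : fpr (p.comp π) πW))
          (thY π p M πW τ θ ν') ≠ 0 ∧ HasDefect ℓ ψ n} =
      Nat.card {η : ↥(V.comap πW) → ℂ // IsIrr η ∧ OvL πW.ker (ν * ν') _ η ∧
        ∃ e a, HasDefect ℓ η e ∧ HasDefect ℓ θ a ∧ e + a = n}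

/-! ### The theorems -/

open Classical in
/-- T2R: the twisted relations. -/
def Stmt_T2R : Prop :=
  ∀ (L K H W : Type) [Group L] [Fintype L] [Group K] [Fintype K] [Group H] [Fintype H]
    [Group W] [Fintype W] (𝔐 : Ideal (integralClosure ℤ ℂ)) (ℓ : ℕ) [Fact ℓ.Prime],
    𝔐.IsMaximal → (ℓ : integralClosure ℤ ℂ) ∈ 𝔐 → ∀ π : L →* K,
    Function.Surjective π → π.ker ≤ Subgroup.center L → ∀ (μ : π.ker →* ℂˣ)
    (M : Subgroup K) [M.Normal] (p : K →* H), Function.Surjective p →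
    (∀ k, p k = 1 ↔ k ∈ M) → ∀ P : Subgroup H, SylAb ℓ P → HQ ℓ (Nat.card K) →
    ∀ ω : L → (integralClosure ℤ ℂ) ⧸ 𝔐, Pos 𝔐 ℓ π μ M ω → ∀ πW : W →* H,
    Function.Surjective πW → πW.ker ≤ Subgroup.center W →
    ∀ ν : ∀ τ : Finset (Subgroup M), (↥(SL π M τ M) → ℂ) → (πW.ker →* ℂˣ),
    (∀ τ θ, PrU 𝔐 π μ p M ω τ θ → EDt π p M πW τ θ (ν τ θ)) →
    ∀ m : Subgroup H → ℚ, Mob m → ∀ (ν' : πW.ker →* ℂˣ) (n : ℕ),
    ∑ τ ∈ Ch ℓ (⊥ : Subgroup M), (-1 : ℚ) ^ τ.card *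
      ∑ θ ∈ irrF (SL π M τ M) with PrU 𝔐 π μ p M ω τ θ,
        (Nat.card ↥(M ⊓ stb (mapCh M.subtype τ)) : ℚ) *
          ∑ V, m V * ((Nat.card V : ℚ) * Nat.card {η : ↥(V.comap πW) → ℂ // IsIrr η ∧
            OvL πW.ker (ν τ θ * ν') _ η ∧
            ∃ e a, HasDefect ℓ η e ∧ HasDefect ℓ θ a ∧ e + a = n}) = 0

/-- T2A: the relations between the linear characters, from Dade's conjecture. -/
def Stmt_T2A : Prop :=
  ∀ (L K H W : Type) [Group L] [Fintype L] [Group K] [Fintype K] [Group H] [Fintype H]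
    [Group W] [Fintype W] (𝔐 : Ideal (integralClosure ℤ ℂ)) (ℓ : ℕ) [Fact ℓ.Prime],
    𝔐.IsMaximal → (ℓ : integralClosure ℤ ℂ) ∈ 𝔐 → ∀ π : L →* K,
    Function.Surjective π → π.ker ≤ Subgroup.center L → ∀ (μ : π.ker →* ℂˣ)
    (M : Subgroup K) [M.Normal] (p : K →* H), Function.Surjective p →
    (∀ k, p k = 1 ↔ k ∈ M) → ∀ P : Subgroup H, SylAb ℓ P → HQ ℓ (Nat.card K) →
    ∀ ω : L → (integralClosure ℤ ℂ) ⧸ 𝔐, Pos 𝔐 ℓ π μ M ω → ∀ πW : W →* H,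
    Function.Surjective πW → πW.ker ≤ Subgroup.center W →
    ∀ ν : ∀ τ : Finset (Subgroup M), (↥(SL π M τ M) → ℂ) → (πW.ker →* ℂˣ),
    (∀ τ θ, PrU 𝔐 π μ p M ω τ θ → EDt π p M πW τ θ (ν τ θ)) →
    T2 𝔐 ℓ π μ p M ω πW P ν

/-- PSZ: the sum over the chains of `K` and the sum over the chains of `M` (minimal
counterexample). -/
def Stmt_PSZ : Prop :=
  ∀ (L K H : Type) [Group L] [Fintype L] [Group K] [Fintype K] [Group H] [Fintype H]
    (𝔐 : Ideal (integralClosure ℤ ℂ)) (ℓ : ℕ) [Fact ℓ.Prime], 𝔐.IsMaximal →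
    (ℓ : integralClosure ℤ ℂ) ∈ 𝔐 → ∀ π : L →* K, Function.Surjective π →
    π.ker ≤ Subgroup.center L → ∀ μ : π.ker →* ℂˣ, pCore ℓ K = ⊥ →
    (∀ n < Nat.card K, HQ ℓ n) → ∀ (M : Subgroup K) [M.Normal] (p : K →* H), Function.Surjective p →
    (∀ k, p k = 1 ↔ k ∈ M) → ∀ P : Subgroup H, SylAb ℓ P →
    ∀ ω : L → (integralClosure ℤ ℂ) ⧸ 𝔐, Pos 𝔐 ℓ π μ M ω → ∀ d : ℕ,
    DKU 𝔐 ℓ d π μ M ω = PHU 𝔐 ℓ d π μ M ⊤ ω

/-- T2B: the relations imply that the sum over the chains vanishes. -/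
def Stmt_T2B : Prop :=
  ∀ (L K H W : Type) [Group L] [Fintype L] [Group K] [Fintype K] [Group H] [Fintype H]
    [Group W] [Fintype W] (𝔐 : Ideal (integralClosure ℤ ℂ)) (ℓ : ℕ) [Fact ℓ.Prime],
    𝔐.IsMaximal → (ℓ : integralClosure ℤ ℂ) ∈ 𝔐 → ∀ π : L →* K,
    Function.Surjective π → π.ker ≤ Subgroup.center L → ∀ (μ : π.ker →* ℂˣ)
    (M : Subgroup K) [M.Normal] (p : K →* H), Function.Surjective p →
    (∀ k, p k = 1 ↔ k ∈ M) → ∀ P : Subgroup H, SylAb ℓ P → pCore ℓ K = ⊥ →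
    (∀ n < Nat.card K, HQ ℓ n) →
    ∀ ω : L → (integralClosure ℤ ℂ) ⧸ 𝔐, Pos 𝔐 ℓ π μ M ω → ∀ πW : W →* H,
    Function.Surjective πW →
    ∀ ν : ∀ τ : Finset (Subgroup M), (↥(SL π M τ M) → ℂ) → (πW.ker →* ℂˣ),
    (∀ τ θ, PrU 𝔐 π μ p M ω τ θ → NumW ℓ π p M πW τ θ (ν τ θ)) →
    T2 𝔐 ℓ π μ p M ω πW P ν → ∀ d : ℕ, DKU 𝔐 ℓ d π μ M ω = 0

end Pool.Agent.DPF
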