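import Mathlib
import Pool.Agent.DPF.Stmts

/-!
# Dade's conjecture: a common central extension for the fixed pairs (COV)
-/

namespace Pool.Agent.DPF

open Pool.Agent.DP Pool.Agent.DPC Pool.Agent.DPM Pool.Agent.DPN Pool.Agent.Lib_helper13
  Representation

namespace COV

variable {L K H : Type} [Group L] [Group K] [Group H]

theorem mem_SL {π : L →* K} {M : Subgroup K} {τ : Finset (Subgroup M)} {S : Subgroup K} {l : L} :
    l ∈ SL π M τ S ↔ π l ∈ S ∧ π l ∈ stb (mapCh M.subtype τ) := by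
  rw [SL, Subgroup.mem_comap, Subgroup.mem_inf]

theorem conj_mem (π : L →* K) (M : Subgroup K) [M.Normal] (τ : Finset (Subgroup M)) {t a : L}
    (ht : t ∈ SL π M τ ⊤) (ha : a ∈ SL π M τ M) : t * a * t⁻¹ ∈ SL π M τ M := by
  rw [mem_SL] at ht ha ⊢
  rw [map_mul, map_mul, map_inv]
  refine ⟨Subgroup.Normal.conj_mem inferInstance _ ha.1 _, ?_⟩
  exact mul_mem (mul_mem ht.2 ha.2) (inv_mem ht.2)

/-- The conjugation. -/
noncomputable def cj (π : L →* K) (M : Subgroup K) [M.Normal] (τ : Finset (Subgroup M)) :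
    ↥(SL π M τ ⊤) →* MulAut ↥(SL π M τ M) where
  toFun t :=
    { toFun := fun a => ⟨(t : L) * a * (t : L)⁻¹, conj_mem π M τ t.2 a.2⟩
      invFun := fun a => ⟨(t : L)⁻¹ * a * (t : L), by
        have h := conj_mem π M τ (inv_mem t.2) a.2
        rwa [inv_inv] at h⟩
      left_inv := fun a => by
        apply Subtype.ext
        change (t : L)⁻¹ * ((t : L) * a * (t : L)⁻¹) * (t : L) = a
        group
      right_inv := fun a => by
        apply Subtype.ext
        change (t : L) * ((t : L)⁻¹ * a * (t : L)) * (t : L)⁻¹ = a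
        group
      map_mul' := fun a b => by
        apply Subtype.ext
        change (t : L) * (a * b : L) * (t : L)⁻¹ =
          ((t : L) * a * (t : L)⁻¹) * ((t : L) * b * (t : L)⁻¹)
        group }
  map_one' := by
    ext a
    change ((1 : ↥(SL π M τ ⊤)) : L) * a * ((1 : ↥(SL π M τ ⊤)) : L)⁻¹ = a
    rw [Subgroup.coe_one]
    group
  map_mul' s t := by
    ext a
    change ((s * t : ↥(SL π M τ ⊤)) : L) * a * ((s * t : ↥(SL π M τ ⊤)) : L)⁻¹ =
      (s : L) * ((t : L) * a * (t : L)⁻¹) * (s : L)⁻¹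
    rw [Subgroup.coe_mul]
    group

theorem cj_coe (π : L →* K) (M : Subgroup K) [M.Normal] (τ : Finset (Subgroup M))
    (t : ↥(SL π M τ ⊤)) (a : ↥(SL π M τ M)) :
    ((cj π M τ t a : ↥(SL π M τ M)) : L) = (t : L) * a * (t : L)⁻¹ := rfl

theorem clg (π : L →* K) (M : Subgroup K) [M.Normal] (p : K →* H)
    (hpM : ∀ k, p k = 1 ↔ k ∈ M) (τ : Finset (Subgroup M)) :
    ClG (iSL π M τ) (cj π M τ) (pSL π p M τ) where
  inj := Subgroup.inclusion_injective _
  act y a := by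
    apply Subtype.ext
    rfl
  ker y := by
    constructor
    · intro h
      have h1 : π (y : L) ∈ M := (hpM _).mp h
      have h2 : (y : L) ∈ SL π M τ M := mem_SL.mpr ⟨h1, (mem_SL.mp y.2).2⟩
      exact ⟨⟨(y : L), h2⟩, Subtype.ext rfl⟩
    · rintro ⟨a, rfl⟩
      have h1 : π (a : L) ∈ M := (mem_SL.mp a.2).1
      exact (hpM _).mpr h1

end COV

theorem COV_thm (h1 : Stmt_COVG) : Stmt_COV := by
  classical
  intro L K H _ _ _ _ _ _ 𝔐 π hπ μ M _ p hp hpM ω
  let ι : Type := {x : (Σ τ : Finset (Subgroup M), {θ : ↥(SL π M τ M) → ℂ // IsIrr θ}) //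
    PrU 𝔐 π μ p M ω x.1 x.2.1}
  have hfin : Finite ι := by
    have : ∀ τ : Finset (Subgroup M), Finite {θ : ↥(SL π M τ M) → ℂ // IsIrr θ} :=
      fun τ => inferInstance
    have : Finite (Σ τ : Finset (Subgroup M), {θ : ↥(SL π M τ M) → ℂ // IsIrr θ}) :=
      inferInstance
    exact Subtype.finite
  obtain ⟨W, gW, fW, πW, hs, hc, hx⟩ := h1 ι H (fun x => ↥(SL π M x.1.1 M))
    (fun x => ↥(SL π M x.1.1 ⊤)) (fun x => iSL π M x.1.1) (fun x => COV.cj π M x.1.1)
    (fun x => pSL π p M x.1.1) (fun x => x.1.2.1) (fun x => COV.clg π M p hpM x.1.1)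
    (fun x h => by
      obtain ⟨k, hk, hkh⟩ := x.2.sj h
      obtain ⟨l, hl⟩ := hπ k
      refine ⟨⟨l, COV.mem_SL.mpr ⟨Subgroup.mem_top _, ?_⟩⟩, ?_⟩
      · rw [hl]
        exact hk
      · change p (π l) = h
        rw [hl, hkh])
    (fun x => x.1.2.2)
    (fun x t a => x.2.iv t t.2 a (COV.cj π M x.1.1 t a) (COV.cj_coe π M x.1.1 t a))
  choose ν hν using hx
  refine ⟨W, gW, fW, πW, fun τ θ => if h : PrU 𝔐 π μ p M ω τ θ then ν ⟨⟨τ, ⟨θ, h.irr⟩⟩, h⟩ else 1,
    hs, hc, ?_⟩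
  intro τ θ h
  have h2 := hν ⟨⟨τ, ⟨θ, h.irr⟩⟩, h⟩
  simp only [dif_pos h]
  exact h2

end Pool.Agent.DPF
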