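import Pool.Agent.DPF.Stmts
import Pool.Agent.DPM.TWC
import Pool.Agent.DPN.RDA
import Pool.Agent.DPN.WFP

/-!
# COVG: a common central extension for a finite family
-/

set_option autoImplicit false

namespace Pool.Agent.DPF

open Pool.Agent.DP Pool.Agent.DPC Pool.Agent.DPM Pool.Agent.DPN Pool.Agent.Lib_helper13

namespace COVG

variable {ι H : Type} [Group H] {L : ι → Type} [∀ x, Group (L x)]

/-- The values in the kernel. -/
theorem F_mem {U : ∀ x, Subgroup (L x)} {π : ∀ x, L x →* H} (hk : ∀ x l, π x l = 1 ↔ l ∈ U x)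
    (x : ι) (z : (WFP.P π).ker) : WFP.F π x (z : WFP.S π) ∈ U x := by
  rw [← hk, ← WFP.P_F]
  exact z.2

/-- The linear character of the kernel. -/
noncomputable def nu {U : ∀ x, Subgroup (L x)} {π : ∀ x, L x →* H}
    (hk : ∀ x l, π x l = 1 ↔ l ∈ U x) (μ : ∀ x, U x →* ℂˣ) (x : ι) : (WFP.P π).ker →* ℂˣ :=
  (μ x).comp (((WFP.F π x).comp (WFP.P π).ker.subtype).codRestrict (U x)
    (fun z => F_mem hk x z))

theorem nu_apply {U : ∀ x, Subgroup (L x)} {π : ∀ x, L x →* H}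
    (hk : ∀ x l, π x l = 1 ↔ l ∈ U x) (μ : ∀ x, U x →* ℂˣ) (x : ι) (z : (WFP.P π).ker) :
    nu hk μ x z = μ x ⟨WFP.F π x (z : WFP.S π), F_mem hk x z⟩ := rfl

end COVG

open COVG

theorem COVG_thm : Stmt_COVG := by
  intro ι H _ _ _ A T _ _ _ _ i c p θ hC hp hθ hinv
  choose Γ L gΓ fΓ gL fL e q r E U μ π h using fun x =>
    TWC_thm (A x) (T x) H (i x) (c x) (p x) (hC x) (hp x) (θ x) (hθ x) (hinv x)
  have : Finite (WFP.S π) := Subtype.finite
  have hk : ∀ x l, π x l = 1 ↔ l ∈ U x := fun x => (h x).πk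
  have hcc : (WFP.P π).ker ≤ Subgroup.center (WFP.S π) := by
    intro w hw
    rw [Subgroup.mem_center_iff]
    intro v
    apply WFP.ext'
    · rw [map_mul, map_mul, MonoidHom.mem_ker.1 hw, mul_one, one_mul]
    · intro x
      rw [map_mul, map_mul]
      exact Subgroup.mem_center_iff.1 ((h x).Uc (F_mem hk x ⟨w, hw⟩)) _
  refine ⟨WFP.S π, inferInstance, Fintype.ofFinite _, WFP.P π,
    WFP.P_surj π (fun x => (h x).πs), hcc, ?_⟩
  intro x
  refine ⟨nu hk μ x, fpr (q x) (WFP.F π x), inferInstance, Subtype.finite,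
    (r x).comp (ffst (q x) (WFP.F π x)), fsnd (q x) (WFP.F π x),
    fun g => E x (ffst (q x) (WFP.F π x) g), ?_, ?_⟩
  · refine ⟨?_, ?_⟩
    · intro g
      have h1 : q x (ffst (q x) (WFP.F π x) g) = WFP.F π x (fsnd (q x) (WFP.F π x) g) := g.2
      rw [WFP.P_F π x, ← h1, (h x).πq]
      rfl
    · intro t w htw
      rw [WFP.P_F π x] at htw
      obtain ⟨γ, hγ1, hγ2⟩ := RDA.exists_g (hC x) (h x) htw
      refine ⟨⟨(γ, w), hγ2⟩, ⟨hγ1, rfl⟩, ?_⟩
      rintro ⟨⟨γ', w'⟩, hg'⟩ ⟨h1, h2⟩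
      have h3 : w' = w := h2
      have h4 : r x γ' = r x γ := h1.trans hγ1.symm
      have h5 : q x γ' = q x γ := by
        have h6 : q x γ' = WFP.F π x w' := hg'
        rw [h6, h3, hγ2]
      apply Subtype.ext
      apply Prod.ext
      · exact RDA.inj_g (hC x) (h x) h4 h5
      · exact h3
  · refine ⟨(h x).Ec.comp _, ?_, ?_⟩
    · intro a g h1 h2
      have h3 : r x (ffst (q x) (WFP.F π x) g) = r x (e x a) := by
        rw [(h x).re]
        exact h1
      have h4 : q x (ffst (q x) (WFP.F π x) g) = WFP.F π x (fsnd (q x) (WFP.F π x) g) := g.2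
      have h5 : q x (ffst (q x) (WFP.F π x) g) = q x (e x a) := by
        rw [h4, h2, map_one, ((h x).qk _).2 ⟨a, rfl⟩]
      have h6 := RDA.inj_g (hC x) (h x) h3 h5
      change E x (ffst (q x) (WFP.F π x) g) = θ x a
      rw [h6, (h x).Ee]
    · intro z g g' h1 h2
      rw [nu_apply]
      have h1' : r x (ffst (q x) (WFP.F π x) g') = r x (ffst (q x) (WFP.F π x) g) := h1
      have h3 : q x (ffst (q x) (WFP.F π x) g) = WFP.F π x (fsnd (q x) (WFP.F π x) g) := g.2
      have h4 : q x (ffst (q x) (WFP.F π x) g') = WFP.F π x (fsnd (q x) (WFP.F π x) g') := g'.2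
      set γ := ffst (q x) (WFP.F π x) g with hγ
      set γ' := ffst (q x) (WFP.F π x) g' with hγ'
      have h5 : q x (γ' * γ⁻¹) = WFP.F π x (z : WFP.S π) := by
        rw [map_mul, map_inv, h4, h3, h2, map_mul, mul_inv_cancel_right]
      have h6 : r x (γ' * γ⁻¹) = 1 := by
        rw [map_mul, map_inv, h1', mul_inv_cancel]
      have h7 : q x (γ' * γ⁻¹) ∈ U x := by
        rw [h5]
        exact F_mem hk x z
      have h8 := (h x).El (γ' * γ⁻¹) γ h7 h6
      rw [inv_mul_cancel_right] at h8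
      have h9 : (⟨q x (γ' * γ⁻¹), h7⟩ : U x) = ⟨WFP.F π x (z : WFP.S π), F_mem hk x z⟩ :=
        Subtype.ext h5
      rw [h9] at h8
      exact h8

end Pool.Agent.DPF
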