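import Mathlib
import Pool.Agent.DPF.Stmts
import Pool.Agent.DPM.QINF

/-!
# CQI: the central function of an inflated character
-/

set_option autoImplicit false
set_option linter.unusedSectionVars false

namespace Pool.Agent.DPF

open Pool.Agent.DP Pool.Agent.DPC Pool.Agent.DPM Pool.Agent.DPN Pool.Agent.Lib_helper13
  Representation

namespace CQI

variable {L L' : Type} [Group L] [Fintype L] [Group L'] [Fintype L'] (q : L →* L')

/-- The restriction of `q` to the preimage of `S`. -/
def rq (S : Subgroup L') : ↥(S.comap q) →* S where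
  toFun x := ⟨q x, x.2⟩
  map_one' := by
    apply Subtype.ext
    simp
  map_mul' := by
    intro a b
    apply Subtype.ext
    simp

theorem rq_surj (hq : Function.Surjective q) (S : Subgroup L') :
    Function.Surjective (rq q S) := by
  rintro ⟨y, hy⟩
  obtain ⟨x, rfl⟩ := hq y
  exact ⟨⟨x, hy⟩, rfl⟩

theorem conj_map {x g : L} (h : IsConj x g) : IsConj (q x) (q g) := by
  obtain ⟨c, rfl⟩ := isConj_iff.mp h
  exact isConj_iff.mpr ⟨q c, by simp⟩

theorem conj_mul_iff {z g h : L} (hz : z ∈ Subgroup.center L) :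
    IsConj (z * (h * g * h⁻¹)) g ↔ IsConj (z * g) g := by
  have h1 : z * (h * g * h⁻¹) = h * (z * g) * h⁻¹ := by
    have h2 : z * h = h * z := (Subgroup.mem_center_iff.mp hz h).symm
    calc z * (h * g * h⁻¹) = (z * h) * g * h⁻¹ := by group
      _ = h * (z * g) * h⁻¹ := by rw [h2]; group
  have h3 : IsConj (z * g) (z * (h * g * h⁻¹)) := isConj_iff.mpr ⟨h, h1.symm⟩
  exact ⟨fun h4 => h3.trans h4, fun h4 => h3.symm.trans h4⟩

open Classical in
theorem sum_fib (hq : Function.Surjective q) (hc : q.ker ≤ Subgroup.center L) (S : Subgroup L')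
    (g : L) (y : S) :
    ∑ x ∈ Finset.univ.filter (fun x : ↥(S.comap q) => rq q S x = y), conjInd (x : L) g =
      (Nat.card {z : q.ker // IsConj ((z : L) * g) g} : ℂ) * conjInd (y : L') (q g) := by
  by_cases hy : IsConj (y : L') (q g)
  · obtain ⟨c, hc1⟩ := isConj_iff.mp hy.symm
    obtain ⟨h, rfl⟩ := hq c
    have h1 : conjInd (y : L') (q g) = 1 := by
      rw [conjInd, if_pos hy]
    rw [h1, mul_one]
    have h2 : q (h * g * h⁻¹) = y := by
      rw [← hc1]
      simp
    have h5 : ∑ x ∈ Finset.univ.filter (fun x : ↥(S.comap q) => rq q S x = y),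
        conjInd (x : L) g = (((Finset.univ.filter (fun x : ↥(S.comap q) => rq q S x = y)).filter
          (fun x : ↥(S.comap q) => IsConj (x : L) g)).card : ℂ) := by
      rw [← Finset.sum_boole]
      refine Finset.sum_congr rfl fun x _ => ?_
      by_cases hx : IsConj (x : L) g
      · rw [conjInd, if_pos hx, if_pos hx]
      · rw [conjInd, if_neg hx, if_neg hx]
    rw [h5, Finset.filter_filter]
    congr 1
    rw [← Fintype.card_subtype, ← Nat.card_eq_fintype_card]
    have hf : ∀ z : L, z ∈ q.ker → q (z * (h * g * h⁻¹)) = y := by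
      intro z hz
      rw [map_mul, h2, MonoidHom.mem_ker.mp hz, one_mul]
    have hb : ∀ x : L, q x = y → x * (h * g * h⁻¹)⁻¹ ∈ q.ker := by
      intro x hx
      rw [MonoidHom.mem_ker, map_mul, map_inv, h2, hx, mul_inv_cancel]
    have hb' : ∀ x : L, q x = y → IsConj x g → IsConj (x * (h * g * h⁻¹)⁻¹ * g) g := by
      intro x hx hxg
      refine (conj_mul_iff (h := h) (hc (hb x hx))).mp ?_
      rw [inv_mul_cancel_right]
      exact hxg
    symm
    apply Nat.card_congr
    exact
      { toFun := fun z => ⟨⟨(z.1 : L) * (h * g * h⁻¹), by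
            change q ((z.1 : L) * (h * g * h⁻¹)) ∈ S
            rw [hf _ z.1.2]
            exact y.2⟩, Subtype.ext (hf _ z.1.2), (conj_mul_iff (hc z.1.2)).mpr z.2⟩
        invFun := fun x => ⟨⟨(x.1 : L) * (h * g * h⁻¹)⁻¹, hb _ (congrArg Subtype.val x.2.1)⟩,
          hb' _ (congrArg Subtype.val x.2.1) x.2.2⟩
        left_inv := fun z => Subtype.ext (Subtype.ext (mul_inv_cancel_right _ _))
        right_inv := fun x => Subtype.ext (Subtype.ext (inv_mul_cancel_right _ _)) }
  · have h1 : conjInd (y : L') (q g) = 0 := by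
      rw [conjInd, if_neg hy]
    rw [h1, mul_zero]
    apply Finset.sum_eq_zero
    intro x hx
    rw [Finset.mem_filter] at hx
    have h3 : q (x : L) = y := congrArg Subtype.val hx.2
    rw [conjInd, if_neg]
    intro h4
    exact hy (h3 ▸ conj_map q h4)

theorem wt_eq (hq : Function.Surjective q) (hc : q.ker ≤ Subgroup.center L) (S : Subgroup L')
    (η : S → ℂ) (g : L) :
    wt (fun x : ↥(S.comap q) => η (rq q S x)) (fun x => conjInd ((S.comap q).subtype x) g) =
      (Nat.card {z : q.ker // IsConj ((z : L) * g) g} : ℂ) *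
        wt η (fun y => conjInd (S.subtype y) (q g)) := by
  classical
  rw [wt, wt, map_one, ← mul_div_assoc, Finset.mul_sum]
  congr 1
  rw [← Finset.sum_fiberwise Finset.univ (rq q S)]
  refine Finset.sum_congr rfl fun y _ => ?_
  rw [← mul_assoc]
  have h1 := sum_fib q hq hc S g y
  have h2 : (Nat.card {z : q.ker // IsConj ((z : L) * g) g} : ℂ) *
      conjInd (S.subtype y) (q g) =
      ∑ x ∈ Finset.univ.filter (fun x : ↥(S.comap q) => rq q S x = y), conjInd (x : L) g :=
    h1.symm
  rw [h2, Finset.sum_mul]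
  refine Finset.sum_congr rfl fun x hx => ?_
  rw [Finset.mem_filter] at hx
  rw [hx.2]
  rfl

end CQI

/-- CQI: the central function of an inflated character. -/
theorem CQI_thm : Stmt_CQI := by
  intro L L' _ _ _ _ 𝔐 q hq hc S η hη
  refine ⟨QINF.irr_inf (CQI.rq q S) (CQI.rq_surj q hq S) hη, fun g => ?_⟩
  have h1 := CQI.wt_eq q hq hc S η g
  refine (congrArg (red 𝔐) h1).trans ?_
  rw [red_natCast_mul 𝔐 _ (isIntegral_wt_conj S.subtype hη (q g)), nsmul_eq_mul]
  rfl

end Pool.Agent.DPF
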