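import Pool.Agent.DPF.Stmts
import Pool.Agent.DPN.Base

/-!
# Module DGI: the defects of characters of a normal subgroup of index prime to `ℓ`
-/

namespace Pool.Agent.DPF.DGI

open Pool.Agent.DP Pool.Agent.DPM Pool.Agent.Lib_helper13 Representation

section

variable {A Y K : Type} [Group A] [Fintype A] [Group Y] [Fintype Y] [Group K]
  {j : A →* Y} {c : Y →* MulAut A} {p : Y →* K}

/-- The degree of a character is a multiple of the degree of a constituent of the restriction. -/
theorem degree_mul (hc : ClG j c p) {η : Y → ℂ} {κ : A → ℂ} (hη : IsIrr η) (hκ : IsIrr κ)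
    (h0 : ip (resj j η) κ ≠ 0) : ∃ m : ℕ, η 1 = m * κ 1 := by
  classical
  have h1 := congrFun (class_fn_expand (resj j η) (resj_class hη)) 1
  have h2 : resj j η 1 = η 1 := by
    rw [resj, map_one]
  rw [h2] at h1
  have h3 : ∀ θ ∈ irrF A, ip (resj j η) θ * θ 1 = ip (resj j η) θ * κ 1 := by
    intro θ hθ
    by_cases h : ip (resj j η) θ = 0
    · rw [h, zero_mul, zero_mul]
    · obtain ⟨y, hy⟩ := (SUMM_thm A Y K j c p hc).2.1 κ θ η hκ (mem_irrF.mp hθ) hη h0 h
      have h4 := hy 1
      rw [map_one] at h4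
      rw [h4]
  rw [Finset.sum_congr rfl h3, ← Finset.sum_mul] at h1
  have h4 : ∀ θ ∈ irrF A, ∃ m : ℕ, ip (resj j η) θ = m := fun θ hθ =>
    (hη.resj j).exists_ip (mem_irrF.mp hθ).isChr
  choose! m hm using h4
  refine ⟨∑ θ ∈ irrF A, m θ, ?_⟩
  rw [h1, Finset.sum_congr rfl hm, Nat.cast_sum]

end

theorem clG_normal {G : Type} [Group G] (N : Subgroup G) [N.Normal] :
    ClG N.subtype (MulAut.conjNormal : G →* MulAut N) (QuotientGroup.mk' N) where
  inj := N.subtype_injective
  act := fun y a => MulAut.conjNormal_apply y a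
  ker := fun y => by
    rw [Subgroup.range_subtype, QuotientGroup.mk'_apply, QuotientGroup.eq_one_iff]

end Pool.Agent.DPF.DGI

namespace Pool.Agent.DPF

open Pool.Agent.DP Pool.Agent.DPM Pool.Agent.Lib_helper13 Representation

theorem DGI_thm : Stmt_DGI := by
  intro G _ _ ℓ _ N _ hN η κ hη hκ h0
  have hc := DGI.clG_normal N
  have hidx : N.index ≠ 0 := Subgroup.index_ne_zero_of_finite
  have hcard : padicValNat ℓ (Nat.card G) = padicValNat ℓ (Nat.card N) := by
    rw [← Subgroup.card_mul_index N, padicValNat.mul Nat.card_pos.ne' hidx,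
      padicValNat.eq_zero_of_not_dvd hN, add_zero]
  have key : ∀ d a : ℕ, HasDefect ℓ η d → HasDefect ℓ κ a → d = a := by
    intro d a hd ha
    have h1 : a ≤ d := all_DEFA N G (G ⧸ N) ℓ N.subtype _ _ hc η κ hη hκ h0 d a hd ha
    obtain ⟨m, hm⟩ := DGI.degree_mul hc hη hκ h0
    obtain ⟨n, hn, hn'⟩ := hd
    obtain ⟨k, hk, hk'⟩ := ha
    have hn0 : n ≠ 0 := by
      rintro rfl
      exact hη.one_ne_zero (by rw [hn]; simp)
    have h2 : n = m * k := by
      have : (n : ℂ) = m * k := by rw [← hn, hm, hk]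
      exact_mod_cast this
    have hm0 : m ≠ 0 := by
      rintro rfl
      exact hn0 (by rw [h2, zero_mul])
    have hk0 : k ≠ 0 := by
      rintro rfl
      exact hn0 (by rw [h2, mul_zero])
    have h3 : padicValNat ℓ n = padicValNat ℓ m + padicValNat ℓ k := by
      rw [h2, padicValNat.mul hm0 hk0]
    omega
  obtain ⟨d, hd⟩ := hη.exists_defect (ℓ := ℓ)
  obtain ⟨a, ha⟩ := hκ.exists_defect (ℓ := ℓ)
  have hda := key d a hd ha
  intro e
  constructor
  · intro h
    have : e = a := key e a h ha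
    rw [this]
    exact ha
  · intro h
    have : d = e := key d e hd h
    rw [← this]
    exact hd

end Pool.Agent.DPF
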