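import Mathlib
import Pool.Agent.DP.TWR
import Pool.Agent.DPF.Stmts

/-!
# EDC: the idempotent of the characters of a given defect vanishes outside the commutator subgroup
-/

namespace Pool.Agent.DPF

open Pool.Agent.DP Pool.Agent.DPC Pool.Agent.DPM Pool.Agent.DPN Pool.Agent.Lib_helper13
  Representation

namespace EDC

/-- A linear character which separates an element from the commutator subgroup. -/
theorem exists_lin {W : Type} [Group W] [Fintype W] (S : Subgroup W) (s : S)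
    (hs : (s : W) ∉ ⁅S, S⁆) : ∃ c : S →* ℂˣ, c s ≠ 1 := by
  have h1 : s ∉ commutator S := by
    intro h
    apply hs
    have h2 : (commutator S).map S.subtype = ⁅S, S⁆ := by
      rw [commutator_def, Subgroup.map_commutator, ← MonoidHom.range_eq_map, Subgroup.range_subtype]
    rw [← h2]
    exact ⟨s, h, rfl⟩
  have h3 : Abelianization.of s ≠ 1 := by
    intro h
    exact h1 ((QuotientGroup.eq_one_iff s).1 h)
  obtain ⟨χ, hχ⟩ := exists_linChar_ne_one h3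
  exact ⟨χ.comp Abelianization.of, hχ⟩

theorem hasDefect_tw {Y : Type*} [Group Y] {ℓ e : ℕ} {κ : Y → ℂ} (c : Y →* ℂˣ)
    (h : HasDefect ℓ κ e) : HasDefect ℓ (fun y => κ y * ((c y : ℂˣ) : ℂ)) e := by
  obtain ⟨n, h1, h2⟩ := h
  refine ⟨n, ?_, h2⟩
  change κ 1 * ((c 1 : ℂˣ) : ℂ) = n
  rw [map_one, Units.val_one, mul_one, h1]

theorem tw_tw {Y : Type*} [Group Y] (κ : Y → ℂ) (c : Y →* ℂˣ) :
    (fun y => (fun y => κ y * ((c y : ℂˣ) : ℂ)) y * (((c⁻¹ : Y →* ℂˣ) y : ℂˣ) : ℂ)) = κ := by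
  funext y
  have h3 : ((c y : ℂˣ) : ℂ) * (((c y)⁻¹ : ℂˣ) : ℂ) = 1 := (c y).mul_inv
  change κ y * ((c y : ℂˣ) : ℂ) * (((c y)⁻¹ : ℂˣ) : ℂ) = κ y
  rw [mul_assoc, h3, mul_one]

end EDC

open EDC in
theorem EDC_thm : Stmt_EDC := by
  classical
  intro W _ _ ℓ S e r hr
  by_contra hc
  apply hr
  by_cases hS : r ∈ S
  · obtain ⟨c, hcs⟩ := exists_lin S ⟨r, hS⟩ hc
    have hr' : r⁻¹ ∈ S := S.inv_mem hS
    have key : (∑ κ ∈ irrF S with HasDefect ℓ κ e, κ 1 * ext0 κ r⁻¹) =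
        ((c ⟨r⁻¹, hr'⟩ : ℂˣ) : ℂ) * ∑ κ ∈ irrF S with HasDefect ℓ κ e, κ 1 * ext0 κ r⁻¹ := by
      rw [Finset.mul_sum]
      symm
      refine Finset.sum_nbij' (fun κ => fun y => κ y * ((c y : ℂˣ) : ℂ))
        (fun κ => fun y => κ y * (((c⁻¹ : S →* ℂˣ) y : ℂˣ) : ℂ)) ?_ ?_ ?_ ?_ ?_
      · intro κ hκ
        rw [Finset.mem_filter, mem_irrF] at hκ ⊢
        exact ⟨TWR.isIrr_tw hκ.1 c, hasDefect_tw c hκ.2⟩
      · intro κ hκ
        rw [Finset.mem_filter, mem_irrF] at hκ ⊢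
        exact ⟨TWR.isIrr_tw hκ.1 c⁻¹, hasDefect_tw c⁻¹ hκ.2⟩
      · intro κ _
        exact tw_tw κ c
      · intro κ _
        have h5 : (c⁻¹ : S →* ℂˣ)⁻¹ = c := inv_inv c
        have := tw_tw κ c⁻¹
        rw [h5] at this
        exact this
      · intro κ _
        rw [ext0_of_mem _ hr', ext0_of_mem _ hr']
        change _ = κ 1 * ((c 1 : ℂˣ) : ℂ) * (κ ⟨r⁻¹, hr'⟩ * ((c ⟨r⁻¹, hr'⟩ : ℂˣ) : ℂ))
        rw [map_one, Units.val_one]
        ring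
    have hne : ((c ⟨r⁻¹, hr'⟩ : ℂˣ) : ℂ) ≠ 1 := by
      intro h
      apply hcs
      have h1 : c ⟨r⁻¹, hr'⟩ = 1 := Units.ext h
      have h2 : (⟨r⁻¹, hr'⟩ : S) = (⟨r, hS⟩ : S)⁻¹ := rfl
      rw [h2, map_inv, inv_eq_one] at h1
      exact h1
    have h0 : (∑ κ ∈ irrF S with HasDefect ℓ κ e, κ 1 * ext0 κ r⁻¹) = 0 := by
      by_contra h
      apply hne
      have := key
      nth_rewrite 1 [← one_mul (∑ κ ∈ irrF S with HasDefect ℓ κ e, κ 1 * ext0 κ r⁻¹)] at this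
      exact (mul_right_cancel₀ h this).symm
    unfold ed
    rw [h0, zero_div]
  · unfold ed
    rw [Finset.sum_eq_zero, zero_div]
    intro κ _
    rw [ext0_of_not_mem _ (fun h => hS (inv_inv r ▸ S.inv_mem h)), mul_zero]

end Pool.Agent.DPF
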