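import Pool.Agent.DPF.Stmts
import Pool.Agent.DPN.FRO

/-!
# EDL: the idempotent of the characters of a given defect over a linear character
-/

namespace Pool.Agent.DPF

open Pool.Agent.DP Pool.Agent.DPC Pool.Agent.DPM Pool.Agent.DPN Pool.Agent.Lib_helper13
  Representation

namespace EDL

variable {W : Type} [Group W] [Fintype W]

/-- The class function of `S` supported on `A` with the values of the inverse of `ν`. -/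
noncomputable def fA {S A : Subgroup W} (ν : A →* ℂˣ) (s : S) : ℂ :=
  open Classical in if h : (s : W) ∈ A then (((ν ⟨s, h⟩)⁻¹ : ℂˣ) : ℂ) else 0

omit [Fintype W] in
theorem fA_mem {S A : Subgroup W} (ν : A →* ℂˣ) (s : S) (h : (s : W) ∈ A) :
    fA ν s = (((ν ⟨s, h⟩)⁻¹ : ℂˣ) : ℂ) := by simp [fA, h]

omit [Fintype W] in
theorem fA_not {S A : Subgroup W} (ν : A →* ℂˣ) (s : S) (h : (s : W) ∉ A) :
    fA ν s = 0 := by simp [fA, h]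

omit [Fintype W] in
theorem fA_conj {S A : Subgroup W} (hn : ∀ s ∈ S, ∀ a ∈ A, s * a * s⁻¹ ∈ A) (ν : A →* ℂˣ)
    (hν : ∀ s ∈ S, ∀ a a' : A, (a' : W) = s * a * s⁻¹ → ν a' = ν a) (g x : S) :
    fA ν (g * x * g⁻¹) = fA ν x := by
  by_cases h : (x : W) ∈ A
  · have h' : ((g * x * g⁻¹ : S) : W) ∈ A := hn g g.2 x h
    rw [fA_mem ν _ h, fA_mem ν _ h', hν g g.2 ⟨x, h⟩ ⟨_, h'⟩ rfl]
  · have h' : ((g * x * g⁻¹ : S) : W) ∉ A := by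
      intro h'
      apply h
      have h2 := hn (g : W)⁻¹ (S.inv_mem g.2) _ h'
      have h3 : (g : W)⁻¹ * ((g * x * g⁻¹ : S) : W) * ((g : W)⁻¹)⁻¹ = x := by
        change (g : W)⁻¹ * ((g : W) * (x : W) * (g : W)⁻¹) * ((g : W)⁻¹)⁻¹ = x
        group
      rwa [h3] at h2
    rw [fA_not ν _ h, fA_not ν _ h']

theorem sum_fA {S A : Subgroup W} [Fintype A] (hA : A ≤ S) (ν : A →* ℂˣ) (u : S → ℂ) :
    ∑ a : A, (((ν a)⁻¹ : ℂˣ) : ℂ) * u ⟨a, hA a.2⟩ = ∑ s : S, fA ν s * u s := by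
  refine Finset.sum_of_injOn (fun a : A => (⟨a, hA a.2⟩ : S)) ?_ ?_ ?_ ?_
  · intro a _ b _ hab
    exact Subtype.ext (congrArg (fun s : S => (s : W)) hab)
  · intro a _
    exact Finset.mem_coe.mpr (Finset.mem_univ _)
  · intro s _ hs
    have h : (s : W) ∉ A := by
      intro h
      exact hs ⟨⟨s, h⟩, Finset.mem_coe.mpr (Finset.mem_univ _), rfl⟩
    rw [fA_not ν s h, zero_mul]
  · intro a _
    rw [fA_mem ν (⟨a, hA a.2⟩ : S) a.2]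

theorem key_eq {S A : Subgroup W} [Fintype A] (hA : A ≤ S)
    (hn : ∀ s ∈ S, ∀ a ∈ A, s * a * s⁻¹ ∈ A) (ν : A →* ℂˣ)
    (hν : ∀ s ∈ S, ∀ a a' : A, (a' : W) = s * a * s⁻¹ → ν a' = ν a) {κ : S → ℂ}
    (hκ : IsIrr κ) (y : S) :
    ∑ a : A, (((ν a)⁻¹ : ℂˣ) : ℂ) * κ (⟨a, hA a.2⟩ * y) = wt κ (fA ν) * κ y := by
  rw [sum_fA hA ν (fun s => κ (s * y))]
  exact FRO.scal hκ (fA_conj hn ν hν) y

omit [Fintype W] in
theorem key_pos {S A : Subgroup W} [Fintype A] (hA : A ≤ S) (ν : A →* ℂˣ) {κ : S → ℂ}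
    (ho : OvL A ν S κ) (y : S) :
    ∑ a : A, (((ν a)⁻¹ : ℂˣ) : ℂ) * κ (⟨a, hA a.2⟩ * y) = (Nat.card A : ℂ) * κ y := by
  have h1 : ∀ a : A, (((ν a)⁻¹ : ℂˣ) : ℂ) * κ (⟨a, hA a.2⟩ * y) = κ y := by
    intro a
    rw [ho ⟨a, hA a.2⟩ y a.2, ← mul_assoc]
    have h2 : (((ν a)⁻¹ : ℂˣ) : ℂ) * ((ν a : ℂˣ) : ℂ) = 1 := Units.inv_mul _
    have h3 : ν ⟨((⟨a, hA a.2⟩ : S) : W), a.2⟩ = ν a := rfl
    rw [h3, h2, one_mul]
  rw [Finset.sum_congr rfl fun a _ => h1 a, Finset.sum_const, nsmul_eq_mul, Finset.card_univ,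
    Nat.card_eq_fintype_card]

theorem key_neg {S A : Subgroup W} [Fintype A] (hA : A ≤ S)
    (hn : ∀ s ∈ S, ∀ a ∈ A, s * a * s⁻¹ ∈ A) (ν : A →* ℂˣ)
    (hν : ∀ s ∈ S, ∀ a a' : A, (a' : W) = s * a * s⁻¹ → ν a' = ν a) {κ : S → ℂ}
    (hκ : IsIrr κ) (ho : ¬ OvL A ν S κ) : wt κ (fA ν) = 0 := by
  by_contra hc
  apply ho
  intro s t h
  have h1 := key_eq hA hn ν hν hκ (s * t)
  have h2 : ∑ a : A, (((ν a)⁻¹ : ℂˣ) : ℂ) * κ (⟨a, hA a.2⟩ * (s * t)) =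
      ((ν ⟨s, h⟩ : ℂˣ) : ℂ) *
        ∑ a : A, (((ν a)⁻¹ : ℂˣ) : ℂ) * κ (⟨a, hA a.2⟩ * t) := by
    rw [Finset.mul_sum]
    refine Fintype.sum_equiv (Equiv.mulRight (⟨s, h⟩ : A)) _ _ fun a => ?_
    have h3 : (⟨((Equiv.mulRight (⟨s, h⟩ : A)) a : A), hA ((Equiv.mulRight (⟨s, h⟩ : A)) a).2⟩
        : S) * t = ⟨a, hA a.2⟩ * (s * t) := by
      apply Subtype.ext
      change (a : W) * (s : W) * (t : W) = (a : W) * ((s : W) * (t : W))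
      rw [mul_assoc]
    have h4 : ν ((Equiv.mulRight (⟨s, h⟩ : A)) a) = ν a * ν ⟨s, h⟩ := by
      rw [Equiv.coe_mulRight, map_mul]
    have h6 : ((ν ⟨s, h⟩ : ℂˣ) : ℂ) * (((ν a * ν ⟨s, h⟩)⁻¹ : ℂˣ) : ℂ) =
        (((ν a)⁻¹ : ℂˣ) : ℂ) := by
      rw [← Units.val_mul]
      congr 1
      rw [mul_inv, mul_comm (ν a)⁻¹, ← mul_assoc, mul_inv_cancel, one_mul]
    rw [h3, h4, ← h6, mul_assoc]
  rw [h2, key_eq hA hn ν hν hκ t] at h1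
  have h5 : wt κ (fA ν) * κ (s * t) = wt κ (fA ν) * (((ν ⟨s, h⟩ : ℂˣ) : ℂ) * κ t) := by
    rw [← h1]
    ring
  exact mul_left_cancel₀ hc h5

open Classical in
theorem key {S A : Subgroup W} [Fintype A] (hA : A ≤ S)
    (hn : ∀ s ∈ S, ∀ a ∈ A, s * a * s⁻¹ ∈ A) (ν : A →* ℂˣ)
    (hν : ∀ s ∈ S, ∀ a a' : A, (a' : W) = s * a * s⁻¹ → ν a' = ν a) {κ : S → ℂ}
    (hκ : IsIrr κ) (r : W) :
    ∑ a : A, (((ν a)⁻¹ : ℂˣ) : ℂ) * ext0 κ ((a : W)⁻¹ * r)⁻¹ =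
      if OvL A ν S κ then (Nat.card A : ℂ) * ext0 κ r⁻¹ else 0 := by
  by_cases hr : r⁻¹ ∈ S
  · have h1 : ∀ a : A, ext0 κ ((a : W)⁻¹ * r)⁻¹ = κ (⟨a, hA a.2⟩ * ⟨r⁻¹, hr⟩) := by
      intro a
      have h2 : ((a : W)⁻¹ * r)⁻¹ = r⁻¹ * a := by group
      have h3 : r⁻¹ * (a : W) ∈ S := S.mul_mem hr (hA a.2)
      rw [h2, ext0_of_mem κ h3]
      have h4 := hκ.conj_eq (⟨r⁻¹, hr⟩ : S) (⟨a, hA a.2⟩ * ⟨r⁻¹, hr⟩)
      rw [← h4]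
      congr 1
      apply Subtype.ext
      change r⁻¹ * (a : W) = r⁻¹ * ((a : W) * r⁻¹) * (r⁻¹)⁻¹
      group
    simp only [h1]
    rw [ext0_of_mem κ hr]
    split_ifs with ho
    · exact key_pos hA ν ho _
    · rw [key_eq hA hn ν hν hκ, key_neg hA hn ν hν hκ ho, zero_mul]
  · have h1 : ∀ a : A, ext0 κ ((a : W)⁻¹ * r)⁻¹ = 0 := by
      intro a
      refine ext0_of_not_mem κ ?_
      intro h
      apply hr
      have h2 : ((a : W)⁻¹ * r)⁻¹ * (a : W)⁻¹ = r⁻¹ := by group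
      rw [← h2]
      exact S.mul_mem h (S.inv_mem (hA a.2))
    simp only [h1]
    rw [ext0_of_not_mem κ hr]
    simp

end EDL

open EDL in
theorem EDL_thm : Stmt_EDL := by
  intro W _ _ ℓ S A hA hn ν hν e r
  classical
  unfold ed
  have h1 : ∀ a : A, (((ν a)⁻¹ : ℂˣ) : ℂ) *
      ((∑ κ ∈ irrF S with HasDefect ℓ κ e, κ 1 * ext0 κ ((a : W)⁻¹ * r)⁻¹) / Nat.card S) =
      (∑ κ ∈ irrF S with HasDefect ℓ κ e,
        κ 1 * ((((ν a)⁻¹ : ℂˣ) : ℂ) * ext0 κ ((a : W)⁻¹ * r)⁻¹)) / Nat.card S := by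
    intro a
    rw [← mul_div_assoc, Finset.mul_sum]
    congr 1
    exact Finset.sum_congr rfl fun κ _ => by ring
  rw [Finset.sum_congr rfl fun a _ => h1 a, ← Finset.sum_div, Finset.sum_comm,
    ← mul_div_assoc]
  congr 1
  simp only [← Finset.mul_sum]
  rw [Finset.mul_sum]
  have h2 : ∑ κ ∈ irrF S with HasDefect ℓ κ e,
      κ 1 * ∑ a : A, (((ν a)⁻¹ : ℂˣ) : ℂ) * ext0 κ ((a : W)⁻¹ * r)⁻¹ =
      ∑ κ ∈ irrF S with HasDefect ℓ κ e,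
        if OvL A ν S κ then (Nat.card A : ℂ) * (κ 1 * ext0 κ r⁻¹) else 0 := by
    refine Finset.sum_congr rfl fun κ hκ => ?_
    rw [Finset.mem_filter] at hκ
    rw [key hA hn ν hν (mem_irrF.mp hκ.1) r]
    split_ifs with ho
    · ring
    · rw [mul_zero]
  rw [h2, ← Finset.sum_filter, Finset.filter_filter]
  refine Finset.sum_congr ?_ fun κ _ => rfl
  ext κ
  simp only [Finset.mem_filter]
  tauto

end Pool.Agent.DPF
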