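import Pool.Agent.DPF.Stmts
import Pool.Agent.DPN.MINX
import Pool.Agent.DPC.EXTAR

/-!
# Module EDT: the idempotent of the characters of degree prime to `ℓ` of a central extension of an
`ℓ`-group
-/

set_option autoImplicit false

namespace Pool.Agent.DPF

open Pool.Agent.DP Pool.Agent.DPC Pool.Agent.DPM Pool.Agent.DPN Pool.Agent.Lib_helper13
  Representation

namespace EDT

theorem normal_of_central {L : Type} [Group L] (Z : Subgroup L) (hZ : Z ≤ Subgroup.center L) :
    Z.Normal := by
  constructor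
  intro n hn g
  rw [Subgroup.mem_center_iff.mp (hZ hn) g, mul_inv_cancel_right]
  exact hn

/-- The degree of an irreducible character divides the index of a central subgroup. -/
theorem degree_dvd_index {L : Type} [Group L] [Fintype L] {ℓ : ℕ} [Fact ℓ.Prime] (Z : Subgroup L)
    (hZ : Z ≤ Subgroup.center L) {χ : L → ℂ} (hχ : IsIrr χ) :
    ∃ n : ℕ, 0 < n ∧ χ 1 = n ∧ n ∣ Z.index := by
  classical
  have hn : Z.Normal := normal_of_central Z hZ
  let _ : Fintype (L ⧸ Z) := Fintype.ofFinite _
  let _ : Fintype (ConjClasses (L ⧸ Z)) := Fintype.ofFinite _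
  obtain ⟨lam, hlam⟩ := BTC.exists_cc hZ hχ
  have hr : ∀ C : ConjClasses (L ⧸ Z), ∃ x : L, ConjClasses.mk ((x : L) : L ⧸ Z) = C := by
    intro C
    obtain ⟨y, rfl⟩ := ConjClasses.mk_surjective C
    obtain ⟨x, rfl⟩ := QuotientGroup.mk_surjective y
    exact ⟨x, rfl⟩
  choose r hr using hr
  obtain ⟨n, M, hn, hn', hM, -, -, -⟩ := MINX.exists_codegZ (ℓ := ℓ) Z hZ hχ hlam r hr
  exact ⟨n, hn, hn', M, by rw [← hM]; rfl⟩

/-- The characters of maximal defect are the linear characters. -/
theorem defect_iff {L : Type} [Group L] [Fintype L] {ℓ : ℕ} [hℓ : Fact ℓ.Prime] (Z : Subgroup L)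
    (hZ : Z ≤ Subgroup.center L) (hp : ∀ x : L, ∃ k : ℕ, x ^ ℓ ^ k ∈ Z) {χ : L → ℂ}
    (hχ : IsIrr χ) : HasDefect ℓ χ (padicValNat ℓ (Nat.card L)) ↔ χ 1 = 1 := by
  constructor
  · rintro ⟨n, hn, hv⟩
    obtain ⟨m, hm, hm', hd⟩ := degree_dvd_index (ℓ := ℓ) Z hZ hχ
    have hnm : n = m := by
      have h : (n : ℂ) = m := hn.symm.trans hm'
      exact_mod_cast h
    subst hnm
    have hN : Z.Normal := normal_of_central Z hZ
    have hP : IsPGroup ℓ (L ⧸ Z) := by
      intro y
      obtain ⟨x, rfl⟩ := QuotientGroup.mk_surjective y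
      obtain ⟨k, hk⟩ := hp x
      refine ⟨k, ?_⟩
      rw [← QuotientGroup.mk_pow]
      exact (QuotientGroup.eq_one_iff _).mpr hk
    obtain ⟨k, hk⟩ := IsPGroup.iff_card.mp hP
    have hk' : Z.index = ℓ ^ k := hk
    rw [hk'] at hd
    obtain ⟨j, -, hj⟩ := (Nat.dvd_prime_pow hℓ.out).mp hd
    have h0 : padicValNat ℓ n = 0 := by omega
    rw [hj, padicValNat.prime_pow] at h0
    rw [hn, hj, h0, pow_zero, Nat.cast_one]
  · intro h
    refine ⟨1, by rw [h, Nat.cast_one], ?_⟩
    rw [padicValNat_one_right, add_zero]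

/-- The number of linear characters. -/
theorem card_lin (L : Type) [Group L] [Finite L] :
    Nat.card (L →* ℂˣ) * Nat.card (commutator L) = Nat.card L := by
  have h1 : Nat.card (L →* ℂˣ) = Nat.card (Abelianization L) := by
    rw [← CommGroup.card_monoidHom_of_hasEnoughRootsOfUnity (Abelianization L) ℂ]
    exact Nat.card_congr Abelianization.lift
  rw [h1]
  exact (Subgroup.card_eq_card_quotient_mul_card_subgroup (commutator L)).symm

open Classical in
theorem card_lin_irr (L : Type) [Group L] [Fintype L] :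
    (((irrF L).filter fun κ => κ 1 = 1).card : ℂ) * Nat.card (commutator L) = Nat.card L := by
  have h : ((irrF L).filter fun κ => κ 1 = 1).card = Nat.card (L →* ℂˣ) := by
    let f : (L →* ℂˣ) → (L → ℂ) := fun lam k => ((lam k : ℂˣ) : ℂ)
    have hf : Function.Injective f := by
      intro a b hab
      apply MonoidHom.ext
      intro k
      apply Units.ext
      exact congrFun hab k
    have h2 : (((irrF L).filter fun κ => κ 1 = 1 : Finset (L → ℂ)) : Set (L → ℂ)) =
        Set.range f := by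
      ext κ
      rw [Finset.mem_coe, Finset.mem_filter, mem_irrF, Set.mem_range]
      constructor
      · rintro ⟨hκ, h1⟩
        obtain ⟨lam, hlam⟩ := EXTAR.exists_lin hκ h1
        exact ⟨lam, funext hlam⟩
      · rintro ⟨lam, rfl⟩
        refine ⟨EXTAR.isIrr_lin lam, ?_⟩
        change ((lam 1 : ℂˣ) : ℂ) = 1
        rw [map_one, Units.val_one]
    rw [← Set.ncard_coe_finset, h2]
    exact Nat.card_range_of_injective hf
  rw [h]
  exact_mod_cast card_lin L

end EDT

open Classical in
theorem EDT_thm (h1 : Stmt_EDC) : Stmt_EDT := by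
  intro W _ _ ℓ _ S A hA hc hp r
  by_cases hr : r ∈ ⁅S, S⁆
  · rw [if_pos hr]
    have hrS : r ∈ S := Subgroup.commutator_le_self S hr
    have hrS' : r⁻¹ ∈ S := S.inv_mem hrS
    have hZ : A.subgroupOf S ≤ Subgroup.center S := by
      intro a ha
      rw [Subgroup.mem_center_iff]
      intro s
      exact Subtype.ext (hc a ha s s.2).symm
    have hp' : ∀ x : S, ∃ k : ℕ, x ^ ℓ ^ k ∈ A.subgroupOf S := by
      intro x
      obtain ⟨k, hk⟩ := hp x x.2
      exact ⟨k, hk⟩
    have hmem : (⟨r⁻¹, hrS'⟩ : S) ∈ commutator S := by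
      have h2 : r⁻¹ ∈ (commutator S).map S.subtype := by
        rw [Subgroup.map_subtype_commutator]
        exact Subgroup.inv_mem _ hr
      obtain ⟨y, hy, hy'⟩ := h2
      have h3 : (⟨r⁻¹, hrS'⟩ : S) = y := Subtype.ext hy'.symm
      rw [h3]
      exact hy
    have hcard : Nat.card ↥⁅S, S⁆ = Nat.card (commutator S) := by
      rw [← Subgroup.map_subtype_commutator S]
      exact (Nat.card_congr ((commutator S).equivMapOfInjective S.subtype
        S.subtype_injective).toEquiv).symm
    have hsum : ∑ κ ∈ irrF S with HasDefect ℓ κ (padicValNat ℓ (Nat.card S)),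
        κ 1 * ext0 κ r⁻¹ = ((irrF S).filter fun κ => κ 1 = 1).card := by
      rw [Finset.sum_congr (Finset.filter_congr (fun κ hκ =>
        EDT.defect_iff (A.subgroupOf S) hZ hp' (mem_irrF.mp hκ)))
        (g := fun _ => (1 : ℂ)), Finset.sum_const, nsmul_eq_mul, mul_one]
      intro κ hκ
      rw [Finset.mem_filter, mem_irrF] at hκ
      obtain ⟨lam, hlam⟩ := EXTAR.exists_lin hκ.1 hκ.2
      rw [hκ.2, one_mul, ext0_of_mem _ hrS', ← hlam,
        MonoidHom.mem_ker.mp (Abelianization.commutator_subset_ker lam hmem), Units.val_one]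
    have hc1 := EDT.card_lin_irr S
    have hS0 : (Nat.card S : ℂ) ≠ 0 := natCard_ne_zero
    have hC0 : (Nat.card (commutator S) : ℂ) ≠ 0 := by
      have h2 : Nat.card (commutator S) ≠ 0 := Nat.card_pos.ne'
      exact_mod_cast h2
    rw [ed, hsum, hcard, div_eq_div_iff hS0 hC0, one_mul]
    exact hc1
  · rw [if_neg hr]
    by_contra h
    exact hr (h1 W ℓ S _ r h)

end Pool.Agent.DPF
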