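import Pool.Agent.DPF.Stmts
import Pool.Agent.DPN.Base
import Pool.Agent.DPN.ABF
import Pool.Agent.DPN.FRO

/-!
# EDV: the characters of a given defect of the inverse image of a subgroup
-/

set_option linter.unusedSectionVars false

namespace Pool.Agent.DPF

open Pool.Agent.DP Pool.Agent.DPC Pool.Agent.DPM Pool.Agent.DPN Pool.Agent.Lib_helper13
  Representation
open Pool.Agent.Lib_helper13.Dade (pCore DadeHolds dadeSum)

namespace EDV

variable {W : Type} [Group W] [Fintype W]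

open Classical in
/-- The function on `S` which belongs to the linear character `ν` of `U`. -/
noncomputable def lf (U : Subgroup W) (ν : U →* ℂˣ) (S : Subgroup W) (s : S) : ℂ :=
  if h : (s : W) ∈ U then (((ν ⟨s, h⟩)⁻¹ : ℂˣ) : ℂ) else 0

theorem lf_mem {U : Subgroup W} (ν : U →* ℂˣ) {S : Subgroup W} {s : S} (h : (s : W) ∈ U) :
    lf U ν S s = (((ν ⟨s, h⟩)⁻¹ : ℂˣ) : ℂ) := by
  unfold lf
  rw [dif_pos h]

theorem lf_not {U : Subgroup W} (ν : U →* ℂˣ) {S : Subgroup W} {s : S} (h : (s : W) ∉ U) :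
    lf U ν S s = 0 := by
  unfold lf
  rw [dif_neg h]

theorem lf_conj {U : Subgroup W} (hU : ∀ w z : W, z ∈ U → w * z * w⁻¹ ∈ U) (ν : U →* ℂˣ)
    (hν : ∀ (w : W) (z z' : U), (z' : W) = w * z * w⁻¹ → ν z' = ν z) (S : Subgroup W)
    (g s : S) : lf U ν S (g * s * g⁻¹) = lf U ν S s := by
  by_cases h : (s : W) ∈ U
  · have h' : ((g * s * g⁻¹ : S) : W) ∈ U := hU g s h
    rw [lf_mem ν h, lf_mem ν h', hν (g : W) ⟨s, h⟩ ⟨((g * s * g⁻¹ : S) : W), h'⟩ rfl]
  · have h' : ((g * s * g⁻¹ : S) : W) ∉ U := by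
      intro h'
      apply h
      have h3 := hU ((g : W)⁻¹) _ h'
      have h4 : (g : W)⁻¹ * ((g * s * g⁻¹ : S) : W) * (g : W)⁻¹⁻¹ = s := by
        push_cast
        group
      rwa [h4] at h3
    rw [lf_not ν h, lf_not ν h']

theorem lf_shift {U : Subgroup W} (ν : U →* ℂˣ) {S : Subgroup W} {s : S} (h : (s : W) ∈ U)
    (r : S) : lf U ν S (r * s⁻¹) = ((ν ⟨s, h⟩ : ℂˣ) : ℂ) * lf U ν S r := by
  by_cases hr : (r : W) ∈ U
  · have h' : ((r * s⁻¹ : S) : W) ∈ U := U.mul_mem hr (U.inv_mem h)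
    rw [lf_mem ν hr, lf_mem ν h', ← Units.val_mul]
    congr 1
    have h1 : (⟨((r * s⁻¹ : S) : W), h'⟩ : U) = ⟨r, hr⟩ * (⟨s, h⟩)⁻¹ := rfl
    rw [h1, map_mul, map_inv, mul_inv_rev, inv_inv]
  · have h' : ((r * s⁻¹ : S) : W) ∉ U := by
      intro h'
      apply hr
      have h3 := U.mul_mem h' h
      have h4 : ((r * s⁻¹ : S) : W) * (s : W) = r := by
        push_cast
        group
      rwa [h4] at h3
    rw [lf_not ν hr, lf_not ν h', mul_zero]

open Classical in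
theorem card_fil {U S : Subgroup W} (hUS : U ≤ S) :
    (Finset.univ.filter fun s : S => (s : W) ∈ U).card = Nat.card U := by
  have h1 : Nat.card (U.subgroupOf S) = Nat.card U :=
    Nat.card_congr (Subgroup.subgroupOfEquivOfLe hUS).toEquiv
  rw [← h1, Nat.card_eq_fintype_card, Fintype.card_subtype]
  congr 1

open Classical in
theorem ovl_iff_wt {U S : Subgroup W} (hUS : U ≤ S)
    (hU : ∀ w z : W, z ∈ U → w * z * w⁻¹ ∈ U) (ν : U →* ℂˣ)
    (hν : ∀ (w : W) (z z' : U), (z' : W) = w * z * w⁻¹ → ν z' = ν z) {χ : S → ℂ}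
    (hχ : IsIrr χ) : OvL U ν S χ ↔ wt χ (lf U ν S) = (Nat.card U : ℂ) := by
  have h0 : (Nat.card U : ℂ) ≠ 0 := natCard_ne_zero
  constructor
  · intro h
    have h1 : ∀ s : S, lf U ν S s * χ s = if (s : W) ∈ U then χ 1 else 0 := by
      intro s
      by_cases hs : (s : W) ∈ U
      · rw [if_pos hs, lf_mem ν hs]
        have h2 := h s 1 hs
        rw [mul_one] at h2
        rw [h2, ← mul_assoc, ← Units.val_mul, inv_mul_cancel, Units.val_one, one_mul]
      · rw [if_neg hs, lf_not ν hs, zero_mul]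
    rw [wt, Finset.sum_congr rfl fun s _ => h1 s, ← Finset.sum_filter, Finset.sum_const,
      card_fil hUS, nsmul_eq_mul, mul_div_assoc, div_self hχ.one_ne_zero, mul_one]
  · intro h s t hs
    have h1 := FRO.scal hχ (lf_conj hU ν hν S)
    rw [h] at h1
    have h2 : (Nat.card U : ℂ) * χ (s * t) =
        (Nat.card U : ℂ) * (((ν ⟨s, hs⟩ : ℂˣ) : ℂ) * χ t) := by
      rw [← h1 (s * t)]
      have h3 : ∑ r : S, lf U ν S r * χ (r * (s * t)) =
          ∑ r : S, lf U ν S (r * s⁻¹) * χ (r * t) := by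
        refine Fintype.sum_equiv (Equiv.mulRight s) _ _ fun r => ?_
        change _ = lf U ν S (r * s * s⁻¹) * χ (r * s * t)
        rw [mul_inv_cancel_right, mul_assoc]
      rw [h3, mul_left_comm, ← h1 t, Finset.mul_sum]
      refine Finset.sum_congr rfl fun r _ => ?_
      rw [lf_shift ν hs, mul_assoc]
    exact mul_left_cancel₀ h0 h2

theorem ovl_iff' {U G S : Subgroup W} (hUS : U ≤ S) (hSG : S ≤ G) [(S.subgroupOf G).Normal]
    (hU : ∀ w z : W, z ∈ U → w * z * w⁻¹ ∈ U) (ν : U →* ℂˣ)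
    (hν : ∀ (w : W) (z z' : U), (z' : W) = w * z * w⁻¹ → ν z' = ν z) {η : G → ℂ}
    (hη : IsIrr η) {κ : S.subgroupOf G → ℂ} (hκ : IsIrr κ)
    (hip : ip (resj (S.subgroupOf G).subtype η) κ ≠ 0) :
    OvL U ν S (fun s => κ ((ABF.eS hSG).symm s)) ↔ OvL U ν G η := by
  have hκ' : IsIrr (fun s => κ ((ABF.eS hSG).symm s)) := hκ.comp_mulEquiv (ABF.eS hSG).symm
  rw [ovl_iff_wt hUS hU ν hν hκ', ovl_iff_wt (hUS.trans hSG) hU ν hν hη]
  have h1 := (SUMM_thm _ _ _ (S.subgroupOf G).subtype MulAut.conjNormal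
    (QuotientGroup.mk' (S.subgroupOf G)) (FRO.clG (S.subgroupOf G))).2.2.2 κ η (lf U ν G) hκ hη
    hip (lf_conj hU ν hν G) (by
      intro y hy
      apply lf_not
      intro h
      apply hy
      rw [Subgroup.range_subtype, Subgroup.mem_subgroupOf]
      exact hUS h)
  have h2 : wt κ (fun a => lf U ν G ((S.subgroupOf G).subtype a)) =
      wt (fun s => κ ((ABF.eS hSG).symm s)) (lf U ν S) := by
    rw [← wt_comp_equiv (ABF.eS hSG) (fun s => κ ((ABF.eS hSG).symm s)) (lf U ν S)]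
    have h3 : (fun y => (fun s => κ ((ABF.eS hSG).symm s)) ((ABF.eS hSG) y)) = κ := by
      funext y
      exact congrArg κ ((ABF.eS hSG).symm_apply_apply y)
    rw [h3]
    rfl
  rw [h1, h2]

theorem ovl_conj {U G S : Subgroup W} (hSG : S ≤ G) [(S.subgroupOf G).Normal]
    (hU : ∀ w z : W, z ∈ U → w * z * w⁻¹ ∈ U) (ν : U →* ℂˣ)
    (hν : ∀ (w : W) (z z' : U), (z' : W) = w * z * w⁻¹ → ν z' = ν z) (g : G) (κ : S → ℂ)
    (h : OvL U ν S κ) : OvL U ν S (fun s => κ (ABF.phi hSG g s)) := by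
  intro s t hs
  have h1 : ((ABF.phi hSG g s : S) : W) ∈ U := by
    rw [ABF.phi_coe]
    exact hU g s hs
  change κ (ABF.phi hSG g (s * t)) = _
  rw [map_mul, h (ABF.phi hSG g s) (ABF.phi hSG g t) h1,
    hν (g : W) ⟨s, hs⟩ ⟨((ABF.phi hSG g s : S) : W), h1⟩ (ABF.phi_coe hSG g s)]

theorem conj_eq {G S : Subgroup W} (hSG : S ≤ G) [(S.subgroupOf G).Normal] (g : G)
    (κ : S.subgroupOf G → ℂ) :
    (fun s => (fun n => κ (MulAut.conjNormal g n)) ((ABF.eS hSG).symm s)) =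
      fun s => (fun s => κ ((ABF.eS hSG).symm s)) (ABF.phi hSG g s) := by
  funext s
  refine congrArg κ ?_
  exact ((ABF.eS hSG).symm_apply_apply _).symm

open Classical in
theorem sum1 {H : Type} [Group H] (π : W →* H) (V : Subgroup H) (f : ↥(V.comap π) → ℂ)
    (F : W → ℂ) (hf : ∀ x : ↥(V.comap π), f x = F x) :
    ∑ x : ↥(V.comap π), f x = ∑ x : W, if π x ∈ V then F x else 0 := by
  rw [← Finset.sum_filter, Finset.sum_subtype (Finset.univ.filter fun x : W => π x ∈ V)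
    (p := fun x => x ∈ V.comap π) (fun x => by simp)]
  exact Finset.sum_congr rfl fun x _ => hf x

open Classical in
theorem sum2 {H : Type} [Group H] (π : W →* H) (V : Subgroup H)
    (f : ↥(V.comap π) → ↥(V.comap π) → ℂ) (F : W → W → ℂ)
    (hf : ∀ x y : ↥(V.comap π), f x y = F x y) :
    ∑ x : ↥(V.comap π), ∑ y : ↥(V.comap π), f x y =
      ∑ x : W, ∑ y : W, if π x ∈ V ∧ π y ∈ V then F x y else 0 := by
  rw [sum1 π V _ (fun x => ∑ y : W, if π y ∈ V then F x y else 0)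
    (fun x => sum1 π V _ (fun y => F x y) (hf x))]
  refine Finset.sum_congr rfl fun x _ => ?_
  by_cases hx : π x ∈ V
  · rw [if_pos hx]
    refine Finset.sum_congr rfl fun y _ => ?_
    by_cases hy : π y ∈ V
    · rw [if_pos hy, if_pos (show π x ∈ V ∧ π y ∈ V from ⟨hx, hy⟩)]
    · rw [if_neg hy, if_neg (show ¬ (π x ∈ V ∧ π y ∈ V) from fun h => hy h.2)]
  · rw [if_neg hx]
    refine (Finset.sum_eq_zero fun y _ => ?_).symm
    rw [if_neg (show ¬ (π x ∈ V ∧ π y ∈ V) from fun h => hx h.1)]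

end EDV

open EDV

open Classical in
/-- EDV: the characters of a given defect of the inverse image of a subgroup. -/
theorem EDV_thm (h1 : Stmt_FRZ) (h2 : Stmt_DGI) : Stmt_EDV := by
  intro W H _ _ _ _ ℓ _ π hs P hP V e
  have hPn := hP.nrm
  have hSG : (V ⊓ P).comap π ≤ V.comap π := Subgroup.comap_mono inf_le_left
  have hkS : π.ker ≤ (V ⊓ P).comap π := by
    intro x hx
    rw [Subgroup.mem_comap, MonoidHom.mem_ker.mp hx]
    exact (V ⊓ P).one_mem
  have hRn : (P.comap π).Normal := hPn.comap π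
  have hSR : ((V ⊓ P).comap π).subgroupOf (V.comap π) =
      (P.comap π).subgroupOf (V.comap π) := by
    rw [Subgroup.comap_inf, Subgroup.inf_subgroupOf_left]
  have hN : (((V ⊓ P).comap π).subgroupOf (V.comap π)).Normal := by
    rw [hSR]
    infer_instance
  have hidx : ¬ ℓ ∣ (((V ⊓ P).comap π).subgroupOf (V.comap π)).index := by
    intro h
    apply hP.idx
    rw [hSR] at h
    have h3 : ((P.comap π).subgroupOf (V.comap π)).index ∣ (P.comap π).index :=
      Subgroup.relIndex_dvd_index_of_normal _ _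
    rw [Subgroup.index_comap_of_surjective P hs] at h3
    exact h.trans h3
  have hcomm : ∀ x y : ↥(V.comap π), x * y * x⁻¹ * y⁻¹ ∈
      ((V ⊓ P).comap π).subgroupOf (V.comap π) := by
    intro x y
    rw [hSR, Subgroup.mem_subgroupOf, Subgroup.mem_comap]
    have h3 := hP.abl (π x) (π y)
    have h4 : π ((x * y * x⁻¹ * y⁻¹ : ↥(V.comap π)) : W) = π x * π y * (π x)⁻¹ * (π y)⁻¹ := by
      push_cast
      rw [map_mul, map_mul, map_mul, map_inv, map_inv]
    rw [h4]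
    exact h3
  have hdg := h2 ↥(V.comap π) ℓ (((V ⊓ P).comap π).subgroupOf (V.comap π)) hidx
  have hdt : ∀ κ : ((V ⊓ P).comap π).subgroupOf (V.comap π) → ℂ,
      HasDefect ℓ (fun s => κ ((ABF.eS hSG).symm s)) e ↔ HasDefect ℓ κ e := fun κ =>
    hasDefect_comp_equiv (ABF.eS hSG).symm
  constructor
  · intro ν hν
    have hU : ∀ w z : W, z ∈ π.ker → w * z * w⁻¹ ∈ π.ker := fun w z hz =>
      (MonoidHom.normal_ker π).conj_mem z hz w
    have hF := FRO_thm ↥(V.comap π) (((V ⊓ P).comap π).subgroupOf (V.comap π))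
      (fun κ => (fun κ : ↥((V ⊓ P).comap π) → ℂ => OvL π.ker ν _ κ ∧ HasDefect ℓ κ e)
        (fun s => κ ((ABF.eS hSG).symm s)))
      (by
        intro g κ h
        have h3 := conj_eq hSG g κ
        refine ⟨?_, ?_⟩
        · rw [h3]
          exact ovl_conj hSG hU ν hν g _ h.1
        · rw [h3]
          exact (hasDefect_comp_equiv (ABF.phi hSG g)).mpr h.2)
    have hcnt : Nat.card {η : ↥(V.comap π) → ℂ // IsIrr η ∧
        ∃ κ : ((V ⊓ P).comap π).subgroupOf (V.comap π) → ℂ, IsIrr κ ∧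
        ((fun κ : ↥((V ⊓ P).comap π) → ℂ => OvL π.ker ν _ κ ∧ HasDefect ℓ κ e)
          (fun s => κ ((ABF.eS hSG).symm s))) ∧
        ip (resj (((V ⊓ P).comap π).subgroupOf (V.comap π)).subtype η) κ ≠ 0} =
        Nat.card {η : ↥(V.comap π) → ℂ // IsIrr η ∧ OvL π.ker ν _ η ∧ HasDefect ℓ η e} := by
      refine Nat.card_congr (Equiv.subtypeEquivRight fun η => ?_)
      constructor
      · rintro ⟨hη, κ, hκ, hQ, hip⟩
        exact ⟨hη, (ovl_iff' hkS hSG hU ν hν hη hκ hip).mp hQ.1,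
          (hdg η κ hη hκ hip e).mpr ((hdt κ).mp hQ.2)⟩
      · rintro ⟨hη, hQ1, hQ2⟩
        obtain ⟨κ, hκ, hip⟩ := FRO.exists_under (((V ⊓ P).comap π).subgroupOf (V.comap π)) hη
        exact ⟨hη, κ, hκ, ⟨(ovl_iff' hkS hSG hU ν hν hη hκ hip).mpr hQ1,
          (hdt κ).mpr ((hdg η κ hη hκ hip e).mp hQ2)⟩, hip⟩
    rw [← hcnt, hF]
    refine sum2 π V _ (fun x y => ed ((V ⊓ P).comap π)
      (fun κ => OvL π.ker ν _ κ ∧ HasDefect ℓ κ e) (x * y * x⁻¹ * y⁻¹)) fun x y => ?_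
    rw [if_pos (hcomm x y)]
    exact ABF.ed_transport hSG (fun κ => OvL π.ker ν _ κ ∧ HasDefect ℓ κ e) (x * y * x⁻¹ * y⁻¹)
  · intro hc a ha
    have haG : a ∈ V.comap π := hSG (hkS ha)
    have hF := h1 ↥(V.comap π) (((V ⊓ P).comap π).subgroupOf (V.comap π))
      (fun κ => (fun κ : ↥((V ⊓ P).comap π) → ℂ => HasDefect ℓ κ e)
        (fun s => κ ((ABF.eS hSG).symm s)))
      (by
        intro g κ h
        rw [conj_eq hSG g κ]
        exact (hasDefect_comp_equiv (ABF.phi hSG g)).mpr h)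
      ⟨a, haG⟩ (by
        rw [Subgroup.mem_subgroupOf]
        exact hkS ha)
      (by
        rw [Subgroup.mem_center_iff]
        intro g
        apply Subtype.ext
        exact Subgroup.mem_center_iff.mp (hc ha) g)
    have hset : (irrF ↥(V.comap π)).filter (fun η => HasDefect ℓ η e) =
        (irrF ↥(V.comap π)).filter (fun η =>
          ∃ κ : ((V ⊓ P).comap π).subgroupOf (V.comap π) → ℂ, IsIrr κ ∧
            ((fun κ : ↥((V ⊓ P).comap π) → ℂ => HasDefect ℓ κ e)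
              (fun s => κ ((ABF.eS hSG).symm s))) ∧
            ip (resj (((V ⊓ P).comap π).subgroupOf (V.comap π)).subtype η) κ ≠ 0) := by
      refine Finset.filter_congr fun η hη => ?_
      have hη' := mem_irrF.mp hη
      constructor
      · intro hQ
        obtain ⟨κ, hκ, hip⟩ := FRO.exists_under (((V ⊓ P).comap π).subgroupOf (V.comap π)) hη'
        exact ⟨κ, hκ, (hdt κ).mpr ((hdg η κ hη' hκ hip e).mp hQ), hip⟩
      · rintro ⟨κ, hκ, hQ, hip⟩
        exact (hdg η κ hη' hκ hip e).mpr ((hdt κ).mp hQ)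
    have hsum : ∑ η ∈ irrF (V.comap π) with HasDefect ℓ η e, ext0 η a⁻¹ / η 1 =
        ∑ η ∈ irrF ↥(V.comap π) with
          (∃ κ : ((V ⊓ P).comap π).subgroupOf (V.comap π) → ℂ, IsIrr κ ∧
            ((fun κ : ↥((V ⊓ P).comap π) → ℂ => HasDefect ℓ κ e)
              (fun s => κ ((ABF.eS hSG).symm s))) ∧
            ip (resj (((V ⊓ P).comap π).subgroupOf (V.comap π)).subtype η) κ ≠ 0),
          η (⟨a, haG⟩ : ↥(V.comap π))⁻¹ / η 1 := by
      rw [hset]
      refine Finset.sum_congr rfl fun η _ => ?_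
      rw [ext0_of_mem η ((V.comap π).inv_mem haG)]
      rfl
    rw [hsum, hF]
    refine sum2 π V _ (fun x y => ed ((V ⊓ P).comap π)
      (fun κ => HasDefect ℓ κ e) (x * y * x⁻¹ * y⁻¹ * a)) fun x y => ?_
    rw [if_pos (hcomm x y)]
    have h9 := ABF.ed_transport hSG (fun κ : ↥((V ⊓ P).comap π) → ℂ => HasDefect ℓ κ e)
      (x * y * x⁻¹ * y⁻¹ * (⟨a, haG⟩ : ↥(V.comap π)))
    exact h9

end Pool.Agent.DPF
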