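import Pool.Agent.DPF.Stmts
import Pool.Agent.DPM.MOBX

/-!
# EXPU: only the fixed pairs contribute to the Moebius sum
-/

namespace Pool.Agent.DPF

open Pool.Agent.DP Pool.Agent.DPC Pool.Agent.DPM Pool.Agent.DPN Pool.Agent.Lib_helper13
  Representation
open Pool.Agent.Lib_helper13.Dade (pCore DadeHolds dadeSum)

theorem EXPU_thm (h1 : Stmt_EXU) : Stmt_EXPU := by
  classical
  intro L K H _ _ _ _ _ _ 𝔐 ℓ _ π hπ hc μ M _ p hp hM ω d m hm
  have hmob := (MOBX_thm H).2 m hm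
  -- exchange the sums over the subgroups and over the chains
  have hex : ∑ V, m V * PHU 𝔐 ℓ d π μ M (V.comap p) ω =
      ∑ τ ∈ Ch ℓ (⊥ : Subgroup M), (-1 : ℚ) ^ τ.card *
        ∑ V : Subgroup H, m V * ((Nat.card ↥(V.comap p ⊓ stb (mapCh M.subtype τ)) : ℚ) *
          Nat.card {ψ : ↥(SL π M τ (V.comap p)) → ℂ // IsIrr ψ ∧ OvL π.ker μ _ ψ ∧
            HasDefect ℓ ψ d ∧
            ∀ g ∈ M.comap π, cen 𝔐 (SL π M τ (V.comap p)).subtype ψ g = ω g}) := by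
    unfold PHU
    simp only [Finset.mul_sum]
    rw [Finset.sum_comm]
    refine Finset.sum_congr rfl fun τ _ => Finset.sum_congr rfl fun V _ => ?_
    ring
  rw [hex]
  refine Finset.sum_congr rfl fun τ hτ => ?_
  congr 1
  obtain ⟨I, f, hI, hf, hs⟩ := h1 L K H 𝔐 ℓ π hπ hc μ M p hp hM ω d τ hτ
  -- exchange the sums over the subgroups and over the characters
  have hex2 : ∑ V : Subgroup H, m V * ((Nat.card ↥(V.comap p ⊓ stb (mapCh M.subtype τ)) : ℚ) *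
        Nat.card {ψ : ↥(SL π M τ (V.comap p)) → ℂ // IsIrr ψ ∧ OvL π.ker μ _ ψ ∧
          HasDefect ℓ ψ d ∧
          ∀ g ∈ M.comap π, cen 𝔐 (SL π M τ (V.comap p)).subtype ψ g = ω g}) =
      ∑ θ ∈ irrF (SL π M τ M) with OvL π.ker μ _ θ ∧
          ∀ g ∈ M.comap π, cen 𝔐 (SL π M τ M).subtype θ g = ω g,
        (Nat.card ↥(M ⊓ stb (mapCh M.subtype τ)) : ℚ) * ∑ V, m V * f θ (V ⊓ I θ) := by
    have h2 : ∀ V : Subgroup H, m V * ((Nat.card ↥(V.comap p ⊓ stb (mapCh M.subtype τ)) : ℚ) *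
        Nat.card {ψ : ↥(SL π M τ (V.comap p)) → ℂ // IsIrr ψ ∧ OvL π.ker μ _ ψ ∧
          HasDefect ℓ ψ d ∧
          ∀ g ∈ M.comap π, cen 𝔐 (SL π M τ (V.comap p)).subtype ψ g = ω g}) =
        ∑ θ ∈ irrF (SL π M τ M) with OvL π.ker μ _ θ ∧
          ∀ g ∈ M.comap π, cen 𝔐 (SL π M τ M).subtype θ g = ω g,
        (Nat.card ↥(M ⊓ stb (mapCh M.subtype τ)) : ℚ) * (m V * f θ (V ⊓ I θ)) := by
      intro V
      rw [hs V, Finset.mul_sum]
      refine Finset.sum_congr rfl fun θ _ => ?_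
      ring
    rw [Finset.sum_congr rfl fun V _ => h2 V, Finset.sum_comm]
    refine Finset.sum_congr rfl fun θ _ => ?_
    rw [Finset.mul_sum]
  rw [hex2]
  symm
  -- compare the two index sets
  have hsub : (Finset.filter (fun θ => PrU 𝔐 π μ p M ω τ θ) (irrF (SL π M τ M))) ⊆
      Finset.filter (fun θ => OvL π.ker μ _ θ ∧
        ∀ g ∈ M.comap π, cen 𝔐 (SL π M τ M).subtype θ g = ω g) (irrF (SL π M τ M)) := by
    intro θ hθ
    rw [Finset.mem_filter] at hθ ⊢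
    exact ⟨hθ.1, hθ.2.ovl, hθ.2.cn⟩
  have h3 : ∀ θ ∈ Finset.filter (fun θ => PrU 𝔐 π μ p M ω τ θ) (irrF (SL π M τ M)),
      (Nat.card ↥(M ⊓ stb (mapCh M.subtype τ)) : ℚ) *
        ∑ V, m V * ((Nat.card V : ℚ) *
          Nat.card {ψ : ↥(SL π M τ (V.comap p)) → ℂ // IsIrr ψ ∧
            ip (fun a : ↥(SL π M τ M) => ext0 ψ (a : L)) θ ≠ 0 ∧ HasDefect ℓ ψ d}) =
      (Nat.card ↥(M ⊓ stb (mapCh M.subtype τ)) : ℚ) * ∑ V, m V * f θ (V ⊓ I θ) := by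
    intro θ hθ
    have hP : PrU 𝔐 π μ p M ω τ θ := (Finset.mem_filter.1 hθ).2
    have hIt : I θ = ⊤ := (hI θ hP.irr hP.ovl hP.cn).2 hP
    congr 1
    refine Finset.sum_congr rfl fun V _ => ?_
    rw [hIt, inf_top_eq, hf θ hP V]
  rw [Finset.sum_congr rfl h3]
  refine Finset.sum_subset hsub fun θ hθ hθ' => ?_
  rw [Finset.mem_filter] at hθ hθ'
  have hirr : IsIrr θ := mem_irrF.1 hθ.1
  have hIt : I θ ≠ ⊤ := fun h => hθ' ⟨hθ.1, (hI θ hirr hθ.2.1 hθ.2.2).1 h⟩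
  rw [hmob.2 (I θ) hIt (f θ), mul_zero]

end Pool.Agent.DPF
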