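import Pool.Agent.DPF.Stmts
import Pool.Agent.DPN.Base
import Pool.Agent.DPN.ABF
import Pool.Agent.DPN.FFC

/-!
# EXU: the sum over the characters of the stabilizer of a chain of the normal subgroup
-/

namespace Pool.Agent.DPF

open Pool.Agent.DP Pool.Agent.DPC Pool.Agent.DPM Pool.Agent.DPN Pool.Agent.Lib_helper13
  Representation
open Pool.Agent.Lib_helper13.Dade (pCore DadeHolds dadeSum)

namespace EXU

section

variable {L K H : Type} [Group L] [Group K] [Group H] (π : L →* K) (M : Subgroup K) [M.Normal]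
  (τ : Finset (Subgroup M)) (p : K →* H)

theorem conj_mem (S : Subgroup K) {y a : L} (hy : y ∈ SL π M τ S) (ha : a ∈ SL π M τ M) :
    y * a * y⁻¹ ∈ SL π M τ M := by
  refine ⟨?_, ?_⟩
  · change π (y * a * y⁻¹) ∈ M
    rw [map_mul, map_mul, map_inv]
    exact (inferInstance : M.Normal).conj_mem _ ha.1 _
  · have h1 : y ∈ (stb (mapCh M.subtype τ)).comap π := hy.2
    have h2 : a ∈ (stb (mapCh M.subtype τ)).comap π := ha.2
    exact mul_mem (mul_mem h1 h2) (inv_mem h1)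

/-- The conjugation action. -/
noncomputable def cA (S : Subgroup K) : ↥(SL π M τ S) →* MulAut ↥(SL π M τ M) where
  toFun y :=
    { toFun := fun a => ⟨y * a * (y : L)⁻¹, conj_mem π M τ S y.2 a.2⟩
      invFun := fun a => ⟨(y : L)⁻¹ * a * y, by
        have h := conj_mem π M τ S (inv_mem y.2) a.2
        rwa [inv_inv] at h⟩
      left_inv := fun a => Subtype.ext (by
        change (y : L)⁻¹ * (y * a * (y : L)⁻¹) * y = a
        group)
      right_inv := fun a => Subtype.ext (by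
        change (y : L) * ((y : L)⁻¹ * a * y) * (y : L)⁻¹ = a
        group)
      map_mul' := fun a b => Subtype.ext (by
        change (y : L) * (a * b) * (y : L)⁻¹ = (y * a * (y : L)⁻¹) * (y * b * (y : L)⁻¹)
        group) }
  map_one' := MulEquiv.ext fun a => Subtype.ext (by
    change (1 : L) * a * (1 : L)⁻¹ = a
    group)
  map_mul' := fun x y => MulEquiv.ext fun a => Subtype.ext (by
    change ((x : L) * y) * a * ((x : L) * y)⁻¹ = x * (y * a * (y : L)⁻¹) * (x : L)⁻¹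
    group)

/-- The embedding. -/
noncomputable def jA {S : Subgroup K} (hS : M ≤ S) : ↥(SL π M τ M) →* ↥(SL π M τ S) :=
  Subgroup.inclusion (SL_mono π M τ hS)

/-- The projection. -/
noncomputable def pA (S : Subgroup K) : ↥(SL π M τ S) →* H := (p.comp π).comp (SL π M τ S).subtype

variable {p}

theorem clG (hp : ∀ k, p k = 1 ↔ k ∈ M) {S : Subgroup K} (hS : M ≤ S) :
    ClG (jA π M τ hS) (cA π M τ S) (pA π M τ p S) where
  inj := Subgroup.inclusion_injective _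
  act := fun y a => Subtype.ext rfl
  ker := by
    intro y
    constructor
    · intro h1
      have h2 : π (y : L) ∈ M := (hp _).mp h1
      exact ⟨⟨y, h2, y.2.2⟩, rfl⟩
    · rintro ⟨a, rfl⟩
      exact (hp _).mpr a.2.1

omit [M.Normal] in
theorem le_V (hp : ∀ k, p k = 1 ↔ k ∈ M) (V : Subgroup H) : M ≤ V.comap p := by
  intro k hk
  change p k ∈ V
  rw [(hp k).mpr hk]
  exact V.one_mem

/-- The projection of the inertia group. -/
noncomputable def qA (p : K →* H) (θ : ↥(SL π M τ M) → ℂ) : ↥(inert (cA π M τ ⊤) θ) →* H :=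
  (pA π M τ p ⊤).comp (inert (cA π M τ ⊤) θ).subtype

/-- The image of the inertia group. -/
noncomputable def IA (p : K →* H) (θ : ↥(SL π M τ M) → ℂ) : Subgroup H :=
  (inert (cA π M τ ⊤) θ).map (pA π M τ p ⊤)

/-- The inertia groups. -/
noncomputable def eI (p : K →* H) (V : Subgroup H) (θ : ↥(SL π M τ M) → ℂ) :
    ↥(inert (cA π M τ (V.comap p)) θ) ≃* ↥(V.comap (qA π M τ p θ)) where
  toFun x := ⟨⟨⟨x.1.1, ⟨Subgroup.mem_top _, x.1.2.2⟩⟩, x.2⟩, x.1.2.1⟩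
  invFun x := ⟨⟨x.1.1.1, ⟨x.2, x.1.1.2.2⟩⟩, x.1.2⟩
  left_inv := fun _ => rfl
  right_inv := fun _ => rfl
  map_mul' := fun _ _ => rfl

theorem range_qA (p : K →* H) (θ : ↥(SL π M τ M) → ℂ) :
    (qA π M τ p θ).range = IA π M τ p θ := by
  ext x
  constructor
  · rintro ⟨y, rfl⟩
    exact ⟨y.1, y.2, rfl⟩
  · rintro ⟨y, hy, rfl⟩
    exact ⟨⟨y, hy⟩, rfl⟩

theorem comap_qA (p : K →* H) (V : Subgroup H) (θ : ↥(SL π M τ M) → ℂ) :
    (V ⊓ IA π M τ p θ).comap (qA π M τ p θ) = V.comap (qA π M τ p θ) := by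
  rw [← range_qA]
  ext x
  constructor
  · intro hx
    exact hx.1
  · intro hx
    exact ⟨hx, ⟨x, rfl⟩⟩

theorem card_I [Finite L] (hp : ∀ k, p k = 1 ↔ k ∈ M) (V : Subgroup H)
    (θ : ↥(SL π M τ M) → ℂ) (hθ : IsIrr θ) :
    Nat.card ↥(inert (cA π M τ (V.comap p)) θ) =
      Nat.card ↥(SL π M τ M) * Nat.card ↥(V ⊓ IA π M τ p θ) := by
  have h0 : Finite ↥(inert (cA π M τ ⊤) θ) := inferInstance
  rw [Nat.card_congr (eI π M τ p V θ).toEquiv, FFC.card_comap, range_qA]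
  congr 1
  symm
  have hT := clG π M τ hp (le_top : M ≤ ⊤)
  have hmem : ∀ a : ↥(SL π M τ M), jA π M τ le_top a ∈ inert (cA π M τ ⊤) θ :=
    FFC.jmem hT hθ
  refine Nat.card_congr (Equiv.ofBijective
    (fun a => ⟨⟨jA π M τ le_top a, hmem a⟩, ?_⟩) ⟨?_, ?_⟩)
  · exact (hT.ker (jA π M τ le_top a)).mpr ⟨a, rfl⟩
  · intro a b hab
    apply hT.inj
    exact congrArg (fun z => z.1.1) hab
  · rintro ⟨⟨y, hy⟩, hy'⟩
    obtain ⟨a, ha⟩ := (hT.ker y).mp hy'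
    exact ⟨a, Subtype.ext (Subtype.ext ha)⟩

theorem ext0_eq (hp : ∀ k, p k = 1 ↔ k ∈ M) (V : Subgroup H)
    (θ : ↥(SL π M τ M) → ℂ) (hθ : IsIrr θ) (ψ : ↥(V.comap (qA π M τ p θ)) → ℂ) :
    (fun a : ↥(SL π M τ M) => ext0 (fun y => ψ (eI π M τ p V θ y))
        (jA π M τ (le_V M hp V) a)) =
      fun a : ↥(SL π M τ M) => ext0 (ext0 ψ) (jA π M τ le_top a) := by
  funext a
  have h1 : jA π M τ (le_V M hp V) a ∈ inert (cA π M τ (V.comap p)) θ :=
    FFC.jmem (clG π M τ hp (le_V M hp V)) hθ a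
  have h2 : jA π M τ le_top a ∈ inert (cA π M τ ⊤) θ :=
    FFC.jmem (clG π M τ hp (le_top : M ≤ ⊤)) hθ a
  have h3 : (⟨jA π M τ le_top a, h2⟩ : inert (cA π M τ ⊤) θ) ∈ V.comap (qA π M τ p θ) := by
    change p (π (a : L)) ∈ V
    rw [(hp _).mpr a.2.1]
    exact V.one_mem
  rw [ext0_of_mem _ h1, ext0_of_mem _ h2, ext0_of_mem _ h3]
  rfl

omit [M.Normal] in
theorem card_SL [Finite L] (hs : Function.Surjective π) (S : Subgroup K) :
    Nat.card ↥(SL π M τ S) = Nat.card π.ker * Nat.card ↥(S ⊓ stb (mapCh M.subtype τ)) := by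
  rw [FFC.card_comap, MonoidHom.range_eq_top.mpr hs, inf_top_eq]

open Classical in
theorem term [Fintype L] (hc : π.ker ≤ Subgroup.center L) (μ : π.ker →* ℂˣ)
    (hp : ∀ k, p k = 1 ↔ k ∈ M) (𝔐 : Ideal (integralClosure ℤ ℂ)) (ℓ : ℕ) [Fact ℓ.Prime] (d : ℕ)
    (ω : L → (integralClosure ℤ ℂ) ⧸ 𝔐) (V : Subgroup H) :
    (Nat.card ↥(SL π M τ (V.comap p)) : ℚ) *
        Nat.card {ψ : ↥(SL π M τ (V.comap p)) → ℂ // IsIrr ψ ∧ OvL π.ker μ _ ψ ∧
          HasDefect ℓ ψ d ∧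
          ∀ g ∈ M.comap π, cen 𝔐 (SL π M τ (V.comap p)).subtype ψ g = ω g} =
      ∑ θ ∈ irrF (SL π M τ M) with OvL π.ker μ _ θ ∧
          ∀ g ∈ M.comap π, cen 𝔐 (SL π M τ M).subtype θ g = ω g,
        (Nat.card ↥(SL π M τ M) : ℚ) *
          ((Nat.card ↥(V ⊓ IA π M τ p θ) : ℚ) *
            Nat.card {ψ : ↥(V.comap (qA π M τ p θ)) → ℂ // IsIrr ψ ∧
              ip (fun a : ↥(SL π M τ M) => ext0 (ext0 ψ) (jA π M τ le_top a)) θ ≠ 0 ∧
              HasDefect ℓ ψ d}) := by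
  have hMV := le_V M hp V
  have hS := clG π M τ hp hMV
  have h1 := CLC_thm ↥(SL π M τ M) ↥(SL π M τ (V.comap p)) H ℓ (jA π M τ hMV)
    (cA π M τ (V.comap p)) (pA π M τ p (V.comap p)) hS
    (fun ψ => OvL π.ker μ _ ψ ∧
      ∀ g ∈ M.comap π, cen 𝔐 (SL π M τ (V.comap p)).subtype ψ g = ω g) d
  have h0 : Nat.card {ψ : ↥(SL π M τ (V.comap p)) → ℂ // IsIrr ψ ∧ OvL π.ker μ _ ψ ∧
          HasDefect ℓ ψ d ∧
          ∀ g ∈ M.comap π, cen 𝔐 (SL π M τ (V.comap p)).subtype ψ g = ω g} =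
      Nat.card {ψ : ↥(SL π M τ (V.comap p)) → ℂ // IsIrr ψ ∧ HasDefect ℓ ψ d ∧
        (OvL π.ker μ _ ψ ∧
          ∀ g ∈ M.comap π, cen 𝔐 (SL π M τ (V.comap p)).subtype ψ g = ω g)} :=
    Nat.card_congr (Equiv.subtypeEquivRight fun ψ => by tauto)
  rw [h0, h1, Finset.sum_filter]
  refine Finset.sum_congr rfl fun θ hθ' => ?_
  have hθ : IsIrr θ := mem_irrF.mp hθ'
  have hcc := CCOR_thm IND_thm SUMM_thm ↥(SL π M τ M) ↥(SL π M τ (V.comap p)) H
    (jA π M τ hMV) (cA π M τ (V.comap p)) (pA π M τ p (V.comap p)) hS θ hθ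
  have hker : π.ker ≤ SL π M τ M := by
    intro z hz
    have hz' : π z = 1 := hz
    refine ⟨?_, ?_⟩
    · change π z ∈ M
      rw [hz']
      exact M.one_mem
    · change π z ∈ stb (mapCh M.subtype τ)
      rw [hz']
      exact Subgroup.one_mem _
  have key : ∀ ψ : ↥(inert (cA π M τ (V.comap p)) θ) → ℂ, IsIrr ψ →
      ip (fun a => ext0 ψ (jA π M τ hMV a)) θ ≠ 0 →
      ((OvL π.ker μ _ (indc (inert (cA π M τ (V.comap p)) θ) ψ) ∧
          ∀ g ∈ M.comap π, cen 𝔐 (SL π M τ (V.comap p)).subtype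
            (indc (inert (cA π M τ (V.comap p)) θ) ψ) g = ω g) ↔
        (OvL π.ker μ _ θ ∧ ∀ g ∈ M.comap π, cen 𝔐 (SL π M τ M).subtype θ g = ω g)) := by
    intro ψ hψ hψθ
    obtain ⟨h2, h3⟩ := hcc.1 ψ hψ hψθ
    have h4 := RCE_thm ↥(SL π M τ M) ↥(SL π M τ (V.comap p)) H L 𝔐 (jA π M τ hMV)
      (cA π M τ (V.comap p)) (pA π M τ p (V.comap p)) hS
      (SL π M τ (V.comap p)).subtype (M.comap π) inferInstance
      (fun t ht => ⟨⟨t, ht, t.2.2⟩, rfl⟩) _ θ h2 hθ h3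
    have h5 : ((SL π M τ (V.comap p)).subtype).comp (jA π M τ hMV) =
          (SL π M τ M).subtype := rfl
    rw [h5] at h4
    have h6 : OvL π.ker μ _ (indc (inert (cA π M τ (V.comap p)) θ) ψ) ↔ OvL π.ker μ _ θ :=
      ABF.ovl_iff hc hker (SL_mono π M τ hMV) h2 hθ h3 μ
    rw [h6]
    exact and_congr_right fun _ => forall₂_congr fun g hg => by rw [h4 g hg]
  split_ifs with hcn
  · rw [card_I π M τ hp V θ hθ]
    push_cast
    rw [mul_assoc]
    congr 2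
    rw [card_irr_equiv (eI π M τ p V θ)]
    intro ψ hψ
    have hψ' : IsIrr (fun y => ψ (eI π M τ p V θ y)) := hψ.comp_mulEquiv (eI π M τ p V θ)
    rw [ext0_eq π M τ hp V θ hθ ψ, hasDefect_comp_equiv]
    constructor
    · rintro ⟨h7, h8, -⟩
      exact ⟨h7, h8⟩
    · rintro ⟨h7, h8⟩
      refine ⟨h7, h8, (key _ hψ' ?_).mpr hcn⟩
      rw [ext0_eq π M τ hp V θ hθ ψ]
      exact h7
  · have h9 : IsEmpty {ψ : ↥(inert (cA π M τ (V.comap p)) θ) → ℂ // IsIrr ψ ∧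
          ip (fun a => ext0 ψ (jA π M τ hMV a)) θ ≠ 0 ∧ HasDefect ℓ ψ d ∧
          (OvL π.ker μ _ (indc (inert (cA π M τ (V.comap p)) θ) ψ) ∧
          ∀ g ∈ M.comap π, cen 𝔐 (SL π M τ (V.comap p)).subtype
            (indc (inert (cA π M τ (V.comap p)) θ) ψ) g = ω g)} := by
      constructor
      rintro ⟨ψ, h10, h11, -, h12⟩
      exact hcn ((key ψ h10 h11).mp h12)
    rw [@Nat.card_of_isEmpty _ h9]
    simp

end

end EXU

theorem EXU_thm : Stmt_EXU := by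
  classical
  intro L K H _ _ _ _ _ _ 𝔐 ℓ _ π hs hc μ M _ p hps hp ω d τ hτ
  refine ⟨EXU.IA π M τ p, fun θ V => (Nat.card V : ℚ) *
    Nat.card {ψ : ↥(V.comap (EXU.qA π M τ p θ)) → ℂ // IsIrr ψ ∧
      ip (fun a : ↥(SL π M τ M) => ext0 (ext0 ψ) (EXU.jA π M τ le_top a)) θ ≠ 0 ∧
      HasDefect ℓ ψ d}, ?_, ?_, ?_⟩
  · intro θ hθ hO hcn
    have hT := EXU.clG π M τ hp (le_top : M ≤ ⊤)
    have hmem : ∀ a : ↥(SL π M τ M), EXU.jA π M τ le_top a ∈ inert (EXU.cA π M τ ⊤) θ :=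
      FFC.jmem hT hθ
    constructor
    · intro hI
      have hsur : ∀ h : H, ∃ t ∈ inert (EXU.cA π M τ ⊤) θ, EXU.pA π M τ p ⊤ t = h := by
        intro h
        have h1 : h ∈ EXU.IA π M τ p θ := by
          rw [hI]
          exact Subgroup.mem_top _
        exact h1
      refine ⟨hθ, hO, hcn, ?_, ?_⟩
      · intro h
        obtain ⟨t, -, ht⟩ := hsur h
        exact ⟨π t, t.2.2, ht⟩
      · intro t ht a b hab
        obtain ⟨t', ht', he⟩ := hsur (EXU.pA π M τ p ⊤ ⟨t, ht⟩)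
        have h1 : EXU.pA π M τ p ⊤ (⟨t, ht⟩ * t'⁻¹) = 1 := by
          rw [map_mul, map_inv, he, mul_inv_cancel]
        obtain ⟨a', ha'⟩ := (hT.ker _).mp h1
        have h2 : (⟨t, ht⟩ : ↥(SL π M τ ⊤)) ∈ inert (EXU.cA π M τ ⊤) θ := by
          have h3 : (⟨t, ht⟩ : ↥(SL π M τ ⊤)) = EXU.jA π M τ le_top a' * t' := by
            rw [ha', inv_mul_cancel_right]
          rw [h3]
          exact mul_mem (hmem a') ht'
        have h4 : b = EXU.cA π M τ ⊤ ⟨t, ht⟩ a := Subtype.ext hab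
        rw [h4]
        exact h2 a
    · intro hP
      rw [eq_top_iff]
      intro h _
      obtain ⟨k, hk, hkh⟩ := hP.sj h
      obtain ⟨t, rfl⟩ := hs k
      have ht : t ∈ SL π M τ ⊤ := ⟨Subgroup.mem_top _, hk⟩
      exact ⟨⟨t, ht⟩, fun a => hP.iv t ht a _ rfl, hkh⟩
  · intro θ hP V
    have hall : ∀ t : ↥(SL π M τ ⊤), t ∈ inert (EXU.cA π M τ ⊤) θ :=
      fun t a => hP.iv t t.2 a _ rfl
    beta_reduce
    congr 2
    let e : ↥(V.comap (EXU.qA π M τ p θ)) ≃* ↥(SL π M τ (V.comap p)) :=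
      { toFun := fun x => ⟨x.1.1.1, x.2, x.1.1.2.2⟩
        invFun := fun x => ⟨⟨⟨x.1, ⟨Subgroup.mem_top _, x.2.2⟩⟩, hall _⟩, x.2.1⟩
        left_inv := fun _ => rfl
        right_inv := fun _ => rfl
        map_mul' := fun _ _ => rfl }
    rw [card_irr_equiv e]
    intro ψ hψ
    rw [hasDefect_comp_equiv]
    have h1 : (fun a : ↥(SL π M τ M) => ext0 (ext0 (fun y => ψ (e y)))
        (EXU.jA π M τ le_top a)) = fun a : ↥(SL π M τ M) => ext0 ψ (a : L) := by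
      funext a
      have h2 : EXU.jA π M τ le_top a ∈ inert (EXU.cA π M τ ⊤) θ := hall _
      have h3 : (⟨EXU.jA π M τ le_top a, h2⟩ : inert (EXU.cA π M τ ⊤) θ) ∈
          V.comap (EXU.qA π M τ p θ) := by
        change p (π (a : L)) ∈ V
        rw [(hp _).mpr a.2.1]
        exact V.one_mem
      have h4 : (a : L) ∈ SL π M τ (V.comap p) := ⟨h3, a.2.2⟩
      rw [ext0_of_mem _ h2, ext0_of_mem _ h3, ext0_of_mem _ h4]
      rfl
    rw [h1]
  · intro V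
    have h1 := EXU.term π M τ hc μ hp 𝔐 ℓ d ω V
    rw [EXU.card_SL π M τ hs, EXU.card_SL π M τ hs] at h1
    have hk : (Nat.card π.ker : ℚ) ≠ 0 := by
      exact_mod_cast Nat.card_pos.ne'
    have h2 := mul_left_cancel₀ hk (a := (Nat.card π.ker : ℚ))
      (b := (Nat.card ↥(V.comap p ⊓ stb (mapCh M.subtype τ)) : ℚ) *
          Nat.card {ψ : ↥(SL π M τ (V.comap p)) → ℂ // IsIrr ψ ∧ OvL π.ker μ _ ψ ∧
            HasDefect ℓ ψ d ∧
            ∀ g ∈ M.comap π, cen 𝔐 (SL π M τ (V.comap p)).subtype ψ g = ω g})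
      (c := ∑ θ ∈ irrF (SL π M τ M) with OvL π.ker μ _ θ ∧
            ∀ g ∈ M.comap π, cen 𝔐 (SL π M τ M).subtype θ g = ω g,
        (Nat.card ↥(M ⊓ stb (mapCh M.subtype τ)) : ℚ) *
          ((Nat.card ↥(V ⊓ EXU.IA π M τ p θ) : ℚ) *
            Nat.card {ψ : ↥(V.comap (EXU.qA π M τ p θ)) → ℂ // IsIrr ψ ∧
              ip (fun a : ↥(SL π M τ M) => ext0 (ext0 ψ) (EXU.jA π M τ le_top a)) θ ≠ 0 ∧
              HasDefect ℓ ψ d})) (by
        rw [Finset.mul_sum, ← mul_assoc]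
        push_cast at h1
        rw [h1]
        exact Finset.sum_congr rfl fun θ _ => by ring)
    rw [h2]
    refine Finset.sum_congr rfl fun θ _ => ?_
    dsimp only
    rw [EXU.comap_qA]

end Pool.Agent.DPF
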