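import Mathlib
import Pool.Agent.DPF.Stmts

/-!
# FBA: the fibre product as a central extension
-/

set_option linter.unusedSectionVars false

namespace Pool.Agent.DPF

open Pool.Agent.DP Pool.Agent.DPC Pool.Agent.DPM Pool.Agent.DPN Pool.Agent.Lib_helper13
  Representation
open Pool.Agent.Lib_helper13.Dade (pCore DadeHolds dadeSum)

namespace FBA

section

variable {L K H W : Type} [Group L] [Group K] [Group H] [Group W]

/-- The inverse image of `M` in the fibre product is a direct product. -/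
def eB (π : L →* K) (p : K →* H) (M : Subgroup K) (hM : ∀ k, p k = 1 ↔ k ∈ M) (πW : W →* H) :
    ↥(M.comap π) × πW.ker ≃* ↥(M.comap (piY π p πW)) where
  toFun x := ⟨⟨((x.1 : L), (x.2 : W)), by
    have h1 : p (π (x.1 : L)) = 1 := (hM _).mpr x.1.2
    have h2 : πW (x.2 : W) = 1 := x.2.2
    change p (π (x.1 : L)) = πW (x.2 : W)
    rw [h1, h2]⟩, x.1.2⟩
  invFun y := (⟨((y : fpr (p.comp π) πW) : L × W).1, y.2⟩,
    ⟨((y : fpr (p.comp π) πW) : L × W).2, by
      have h1 : p (π ((y : fpr (p.comp π) πW) : L × W).1) = 1 := (hM _).mpr y.2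
      have h2 : p (π ((y : fpr (p.comp π) πW) : L × W).1) =
        πW ((y : fpr (p.comp π) πW) : L × W).2 := (y : fpr (p.comp π) πW).2
      rw [h1] at h2
      exact h2.symm⟩)
  left_inv _ := rfl
  right_inv _ := rfl
  map_mul' _ _ := rfl

/-- The kernel of the projection is a direct product. -/
def eK (π : L →* K) (p : K →* H) (πW : W →* H) :
    π.ker × πW.ker ≃ (piY π p πW).ker where
  toFun x := ⟨⟨((x.1 : L), (x.2 : W)), by
    have h1 : π (x.1 : L) = 1 := x.1.2
    have h2 : πW (x.2 : W) = 1 := x.2.2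
    change p (π (x.1 : L)) = πW (x.2 : W)
    rw [h1, h2, map_one]⟩, x.1.2⟩
  invFun y := (⟨((y : fpr (p.comp π) πW) : L × W).1, (kerY y.2).1⟩,
    ⟨((y : fpr (p.comp π) πW) : L × W).2, (kerY y.2).2⟩)
  left_inv _ := rfl
  right_inv _ := rfl

theorem conj_iff (π : L →* K) (p : K →* H) (M : Subgroup K) (hM : ∀ k, p k = 1 ↔ k ∈ M)
    (πW : W →* H) (hW : Function.Surjective πW) (a : ↥(M.comap π)) (z : πW.ker)
    (g : ↥(M.comap π)) :
    IsConj ((eB π p M hM πW (a, z) : ↥(M.comap (piY π p πW))) : fpr (p.comp π) πW)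
      ((eB π p M hM πW (g, 1) : ↥(M.comap (piY π p πW))) : fpr (p.comp π) πW) ↔
      z = 1 ∧ IsConj (a : L) (g : L) := by
  constructor
  · intro h
    obtain ⟨c, hc⟩ := isConj_iff.mp h
    have h1 : (c : L × W).1 * (a : L) * ((c : L × W).1)⁻¹ = (g : L) :=
      congrArg (fun x : fpr (p.comp π) πW => (x : L × W).1) hc
    have h2 : (c : L × W).2 * (z : W) * ((c : L × W).2)⁻¹ = 1 :=
      congrArg (fun x : fpr (p.comp π) πW => (x : L × W).2) hc
    refine ⟨?_, isConj_iff.mpr ⟨_, h1⟩⟩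
    apply Subtype.ext
    change (z : W) = 1
    rw [mul_inv_eq_one] at h2
    exact mul_eq_left.mp h2
  · rintro ⟨rfl, h⟩
    obtain ⟨c, hc⟩ := isConj_iff.mp h
    obtain ⟨w, hw⟩ := hW (p (π c))
    refine isConj_iff.mpr ⟨⟨(c, w), ?_⟩, ?_⟩
    · exact hw.symm
    · apply Subtype.ext
      apply Prod.ext
      · exact hc
      · change w * (1 : W) * w⁻¹ = 1
        rw [mul_one, mul_inv_cancel]

end

end FBA

theorem FBA_thm : Stmt_FBA := by
  intro L K H W _ _ _ _ _ _ _ _ 𝔐 ℓ _ _ _ π hπ hπc μ M _ p hp hM ω πW hW hWc ν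
  classical
  refine ⟨?_, ?_, ?_⟩
  · intro k
    obtain ⟨l, rfl⟩ := hπ k
    obtain ⟨w, hw⟩ := hW (p (π l))
    exact ⟨⟨(l, w), hw.symm⟩, rfl⟩
  · intro x hx
    rw [Subgroup.mem_center_iff]
    intro y
    have h1 := Subgroup.mem_center_iff.mp (hπc (kerY hx).1) (y : L × W).1
    have h2 := Subgroup.mem_center_iff.mp (hWc (kerY hx).2) (y : L × W).2
    exact Subtype.ext (Prod.ext h1 h2)
  · intro hpos θ' hirr hovl hdef hcen
    let e := FBA.eB π p M hM πW
    have hν : ∀ (a : ↥(M.comap π)) (z : πW.ker),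
        θ' (e (a, z)) = ((ν z : ℂˣ) : ℂ) * θ' (e (a, 1)) := by
      intro a z
      have hk : ((e (1, z) : ↥(M.comap (piY π p πW))) : fpr (p.comp π) πW) ∈
          (piY π p πW).ker := by
        change π (1 : L) = 1
        exact map_one π
      have h1 := hovl (e (1, z)) (e (a, 1)) hk
      rw [← map_mul] at h1
      have h2 : ((1, z) * (a, 1) : ↥(M.comap π) × πW.ker) = (a, z) := by
        apply Prod.ext
        · exact one_mul a
        · exact mul_one z
      rw [h2] at h1
      rw [h1]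
      have h3 : muY π p πW μ ν ⟨((e (1, z) : ↥(M.comap (piY π p πW))) : fpr (p.comp π) πW),
          hk⟩ = ν z := by
        change μ (1 : π.ker) * ν z = ν z
        rw [map_one, one_mul]
      rw [h3]
    have hirr2 : IsIrr (fun x => θ' (e x)) := hirr.comp_mulEquiv e
    have hchr : IsChr (fun a : ↥(M.comap π) => θ' (e (a, 1))) :=
      hirr.isChr.comp (e.toMonoidHom.comp (MonoidHom.inl ↥(M.comap π) πW.ker))
    have hsum := hirr2.sum_self
    have hθ : IsIrr (fun a : ↥(M.comap π) => θ' (e (a, 1))) := by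
      apply hchr.isIrr
      rw [Fintype.sum_prod_type] at hsum
      have h1 : ∀ a : ↥(M.comap π), ∑ z : πW.ker, θ' (e (a, z)) * θ' (e (a, z)⁻¹) =
          (Nat.card πW.ker : ℂ) * (θ' (e (a, 1)) * θ' (e (a⁻¹, 1))) := by
        intro a
        have h2 : ∀ z : πW.ker, θ' (e (a, z)) * θ' (e (a, z)⁻¹) =
            θ' (e (a, 1)) * θ' (e (a⁻¹, 1)) := by
          intro z
          have h3 : ((a, z)⁻¹ : ↥(M.comap π) × πW.ker) = (a⁻¹, z⁻¹) := rfl
          rw [h3, hν a z, hν a⁻¹ z⁻¹, map_inv]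
          have h4 : ((ν z : ℂˣ) : ℂ) * (((ν z)⁻¹ : ℂˣ) : ℂ) = 1 := by
            rw [← Units.val_mul, mul_inv_cancel, Units.val_one]
          linear_combination (θ' (e (a, 1)) * θ' (e (a⁻¹, 1))) * h4
        rw [Finset.sum_congr rfl fun z _ => h2 z, Finset.sum_const, Finset.card_univ,
          ← Nat.card_eq_fintype_card, nsmul_eq_mul]
      rw [Finset.sum_congr rfl fun a _ => h1 a, ← Finset.mul_sum, Nat.card_prod,
        Nat.cast_mul, mul_comm (Nat.card ↥(M.comap π) : ℂ)] at hsum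
      exact mul_left_cancel₀ natCard_ne_zero hsum
    refine hpos (fun a => θ' (e (a, 1))) hθ ?_ ?_ ?_
    · intro s t h
      have hk : ((e (s, 1) : ↥(M.comap (piY π p πW))) : fpr (p.comp π) πW) ∈
          (piY π p πW).ker := h
      have h1 := hovl (e (s, 1)) (e (t, 1)) hk
      rw [← map_mul] at h1
      have h2 : ((s, 1) * (t, 1) : ↥(M.comap π) × πW.ker) = (s * t, 1) := by
        apply Prod.ext
        · rfl
        · exact mul_one _
      rw [h2] at h1
      change θ' (e (s * t, 1)) = _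
      rw [h1]
      have h3 : muY π p πW μ ν ⟨((e (s, 1) : ↥(M.comap (piY π p πW))) : fpr (p.comp π) πW),
          hk⟩ = μ ⟨s, h⟩ := by
        change μ ⟨s, h⟩ * ν (1 : πW.ker) = μ ⟨s, h⟩
        rw [map_one, mul_one]
      rw [h3]
    · obtain ⟨n, hn, hn'⟩ := hdef
      refine ⟨n, ?_, ?_⟩
      · change θ' (e (1, 1)) = n
        have h1 : ((1, 1) : ↥(M.comap π) × πW.ker) = 1 := rfl
        rw [h1, map_one]
        exact hn
      · rw [← Nat.card_congr (FBA.eK π p πW), ← Nat.card_congr e.toEquiv, Nat.card_prod,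
          Nat.card_prod, padicValNat.mul Nat.card_pos.ne' Nat.card_pos.ne',
          padicValNat.mul Nat.card_pos.ne' Nat.card_pos.ne'] at hn'
        omega
    · intro g hg
      have h0 := hcen ((e (⟨g, hg⟩, 1) : ↥(M.comap (piY π p πW))) : fpr (p.comp π) πW)
        (e (⟨g, hg⟩, 1)).2
      have h1 : omY 𝔐 π p πW ν ω ((e (⟨g, hg⟩, 1) : ↥(M.comap (piY π p πW))) :
          fpr (p.comp π) πW) = ω g := by
        have h2 : ((((e (⟨g, hg⟩, 1) : ↥(M.comap (piY π p πW))) :
          fpr (p.comp π) πW)) : L × W).2 ∈ πW.ker := (1 : πW.ker).2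
        rw [omY, dif_pos h2]
        have h3 : ν ⟨((((e (⟨g, hg⟩, 1) : ↥(M.comap (piY π p πW))) :
          fpr (p.comp π) πW)) : L × W).2, h2⟩ = 1 := map_one ν
        rw [h3, Units.val_one, red_one, one_mul]
        rfl
      rw [h1] at h0
      rw [← h0, cen, cen]
      congr 1
      rw [wt, wt]
      have h2 : θ' 1 = θ' (e (1, 1)) := by
        have h1 : ((1, 1) : ↥(M.comap π) × πW.ker) = 1 := rfl
        rw [h1, map_one]
      rw [h2]
      congr 1
      rw [← Fintype.sum_equiv e.toEquiv (fun x => conjInd ((e x : ↥(M.comap (piY π p πW))) :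
          fpr (p.comp π) πW) ((e (⟨g, hg⟩, 1) : ↥(M.comap (piY π p πW))) :
          fpr (p.comp π) πW) * θ' (e x)) _ (fun x => rfl), Fintype.sum_prod_type]
      refine Finset.sum_congr rfl fun a _ => ?_
      rw [Finset.sum_eq_single (1 : πW.ker)]
      · congr 1
        refine conjInd_congr ?_
        rw [FBA.conj_iff π p M hM πW hW a 1 ⟨g, hg⟩]
        exact ⟨fun h => ⟨rfl, h⟩, fun h => h.2⟩
      · intro z _ hz
        have h3 : conjInd ((e (a, z) : ↥(M.comap (piY π p πW))) :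
          fpr (p.comp π) πW) ((e (⟨g, hg⟩, 1) : ↥(M.comap (piY π p πW))) :
          fpr (p.comp π) πW) = 0 := by
          rw [conjInd, if_neg]
          intro h
          exact hz ((FBA.conj_iff π p M hM πW hW a z ⟨g, hg⟩).mp h).1
        rw [h3, zero_mul]
      · intro h
        exact absurd (Finset.mem_univ _) h

end Pool.Agent.DPF
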