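import Mathlib
import Pool.Agent.DPF.Stmts
import Pool.Agent.DPM.PAIRS

/-!
# FBC: the numbers of the characters of the fibre product
-/

namespace Pool.Agent.DPF

open Pool.Agent.DP Pool.Agent.DPC Pool.Agent.DPM Pool.Agent.DPN Pool.Agent.Lib_helper13
  Representation
open Pool.Agent.Lib_helper13.Dade (pCore DadeHolds dadeSum)

namespace FBC

section Key

variable {A B Z Y : Type} [Group A] [Fintype A] [Group B] [Fintype B] [Group Z] [Fintype Z]
  [Group Y] [Fintype Y]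

theorem sum_lin (lam : Z → ℂ) (hl : ∀ c c', lam (c * c') = lam c * lam c') (ν : Z →* ℂˣ)
    {c₀ : Z} (h : lam c₀ ≠ ((ν c₀ : ℂˣ) : ℂ)) :
    ∑ c : Z, lam c * ((ν c⁻¹ : ℂˣ) : ℂ) = 0 := by
  have h1 : ∑ c : Z, lam c * ((ν c⁻¹ : ℂˣ) : ℂ) =
      (lam c₀ * ((ν c₀⁻¹ : ℂˣ) : ℂ)) * ∑ c : Z, lam c * ((ν c⁻¹ : ℂˣ) : ℂ) := by
    rw [Finset.mul_sum]
    refine (Equiv.sum_comp (Equiv.mulLeft c₀) _).symm.trans ?_
    refine Finset.sum_congr rfl fun c _ => ?_
    change lam (c₀ * c) * ((ν (c₀ * c)⁻¹ : ℂˣ) : ℂ) = _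
    rw [hl, mul_inv_rev, map_mul, Units.val_mul]
    ring
  have h2 : lam c₀ * ((ν c₀⁻¹ : ℂˣ) : ℂ) ≠ 1 := by
    intro h3
    apply h
    have h4 : ((ν c₀⁻¹ : ℂˣ) : ℂ) * ((ν c₀ : ℂˣ) : ℂ) = 1 := by
      rw [← Units.val_mul, ← map_mul, inv_mul_cancel, map_one, Units.val_one]
    calc lam c₀ = lam c₀ * (((ν c₀⁻¹ : ℂˣ) : ℂ) * ((ν c₀ : ℂˣ) : ℂ)) := by rw [h4, mul_one]
      _ = (lam c₀ * ((ν c₀⁻¹ : ℂˣ) : ℂ)) * ((ν c₀ : ℂˣ) : ℂ) := by ring
      _ = ((ν c₀ : ℂˣ) : ℂ) := by rw [h3, one_mul]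
  by_contra h5
  exact h2 (mul_right_cancel₀ h5 (by rw [one_mul]; exact h1.symm))

theorem ip_ne_zero_iff (f χ : B → ℂ) : ip f χ ≠ 0 ↔ ∑ b, f b * χ b⁻¹ ≠ 0 := by
  unfold ip
  constructor
  · intro h h1
    exact h (by rw [h1, zero_div])
  · intro h
    exact div_ne_zero h natCard_ne_zero

/-- The characters over a product of `θ` and a linear character. -/
theorem key (s : A →* B) (z : Z →* B)
    (hbij : Function.Bijective (fun x : A × Z => s x.1 * z x.2))
    (hcomm : ∀ a c, s a * z c = z c * s a) (jB : B →* Y)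
    (hcen : ∀ c y, jB (z c) * y = y * jB (z c)) (θ : A → ℂ) (ν : Z →* ℂˣ) (Θ : B → ℂ)
    (hΘ : ∀ a c, Θ (s a * z c) = θ a * ((ν c : ℂˣ) : ℂ)) {ψ : Y → ℂ} (hψ : IsIrr ψ) :
    ip (fun b => ψ (jB b)) Θ ≠ 0 ↔ ip (fun a => ψ (jB (s a))) θ ≠ 0 ∧
      ∀ c y, ψ (jB (z c) * y) = ((ν c : ℂˣ) : ℂ) * ψ y := by
  choose lam hlam0 hlam using fun c => PAIRS.central hψ (hcen c)
  have hmul : ∀ c c', lam (c * c') = lam c * lam c' := by
    intro c c'
    have h1 := hlam (c * c') 1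
    rw [map_mul, map_mul, mul_assoc, hlam c, hlam c', ← mul_assoc] at h1
    exact (mul_right_cancel₀ hψ.one_ne_zero h1).symm
  have hsum : ∑ b, ψ (jB b) * Θ b⁻¹ =
      (∑ c : Z, lam c * ((ν c⁻¹ : ℂˣ) : ℂ)) * ∑ a : A, ψ (jB (s a)) * θ a⁻¹ := by
    rw [← (Equiv.ofBijective _ hbij).sum_comp, Fintype.sum_prod_type, Finset.sum_comm,
      Finset.sum_mul]
    refine Finset.sum_congr rfl fun c _ => ?_
    rw [Finset.mul_sum]
    refine Finset.sum_congr rfl fun a _ => ?_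
    change ψ (jB (s a * z c)) * Θ (s a * z c)⁻¹ = _
    have h1 : (s a * z c)⁻¹ = s a⁻¹ * z c⁻¹ := by
      rw [mul_inv_rev, ← map_inv, ← map_inv, hcomm]
    rw [h1, hΘ, hcomm, map_mul, hlam]
    ring
  have hlin : (∑ c : Z, lam c * ((ν c⁻¹ : ℂˣ) : ℂ)) ≠ 0 ↔ ∀ c, lam c = ((ν c : ℂˣ) : ℂ) := by
    constructor
    · intro h c
      by_contra h1
      exact h (sum_lin lam hmul ν h1)
    · intro h
      have h1 : ∀ c : Z, lam c * ((ν c⁻¹ : ℂˣ) : ℂ) = 1 := by
        intro c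
        rw [h, ← Units.val_mul, ← map_mul, mul_inv_cancel, map_one, Units.val_one]
      rw [Finset.sum_congr rfl fun c _ => h1 c, Finset.sum_const, Finset.card_univ,
        nsmul_eq_mul, mul_one]
      exact_mod_cast Fintype.card_ne_zero
  have hiff : (∀ c, lam c = ((ν c : ℂˣ) : ℂ)) ↔
      ∀ c y, ψ (jB (z c) * y) = ((ν c : ℂˣ) : ℂ) * ψ y := by
    constructor
    · intro h c y
      rw [hlam, h]
    · intro h c
      have h1 := h c 1
      rw [hlam] at h1
      exact mul_right_cancel₀ hψ.one_ne_zero h1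
  rw [ip_ne_zero_iff, ip_ne_zero_iff, hsum, mul_ne_zero_iff, hlin, hiff, and_comm]

end Key

end FBC

theorem FBC_thm (h1 : Stmt_NUG) : Stmt_FBC := by
  classical
  intro L K H W _ _ _ _ _ _ _ _ 𝔐 ℓ _ hmax hℓ π hπ hπc μ M _ p hp hpM ω πW hπW hπWc ν ν' τ θ hθ
    hE V n
  obtain ⟨G, _, _, α, β, E, hfb, hex⟩ := hE
  haveI : Fintype G := Fintype.ofFinite G
  -- the embedding of `A`
  have hεe : ∀ a : ↥(SL π M τ M), ∃! g, α g = iSL π M τ a ∧ β g = 1 := by
    intro a
    apply hfb.ex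
    rw [map_one]
    exact (hpM _).mpr a.2.1
  choose ε0 hε0 hεu using hεe
  let ε : ↥(SL π M τ M) →* G := MonoidHom.mk' ε0 (by
    intro a b
    symm
    apply hεu (a * b)
    constructor
    · rw [map_mul, map_mul, (hε0 a).1, (hε0 b).1]
    · rw [map_mul, (hε0 a).2, (hε0 b).2, mul_one])
  have hker : ∀ t, pSL π p M τ t = 1 ↔ t ∈ (iSL π M τ).range := by
    intro t
    constructor
    · intro h
      have h2 : π (t : L) ∈ M := (hpM _).mp h
      exact ⟨⟨t, ⟨h2, t.2.2⟩⟩, rfl⟩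
    · rintro ⟨a, rfl⟩
      exact (hpM _).mpr a.2.1
  have hsj : Function.Surjective (pSL π p M τ) := by
    intro h
    obtain ⟨k, hk, hk'⟩ := hθ.sj h
    obtain ⟨l, rfl⟩ := hπ k
    exact ⟨⟨l, ⟨Subgroup.mem_top _, hk⟩⟩, hk'⟩
  have hN := h1 ↥(SL π M τ M) ↥(SL π M τ ⊤) H W G ℓ (iSL π M τ) (pSL π p M τ)
    (Subgroup.inclusion_injective _) hsj hker θ hθ.irr πW hπW α β hfb ν E hex ε
    (fun a => hε0 a) ν' V n
  rw [← hN]
  have hMV : M ≤ V.comap p := by
    intro k hk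
    change p k ∈ V
    rw [(hpM k).mpr hk]
    exact V.one_mem
  -- the isomorphism
  let e0 : ↥(V.comap (πW.comp β)) →* ↥(SL (piY π p πW) M τ (V.comap p)) :=
    MonoidHom.mk' (fun g => ⟨⟨(((α (g : G) : ↥(SL π M τ ⊤)) : L), β (g : G)), hfb.cm g⟩, by
      refine ⟨?_, (α (g : G)).2.2⟩
      change p (π ((α (g : G) : ↥(SL π M τ ⊤)) : L)) ∈ V
      have h2 : p (π ((α (g : G) : ↥(SL π M τ ⊤)) : L)) = πW (β (g : G)) := hfb.cm g
      rw [h2]
      exact g.2⟩) (by
      intro a b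
      apply Subtype.ext
      apply Subtype.ext
      apply Prod.ext
      · change ((α ((a : G) * b) : ↥(SL π M τ ⊤)) : L) = _
        rw [map_mul]
        rfl
      · change β ((a : G) * b) = _
        rw [map_mul]
        rfl)
  have he0 : Function.Bijective e0 := by
    constructor
    · intro a b hab
      have h2 : ((α (a : G) : ↥(SL π M τ ⊤)) : L) = ((α (b : G) : ↥(SL π M τ ⊤)) : L) :=
        congrArg (fun x : ↥(SL (piY π p πW) M τ (V.comap p)) =>
          ((x : fpr (p.comp π) πW) : L × W).1) hab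
      have h3 : β (a : G) = β (b : G) :=
        congrArg (fun x : ↥(SL (piY π p πW) M τ (V.comap p)) =>
          ((x : fpr (p.comp π) πW) : L × W).2) hab
      obtain ⟨g, _, hg⟩ := hfb.ex (α (b : G)) (β (b : G)) (hfb.cm b)
      have h4 := hg (a : G) ⟨Subtype.ext h2, h3⟩
      have h5 := hg (b : G) ⟨rfl, rfl⟩
      exact Subtype.ext (h4.trans h5.symm)
    · rintro ⟨⟨⟨l, w⟩, hy1⟩, hy2⟩
      have h2 : p (π l) = πW w := hy1
      have h3 : l ∈ SL π M τ ⊤ := ⟨Subgroup.mem_top _, hy2.2⟩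
      obtain ⟨g, hg, _⟩ := hfb.ex ⟨l, h3⟩ w h2
      have h4 : g ∈ V.comap (πW.comp β) := by
        change πW (β g) ∈ V
        rw [hg.2, ← h2]
        exact hy2.1
      refine ⟨⟨g, h4⟩, ?_⟩
      apply Subtype.ext
      apply Subtype.ext
      apply Prod.ext
      · exact congrArg Subtype.val hg.1
      · exact hg.2
  let e : ↥(V.comap (πW.comp β)) ≃* ↥(SL (piY π p πW) M τ (V.comap p)) :=
    MulEquiv.ofBijective e0 he0
  haveI : Fintype πW.ker := Fintype.ofFinite _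
  -- the two factors
  have hsm : ∀ a : ↥(SL π M τ M), ((a : L), (1 : W)) ∈ fpr (p.comp π) πW := by
    intro a
    change p (π (a : L)) = πW 1
    rw [map_one]
    exact (hpM _).mpr a.2.1
  let s : ↥(SL π M τ M) →* ↥(SL (piY π p πW) M τ M) :=
    MonoidHom.mk' (fun a => ⟨⟨((a : L), (1 : W)), hsm a⟩, a.2⟩) (by
      intro a b
      apply Subtype.ext
      apply Subtype.ext
      exact Prod.ext rfl (mul_one (1 : W)).symm)
  have hzm : ∀ c : πW.ker, ((1 : L), (c : W)) ∈ fpr (p.comp π) πW := by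
    intro c
    change p (π 1) = πW c
    rw [map_one, map_one]
    exact (MonoidHom.mem_ker.mp c.2).symm
  let z : πW.ker →* ↥(SL (piY π p πW) M τ M) :=
    MonoidHom.mk' (fun c => ⟨⟨((1 : L), (c : W)), hzm c⟩, by
      change π 1 ∈ M ⊓ stb (mapCh M.subtype τ)
      rw [map_one]
      exact Subgroup.one_mem _⟩) (by
      intro a b
      apply Subtype.ext
      apply Subtype.ext
      exact Prod.ext (mul_one (1 : L)).symm rfl)
  have hbij : Function.Bijective (fun x : ↥(SL π M τ M) × πW.ker => s x.1 * z x.2) := by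
    constructor
    · rintro ⟨a, c⟩ ⟨a', c'⟩ hab
      have h2 : (a : L) * 1 = (a' : L) * 1 :=
        congrArg (fun x : ↥(SL (piY π p πW) M τ M) =>
          ((x : fpr (p.comp π) πW) : L × W).1) hab
      have h3 : (1 : W) * c = 1 * c' :=
        congrArg (fun x : ↥(SL (piY π p πW) M τ M) =>
          ((x : fpr (p.comp π) πW) : L × W).2) hab
      rw [mul_one, mul_one] at h2
      rw [one_mul, one_mul] at h3
      exact Prod.ext (Subtype.ext h2) (Subtype.ext h3)
    · rintro ⟨⟨⟨l, w⟩, hy1⟩, hy2⟩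
      have h2 : p (π l) = πW w := hy1
      have h3 : l ∈ SL π M τ M := hy2
      have h4 : w ∈ πW.ker := by
        rw [MonoidHom.mem_ker, ← h2]
        exact (hpM _).mpr h3.1
      refine ⟨(⟨l, h3⟩, ⟨w, h4⟩), ?_⟩
      apply Subtype.ext
      apply Subtype.ext
      exact Prod.ext (mul_one l) (one_mul w)
  have hcomm : ∀ a c, s a * z c = z c * s a := by
    intro a c
    apply Subtype.ext
    apply Subtype.ext
    apply Prod.ext
    · change (a : L) * 1 = 1 * a
      rw [mul_one, one_mul]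
    · change (1 : W) * c = c * 1
      rw [mul_one, one_mul]
  let jB : ↥(SL (piY π p πW) M τ M) →* ↥(SL (piY π p πW) M τ (V.comap p)) :=
    Subgroup.inclusion (SL_mono (piY π p πW) M τ hMV)
  have hcen : ∀ c y, jB (z c) * y = y * jB (z c) := by
    intro c y
    apply Subtype.ext
    apply Subtype.ext
    apply Prod.ext
    · change 1 * ((y : fpr (p.comp π) πW) : L × W).1 = ((y : fpr (p.comp π) πW) : L × W).1 * 1
      rw [mul_one, one_mul]
    · change (c : W) * ((y : fpr (p.comp π) πW) : L × W).2 =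
        ((y : fpr (p.comp π) πW) : L × W).2 * c
      exact (Subgroup.mem_center_iff.mp (hπWc c.2) _).symm
  have hΘ : ∀ a c, thY π p M πW τ θ ν' (s a * z c) = θ a * ((ν' c : ℂˣ) : ℂ) := by
    intro a c
    have h2 : (((s a * z c : ↥(SL (piY π p πW) M τ M)) : fpr (p.comp π) πW) : L × W).2 =
        (c : W) := one_mul (c : W)
    have h3 : (((s a * z c : ↥(SL (piY π p πW) M τ M)) : fpr (p.comp π) πW) : L × W).1 =
        (a : L) := mul_one (a : L)
    have h4 : (((s a * z c : ↥(SL (piY π p πW) M τ M)) : fpr (p.comp π) πW) : L × W).2 ∈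
        πW.ker := by
      rw [h2]
      exact c.2
    unfold thY
    rw [dif_pos h4, h3, ext0_of_mem θ a.2]
    have h5 : (⟨_, h4⟩ : πW.ker) = c := Subtype.ext h2
    rw [h5]
  symm
  refine card_irr_equiv e _ _ ?_
  intro ψ hψ
  have hk := FBC.key s z hbij hcomm jB hcen θ ν' (thY π p M πW τ θ ν') hΘ hψ
  have hi1 : (fun a : ↥(SL (piY π p πW) M τ M) => ext0 ψ (a : fpr (p.comp π) πW)) =
      fun b => ψ (jB b) := by
    funext b
    have h2 : (b : fpr (p.comp π) πW) ∈ SL (piY π p πW) M τ (V.comap p) := (jB b).2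
    rw [ext0_of_mem ψ h2]
    rfl
  have hi2 : (fun a : ↥(SL π M τ M) =>
      ext0 (fun y : ↥(V.comap (πW.comp β)) => ψ (e y)) (ε a)) = fun a => ψ (jB (s a)) := by
    funext a
    have h2 : ε a ∈ V.comap (πW.comp β) := by
      change πW (β (ε0 a)) ∈ V
      rw [(hε0 a).2, map_one]
      exact V.one_mem
    rw [ext0_of_mem _ h2]
    congr 1
    apply Subtype.ext
    apply Subtype.ext
    apply Prod.ext
    · exact congrArg Subtype.val (hε0 a).1
    · exact (hε0 a).2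
  have hi3 : (∀ (z' : πW.ker) (g g' : ↥(V.comap (πW.comp β))), α (g' : G) = α (g : G) →
      β (g' : G) = z' * β (g : G) → ψ (e g') = ((ν' z' : ℂˣ) : ℂ) * ψ (e g)) ↔
      ∀ c y, ψ (jB (z c) * y) = ((ν' c : ℂˣ) : ℂ) * ψ y := by
    constructor
    · intro h c y
      obtain ⟨g, rfl⟩ := e.surjective y
      obtain ⟨g', hg'⟩ := e.surjective (jB (z c) * e g)
      rw [← hg']
      apply h c g g'
      · apply Subtype.ext
        have h2 := congrArg (fun x : ↥(SL (piY π p πW) M τ (V.comap p)) =>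
          ((x : fpr (p.comp π) πW) : L × W).1) hg'
        exact h2.trans (one_mul _)
      · exact congrArg (fun x : ↥(SL (piY π p πW) M τ (V.comap p)) =>
          ((x : fpr (p.comp π) πW) : L × W).2) hg'
    · intro h c g g' h2 h3
      rw [← h]
      congr 1
      apply Subtype.ext
      apply Subtype.ext
      apply Prod.ext
      · change ((α (g' : G) : ↥(SL π M τ ⊤)) : L) = 1 * ((α (g : G) : ↥(SL π M τ ⊤)) : L)
        rw [one_mul, h2]
      · exact h3
  rw [hi1, hi2, hi3, hk, hasDefect_comp_equiv e, and_assoc]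

end Pool.Agent.DPF
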