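import Pool.Agent.DPF.Stmts
import Pool.Agent.DPM.ISOL
import Pool.Agent.DPM.MXM
import Pool.Agent.DPN.FOU

/-!
# FOX: Fourier transform of the twisted relations
-/

namespace Pool.Agent.DPF

open Pool.Agent.DP Pool.Agent.DPC Pool.Agent.DPM Pool.Agent.DPN Pool.Agent.Lib_helper13
  Representation

namespace FOX

variable {W : Type} [Group W] [Fintype W]

open Classical in
/-- The sum over the linear characters of the central subgroup. -/
theorem sum_lin {A : Subgroup W} (hA : A ≤ Subgroup.center W) {S : Subgroup W} (hS : A ≤ S)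
    [Fintype (A →* ℂˣ)] {η : S → ℂ} (hη : IsIrr η) (ν : A →* ℂˣ) (a : A) :
    ∑ ν' : A →* ℂˣ, (((ν' a)⁻¹ : ℂˣ) : ℂ) * (if OvL A (ν * ν') S η then 1 else 0) =
      ((ν a : ℂˣ) : ℂ) * (ext0 η (a : W)⁻¹ / η 1) := by
  obtain ⟨κ, hκ⟩ := ISOL.exists_lin hA hS hη
  have h1 : ∀ ν' : A →* ℂˣ, OvL A (ν * ν') S η ↔ ν' = ν⁻¹ * κ := by
    intro ν'
    constructor
    · intro h
      have h0 := ISOL.lin_unique hS hη h hκ
      rw [← h0]
      exact (inv_mul_cancel_left ν ν').symm
    · intro h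
      have h0 : ν * (ν⁻¹ * κ) = κ := mul_inv_cancel_left ν κ
      rw [h, h0]
      exact hκ
  rw [Finset.sum_eq_single (ν⁻¹ * κ)]
  · rw [if_pos ((h1 _).mpr rfl), mul_one]
    have h2 : ext0 η (a : W)⁻¹ = ((κ a⁻¹ : ℂˣ) : ℂ) * η 1 := by
      have h3 : (a : W)⁻¹ ∈ S := S.inv_mem (hS a.2)
      rw [ext0_of_mem η h3]
      have h4 := hκ ⟨(a : W)⁻¹, h3⟩ 1 (A.inv_mem a.2)
      rw [mul_one] at h4
      exact h4
    rw [h2, mul_div_assoc, div_self hη.one_ne_zero, mul_one, ← Units.val_mul]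
    congr 1
    rw [MonoidHom.mul_apply, MonoidHom.inv_apply, map_inv, mul_inv, inv_inv]
  · intro ν' _ hne
    rw [if_neg (fun h => hne ((h1 ν').mp h)), mul_zero]
  · intro h
    exact absurd (Finset.mem_univ _) h

end FOX

open Classical in
theorem FOX_thm : Stmt_FOX := by
  intro W H ι _ _ _ _ _ ℓ _ π hker s d ν m hrel a n
  have : Finite (π.ker →* ℂˣ) := FOU.finite_hom _
  let _ : Fintype (π.ker →* ℂˣ) := Fintype.ofFinite _
  have hA : ∀ V : Subgroup H, π.ker ≤ V.comap π := by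
    intro V x hx
    rw [Subgroup.mem_comap, MonoidHom.mem_ker.mp hx]
    exact V.one_mem
  -- the relation with complex values
  have h1 : ∑ ν' : π.ker →* ℂˣ, (((ν' a)⁻¹ : ℂˣ) : ℂ) *
      ∑ i, (s i : ℂ) * ((PSM ℓ π m (ν i * ν') (d i) n : ℚ) : ℂ) = 0 := by
    refine Finset.sum_eq_zero fun ν' _ => ?_
    have h2 := congrArg (fun x : ℚ => (x : ℂ)) (hrel ν' n)
    simp only [Rat.cast_sum, Rat.cast_mul, Rat.cast_zero] at h2
    rw [h2, mul_zero]
  -- the count as a sum
  have h2 : ∀ i (ν' : π.ker →* ℂˣ), ((PSM ℓ π m (ν i * ν') (d i) n : ℚ) : ℂ) =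
      ∑ V, (m V : ℂ) * ((Nat.card V : ℂ) *
        ∑ η ∈ irrF (V.comap π) with (∃ e, HasDefect ℓ η e ∧ e + d i = n),
          (if OvL π.ker (ν i * ν') (V.comap π) η then (1 : ℂ) else 0)) := by
    intro i ν'
    unfold PSM
    rw [Rat.cast_sum]
    refine Finset.sum_congr rfl fun V _ => ?_
    rw [Rat.cast_mul, Rat.cast_mul, Rat.cast_natCast, Rat.cast_natCast]
    congr 2
    rw [MXM.card_irr (fun η => OvL π.ker (ν i * ν') _ η ∧ ∃ e, HasDefect ℓ η e ∧ e + d i = n),
      Finset.sum_ite, Finset.sum_const_zero, add_zero, Finset.sum_const, nsmul_eq_mul, mul_one,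
      Finset.filter_filter]
    congr 2
    ext η
    simp only [Finset.mem_filter]
    tauto
  -- exchange the sums
  have h3 : ∑ i, (s i : ℂ) * ∑ V, (m V : ℂ) * ((Nat.card V : ℂ) *
      ∑ η ∈ irrF (V.comap π) with (∃ e, HasDefect ℓ η e ∧ e + d i = n),
        ((ν i a : ℂˣ) : ℂ) * (ext0 η (a : W)⁻¹ / η 1)) = 0 := by
    refine Eq.trans ?_ h1
    symm
    simp only [h2, Finset.mul_sum]
    rw [Finset.sum_comm]
    refine Finset.sum_congr rfl fun i _ => ?_
    rw [Finset.sum_comm]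
    refine Finset.sum_congr rfl fun V _ => ?_
    rw [Finset.sum_comm]
    refine Finset.sum_congr rfl fun η hη => ?_
    rw [← FOX.sum_lin hker (hA V) (mem_irrF.mp (Finset.mem_filter.mp hη).1) (ν i) a]
    simp only [Finset.mul_sum]
    refine Finset.sum_congr rfl fun ν' _ => ?_
    ring
  -- the terms with `d i > n` vanish
  rw [Finset.sum_filter]
  refine Eq.trans (Finset.sum_congr rfl fun i _ => ?_) h3
  split_ifs with hi
  · unfold PHT
    rw [mul_assoc, Finset.mul_sum]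
    congr 1
    refine Finset.sum_congr rfl fun V _ => ?_
    have h4 : (irrF (V.comap π)).filter (fun η => ∃ e, HasDefect ℓ η e ∧ e + d i = n) =
        (irrF (V.comap π)).filter (fun η => HasDefect ℓ η (n - d i)) := by
      ext η
      simp only [Finset.mem_filter]
      constructor
      · rintro ⟨k1, e, k2, k3⟩
        have : e = n - d i := by omega
        exact ⟨k1, this ▸ k2⟩
      · rintro ⟨k1, k2⟩
        exact ⟨k1, n - d i, k2, by omega⟩
    rw [h4, ← Finset.mul_sum]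
    ring
  · symm
    rw [Finset.sum_eq_zero, mul_zero]
    intro V _
    rw [Finset.sum_eq_zero, mul_zero, mul_zero]
    intro η hη
    obtain ⟨-, e, -, he⟩ := Finset.mem_filter.mp hη
    omega

end Pool.Agent.DPF
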