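import Pool.Agent.DPF.Stmts
import Pool.Agent.DPN.FRO

/-!
# FRZ: Frobenius' formula with a central element
-/

namespace Pool.Agent.DPF.FRZ

open Pool.Agent.DP Pool.Agent.DPN Pool.Agent.Lib_helper13 Representation

variable {G : Type} [Group G] [Fintype G]

/-- The translate of a class function by a central element. -/
theorem wt_translate {χ f : G → ℂ} (hχ : IsIrr χ) (hf : ∀ g x, f (g * x * g⁻¹) = f x) (a : G) :
    wt χ (fun x => f (x * a)) = wt χ f * (χ a⁻¹ / χ 1) := by
  have h1 : ∑ y : G, f (y * a) * χ y = ∑ r : G, f r * χ (r * a⁻¹) := by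
    refine Fintype.sum_equiv (Equiv.mulRight a) _ _ fun y => ?_
    rw [Equiv.coe_mulRight, mul_inv_cancel_right]
  rw [wt, h1, FRO.scal hχ hf]
  ring

end Pool.Agent.DPF.FRZ

namespace Pool.Agent.DPF

open Pool.Agent.DP Pool.Agent.DPN Pool.Agent.Lib_helper13 Representation

/-- FRZ: Frobenius' formula with a central element. -/
theorem FRZ_thm : Stmt_FRZ := by
  classical
  intro G _ _ N _ Q hQ a ha hac
  have hcl : ∀ g x : G, (fun x => ed N Q (x * a)) (g * x * g⁻¹) = (fun x => ed N Q (x * a)) x := by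
    intro g x
    change ed N Q (g * x * g⁻¹ * a) = ed N Q (x * a)
    have h1 : g * x * g⁻¹ * a = g * (x * a) * g⁻¹ := by
      rw [mul_assoc (g * x), Subgroup.mem_center_iff.mp hac g⁻¹]
      simp only [mul_assoc]
    rw [h1, FRO.ed_conj N Q hQ]
  have h1 : ∀ x y : G,
      (if x * y * x⁻¹ * y⁻¹ ∈ N then ed N Q (x * y * x⁻¹ * y⁻¹ * a) else 0) =
      ed N Q (x * y * x⁻¹ * y⁻¹ * a) := by
    intro x y
    split_ifs with h
    · rfl
    · rw [FRO.ed_out N Q]
      intro h'
      apply h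
      have := N.mul_mem h' (N.inv_mem ha)
      rwa [mul_inv_cancel_right] at this
  have h3 := FRO.sum_comm_eq (fun x => ed N Q (x * a)) hcl
  have h4 : ∑ ψ ∈ irrF G, wt ψ (fun x => ed N Q (x * a)) =
      ∑ η ∈ irrF G with (∃ κ : N → ℂ, IsIrr κ ∧ Q κ ∧ ip (resj N.subtype η) κ ≠ 0),
        η a⁻¹ / η 1 := by
    rw [Finset.sum_filter]
    refine Finset.sum_congr rfl fun ψ hψ => ?_
    rw [FRZ.wt_translate (mem_irrF.mp hψ) (FRO.ed_conj N Q hQ) a,
      FRO.wt_edG N Q hQ (mem_irrF.mp hψ)]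
    split_ifs
    · rw [one_mul]
    · rw [zero_mul]
  rw [← h4, ← h3]
  exact Finset.sum_congr rfl fun x _ => Finset.sum_congr rfl fun y _ => (h1 x y).symm

end Pool.Agent.DPF
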