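import Pool.Agent.DPF.Stmts
import Pool.Agent.DPN.ABF

/-!
# Dade's conjecture: the Moebius sum for elements which do not generate
-/

namespace Pool.Agent.DPF

open Pool.Agent.DP Pool.Agent.DPC Pool.Agent.DPM Pool.Agent.DPN Pool.Agent.Lib_helper13
  Representation

namespace MBX

/-- The subgroup generated by two elements and `P` is everything iff its preimage is. -/
theorem top_iff {W H : Type} [Group W] [Group H] {π : W →* H} (hπ : Function.Surjective π)
    (P : Subgroup H) (x y : W) :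
    Subgroup.closure {x, y} ⊔ P.comap π = ⊤ ↔ Subgroup.closure {π x, π y} ⊔ P = ⊤ := by
  have h1 : (Subgroup.closure {x, y} ⊔ P.comap π).map π = Subgroup.closure {π x, π y} ⊔ P := by
    rw [Subgroup.map_sup, MonoidHom.map_closure, Set.image_pair,
      Subgroup.map_comap_eq_self_of_surjective hπ]
  constructor
  · intro h
    rw [← h1, h, ← MonoidHom.range_eq_map, MonoidHom.range_eq_top.mpr hπ]
  · intro h
    have h2 : π.ker ≤ Subgroup.closure {x, y} ⊔ P.comap π :=
      le_trans (Subgroup.comap_mono bot_le) le_sup_right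
    rw [← Subgroup.comap_map_eq_self h2, h1, h, Subgroup.comap_top]

theorem le_iff {H : Type} [Group H] (P V : Subgroup H) (x y : H) :
    Subgroup.closure {x, y} ⊔ P ≤ V ↔ P ≤ V ∧ x ∈ V ∧ y ∈ V := by
  rw [sup_le_iff, Subgroup.closure_le, Set.insert_subset_iff, Set.singleton_subset_iff, and_comm]
  rfl

end MBX

theorem MBX_thm : Stmt_MBX := by
  classical
  intro W H _ _ _ _ π hπ P m hm x y
  refine ⟨fun hne g => ?_, ?_⟩
  · have h0 : Subgroup.closure {π x, π y} ⊔ P ≠ ⊤ := fun h => hne ((MBX.top_iff hπ P x y).mpr h)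
    have h1 := ABF.mobC hm h0 (fun V => if π x ∈ V ∧ π y ∈ V then g (V ⊓ P) else 0)
    refine Eq.trans (Finset.sum_congr rfl fun V _ => ?_) h1
    have hx : π x ∈ Subgroup.closure {π x, π y} ⊔ P :=
      (le_sup_left : _ ≤ _ ⊔ P) (Subgroup.subset_closure (Set.mem_insert _ _))
    have hy : π y ∈ Subgroup.closure {π x, π y} ⊔ P :=
      (le_sup_left : _ ≤ _ ⊔ P) (Subgroup.subset_closure (Set.mem_insert_of_mem _ rfl))
    have h2 : (V ⊓ (Subgroup.closure {π x, π y} ⊔ P)) ⊓ P = V ⊓ P := by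
      rw [inf_assoc, inf_eq_right.mpr (le_sup_right : P ≤ Subgroup.closure {π x, π y} ⊔ P)]
    simp only [Subgroup.mem_inf, hx, hy, and_true, h2]
  · have h1 := hm (Subgroup.closure {π x, π y} ⊔ P)
    have h2 : ((∑ V with Subgroup.closure {π x, π y} ⊔ P ≤ V, m V : ℚ) : ℂ) =
        if Subgroup.closure {π x, π y} ⊔ P = ⊤ then 1 else 0 := by
      rw [h1]
      split_ifs
      · exact Rat.cast_one
      · exact Rat.cast_zero
    rw [Rat.cast_sum, Finset.sum_filter] at h2
    refine Eq.trans (Finset.sum_congr rfl fun V _ => ?_) (h2.trans ?_)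
    · by_cases h : P ≤ V ∧ π x ∈ V ∧ π y ∈ V
      · rw [if_pos h, if_pos ((MBX.le_iff P V (π x) (π y)).mpr h)]
      · rw [if_neg h, if_neg (fun h' => h ((MBX.le_iff P V (π x) (π y)).mp h'))]
    · by_cases h : Subgroup.closure {x, y} ⊔ P.comap π = ⊤
      · rw [if_pos h, if_pos ((MBX.top_iff hπ P x y).mp h)]
      · rw [if_neg h, if_neg (fun h' => h ((MBX.top_iff hπ P x y).mpr h'))]

end Pool.Agent.DPF
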