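import Mathlib
import Pool.Agent.DPF.Stmts
import Pool.Agent.DP.GALL
import Pool.Agent.DP.COSET
import Pool.Agent.DP.SUMM

/-!
# NUG: the characters of the fibre product over `θ` and over a linear character of the kernel
-/

namespace Pool.Agent.DPF

open Pool.Agent.DP Pool.Agent.DPC Pool.Agent.DPM Pool.Agent.DPN Pool.Agent.Lib_helper13
  Representation
open Pool.Agent.Lib_helper13.Dade (pCore DadeHolds dadeSum)

namespace NUG

section Frame

variable {A T K : Type} [Group A] [Group T] [Group K] {j : A →* T} {c : T →* MulAut A}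
  {p : T →* K}

/-- The conjugation action on a normal subgroup. -/
theorem exists_clG (hj : Function.Injective j) (hp : ∀ y, p y = 1 ↔ y ∈ j.range) :
    ∃ c : T →* MulAut A, ClG j c p := by
  have hn : j.range.Normal := by
    have h1 : j.range = p.ker := by
      ext y
      rw [MonoidHom.mem_ker, hp]
    rw [h1]
    infer_instance
  refine ⟨(MulAut.congr (MonoidHom.ofInjective hj).symm).toMonoidHom.comp
    (MulAut.conjNormal (H := j.range)), hj, ?_, hp⟩
  intro y a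
  have h2 : ∀ b : j.range, j ((MonoidHom.ofInjective hj).symm b) = (b : T) := by
    intro b
    have h3 : MonoidHom.ofInjective hj ((MonoidHom.ofInjective hj).symm b) = b :=
      MulEquiv.apply_symm_apply _ _
    exact congrArg Subtype.val h3
  have h4 : (((MulAut.congr (MonoidHom.ofInjective hj).symm).toMonoidHom.comp
    (MulAut.conjNormal (H := j.range))) y) a = (MonoidHom.ofInjective hj).symm
      (MulAut.conjNormal y (MonoidHom.ofInjective hj a)) := rfl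
  rw [h4, h2, MulAut.conjNormal_apply]
  rfl

/-- The embedding of the normal subgroup in the inverse image of `V`. -/
def jV (h : ClG j c p) (V : Subgroup K) : A →* ↥(V.comap p) :=
  j.codRestrict _ (fun a => by
    change p (j a) ∈ V
    rw [(h.ker _).mpr ⟨a, rfl⟩]
    exact V.one_mem)

theorem clG_V (h : ClG j c p) (V : Subgroup K) :
    ClG (jV h V) (c.comp (V.comap p).subtype) (p.subgroupComap V) where
  inj := by
    intro a b hab
    exact h.inj (congrArg Subtype.val hab)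
  act := fun y a => Subtype.ext (h.act (y : T) a)
  ker := by
    intro y
    constructor
    · intro h1
      have h2 : p (y : T) = 1 := congrArg Subtype.val h1
      obtain ⟨a, ha⟩ := (h.ker (y : T)).mp h2
      exact ⟨a, Subtype.ext ha⟩
    · rintro ⟨a, rfl⟩
      exact Subtype.ext ((h.ker _).mpr ⟨a, rfl⟩)

theorem surj_V (V : Subgroup K) (hp : Function.Surjective p) :
    Function.Surjective (p.subgroupComap V) := by
  intro v
  obtain ⟨t, ht⟩ := hp (v : K)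
  refine ⟨⟨t, ?_⟩, Subtype.ext ht⟩
  change p t ∈ V
  rw [ht]
  exact v.2

variable [Fintype A] [Fintype T] [Fintype K]

/-- The characters of an inverse image over an extendible character. -/
theorem count (h : ClG j c p) (hp : Function.Surjective p) {θ : A → ℂ} {E : T → ℂ}
    (hθ : IsIrr θ) (hE : IsChr E) (hEθ : ∀ a, E (j a) = θ a) (V : Subgroup K)
    (P : (↥(V.comap p) → ℂ) → Prop) (Q : (V → ℂ) → Prop)
    (hPQ : ∀ ζ : V → ℂ, IsIrr ζ → (P (fun y => E y * ζ (p.subgroupComap V y)) ↔ Q ζ)) :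
    Nat.card {ψ : ↥(V.comap p) → ℂ // IsIrr ψ ∧ ip (fun a : A => ext0 ψ (j a)) θ ≠ 0 ∧ P ψ} =
      Nat.card {ζ : V → ℂ // IsIrr ζ ∧ Q ζ} := by
  classical
  have hf : Fintype ↥(V.comap p) := Fintype.ofFinite _
  have hf' : Fintype V := Fintype.ofFinite _
  obtain ⟨g1, g2, g3⟩ := GALL_thm COSET_thm SUMM_thm A ↥(V.comap p) V (jV h V)
    (c.comp (V.comap p).subtype) (p.subgroupComap V) (clG_V h V) (surj_V V hp) θ
    (fun y => E (y : T)) hθ (hE.comp (V.comap p).subtype) hEθ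
  have hres : ∀ ψ : ↥(V.comap p) → ℂ, (fun a : A => ext0 ψ (j a)) = resj (jV h V) ψ := by
    intro ψ
    funext a
    have h1 : j a ∈ V.comap p := (jV h V a).2
    rw [ext0_of_mem ψ h1]
    rfl
  symm
  refine Nat.card_congr (Equiv.ofBijective (fun ζ => ⟨fun y => E (y : T) *
    ζ.1 (p.subgroupComap V y), (g1 ζ.1 ζ.2.1).1, ?_, ?_⟩) ⟨?_, ?_⟩)
  · rw [hres]
    exact (g1 ζ.1 ζ.2.1).2
  · exact (hPQ ζ.1 ζ.2.1).mpr ζ.2.2
  · intro ζ ζ' hζ
    exact Subtype.ext (g2 ζ.1 ζ'.1 ζ.2.1 ζ'.2.1 (congrArg Subtype.val hζ))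
  · rintro ⟨ψ, hψ, hψ1, hψ2⟩
    rw [hres] at hψ1
    obtain ⟨η, hη, rfl⟩ := g3 ψ hψ hψ1
    exact ⟨⟨η, hη, (hPQ η hη).mp hψ2⟩, rfl⟩

/-- The defects add. -/
theorem defect {ℓ : ℕ} [Fact ℓ.Prime] (h : ClG j c p) (hp : Function.Surjective p) {θ : A → ℂ}
    {E : T → ℂ} (hθ : IsIrr θ) (hEθ : ∀ a, E (j a) = θ a) (V : Subgroup K) (ζ : V → ℂ)
    (hζ : IsIrr ζ) (n : ℕ) :
    HasDefect ℓ (fun y : ↥(V.comap p) => E y * ζ (p.subgroupComap V y)) n ↔
      ∃ e a, HasDefect ℓ ζ e ∧ HasDefect ℓ θ a ∧ e + a = n := by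
  classical
  have hf : Fintype ↥(V.comap p) := Fintype.ofFinite _
  have hf' : Fintype V := Fintype.ofFinite _
  obtain ⟨m, hm, hm'⟩ := hθ.exists_degree
  obtain ⟨k, hk, hk'⟩ := hζ.exists_degree
  have h1 : E ((1 : ↥(V.comap p)) : T) = m := by
    rw [← hm', ← hEθ 1, map_one]
    rfl
  have h2 : E ((1 : ↥(V.comap p)) : T) * ζ (p.subgroupComap V 1) = ((m * k : ℕ) : ℂ) := by
    rw [h1, map_one, hk']
    push_cast
    ring
  have hc : Nat.card ↥(V.comap p) = Nat.card A * Nat.card V := by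
    have h3 : (Nat.card ↥(V.comap p) : ℂ) = Nat.card A * Nat.card V :=
      GALL.card_eq (clG_V h V) (surj_V V hp)
    exact_mod_cast h3
  have hv : padicValNat ℓ (Nat.card ↥(V.comap p)) =
      padicValNat ℓ (Nat.card A) + padicValNat ℓ (Nat.card V) := by
    rw [hc, padicValNat.mul Nat.card_pos.ne' Nat.card_pos.ne']
  have hmk : padicValNat ℓ (m * k) = padicValNat ℓ m + padicValNat ℓ k :=
    padicValNat.mul hm.ne' hk.ne'
  constructor
  · rintro ⟨N, hN, hN'⟩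
    have hNe : N = m * k := by
      have h3 : ((m * k : ℕ) : ℂ) = (N : ℂ) := h2.symm.trans hN
      exact_mod_cast h3.symm
    obtain ⟨e, he⟩ := hζ.exists_defect (ℓ := ℓ)
    obtain ⟨a, ha⟩ := hθ.exists_defect (ℓ := ℓ)
    refine ⟨e, a, he, ha, ?_⟩
    obtain ⟨k', hk1, hk2⟩ := he
    obtain ⟨m', hm1, hm2⟩ := ha
    have hkk : k' = k := by
      have h3 : (k' : ℂ) = k := hk1.symm.trans hk'
      exact_mod_cast h3
    have hmm : m' = m := by
      have h3 : (m' : ℂ) = m := hm1.symm.trans hm'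
      exact_mod_cast h3
    rw [hkk] at hk2
    rw [hmm] at hm2
    rw [hNe] at hN'
    omega
  · rintro ⟨e, a, ⟨k', hk1, hk2⟩, ⟨m', hm1, hm2⟩, hn⟩
    have hkk : k' = k := by
      have h3 : (k' : ℂ) = k := hk1.symm.trans hk'
      exact_mod_cast h3
    have hmm : m' = m := by
      have h3 : (m' : ℂ) = m := hm1.symm.trans hm'
      exact_mod_cast h3
    rw [hkk] at hk2
    rw [hmm] at hm2
    refine ⟨m * k, h2, ?_⟩
    omega

end Frame

end NUG

theorem NUG_thm : Stmt_NUG := by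
  classical
  intro A T H W G _ _ _ _ _ _ _ _ _ _ ℓ _ i p hi hp hk θ hθ π hπ α β hF ν E hE ε hε ν' V n
  have hεinj : Function.Injective ε := by
    intro a b hab
    apply hi
    rw [← (hε a).1, ← (hε b).1, hab]
  have hker : ∀ g, β g = 1 ↔ g ∈ ε.range := by
    intro g
    constructor
    · intro hg
      have h1 : p (α g) = 1 := by rw [hF.cm, hg, map_one]
      obtain ⟨a, ha⟩ := (hk _).mp h1
      refine ⟨a, ?_⟩
      have h2 : p (i a) = π 1 := by
        rw [map_one, (hk _).mpr ⟨a, rfl⟩]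
      obtain ⟨g₀, -, hg₀⟩ := hF.ex (i a) 1 h2
      rw [hg₀ (ε a) (hε a), hg₀ g ⟨ha.symm, hg⟩]
    · rintro ⟨a, rfl⟩
      exact (hε a).2
  obtain ⟨c, hc⟩ := NUG.exists_clG hεinj hker
  have hβ : Function.Surjective β := by
    intro w
    obtain ⟨t, ht⟩ := hp (π w)
    obtain ⟨g, hg, -⟩ := hF.ex t w ht
    exact ⟨g, hg.2⟩
  have hEθ : ∀ a, E (ε a) = θ a := fun a => hE.Ee a _ (hε a).1 (hε a).2
  have hne : ∀ g : G, ∃ g₁ : G, β g₁ = β g ∧ E g₁ ≠ 0 := by
    intro g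
    by_contra hcon
    push Not at hcon
    have h1 := COSET_thm A G W ε c β hc θ E hθ hE.Ec hEθ g
    rw [Finset.sum_eq_zero] at h1
    · exact natCard_ne_zero (H := A) h1.symm
    · intro a _
      rw [hcon (g * ε a) (by rw [map_mul, (hε a).2, mul_one]), zero_mul]
  have key := NUG.count hc hβ hθ hE.Ec hEθ (V.comap π)
    (fun ψ => (∀ (z : π.ker) (g g' : ↥(V.comap (π.comp β))), α (g' : G) = α (g : G) →
      β (g' : G) = z * β (g : G) → ψ g' = ((ν' z : ℂˣ) : ℂ) * ψ g) ∧ HasDefect ℓ ψ n)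
    (fun η => OvL π.ker (ν * ν') _ η ∧ ∃ e a, HasDefect ℓ η e ∧ HasDefect ℓ θ a ∧ e + a = n) ?_
  · exact key
  intro ζ hζ
  refine and_congr ?_ (NUG.defect hc hβ hθ hEθ (V.comap π) ζ hζ n)
  constructor
  · intro h s t hs
    obtain ⟨g₀, hg₀⟩ := hβ (t : W)
    obtain ⟨g, hg, hEg⟩ := hne g₀
    rw [hg₀] at hg
    have hs1 : π (s : W) = 1 := hs
    have h1 : p (α g) = π ((s : W) * t) := by
      rw [hF.cm, hg, map_mul, hs1, one_mul]
    obtain ⟨g', ⟨hg'1, hg'2⟩, -⟩ := hF.ex _ _ h1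
    have hgV : g ∈ (V.comap π).comap β := by
      change π (β g) ∈ V
      rw [hg]
      exact t.2
    have hgV' : g' ∈ (V.comap π).comap β := by
      change π (β g') ∈ V
      rw [hg'2, map_mul, hs1, one_mul]
      exact t.2
    have hb : β g' = ((⟨(s : W), hs⟩ : π.ker) : W) * β g := by
      rw [hg'2, hg]
    have h2 := h ⟨(s : W), hs⟩ ⟨g, hgV⟩ ⟨g', hgV'⟩ hg'1 hb
    have h3 := hE.El ⟨(s : W), hs⟩ g g' hg'1 hb
    have h4 : β.subgroupComap (V.comap π) ⟨g, hgV⟩ = t := Subtype.ext hg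
    have h5 : β.subgroupComap (V.comap π) ⟨g', hgV'⟩ = s * t := Subtype.ext hg'2
    have h6 : E g' * ζ (s * t) = ((ν' ⟨(s : W), hs⟩ : ℂˣ) : ℂ) * (E g * ζ t) := by
      rw [← h5]
      conv_rhs => rw [← h4]
      exact h2
    have h7 : (((ν * ν') ⟨(s : W), hs⟩ : ℂˣ) : ℂ) =
        ((ν ⟨(s : W), hs⟩ : ℂˣ) : ℂ) * ((ν' ⟨(s : W), hs⟩ : ℂˣ) : ℂ) := rfl
    rw [h7]
    apply mul_left_cancel₀ hEg
    calc E g * ζ (s * t) = ((ν ⟨(s : W), hs⟩ : ℂˣ) : ℂ) * (E g' * ζ (s * t)) := by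
          rw [← h3]; ring
      _ = _ := by rw [h6]; ring
  · intro h z g g' h1 h2
    have hz : π (z : W) = 1 := z.2
    have hzV : (z : W) ∈ V.comap π := by
      change π (z : W) ∈ V
      rw [hz]
      exact V.one_mem
    have h3 := hE.El z g g' h1 h2
    have h4 : β.subgroupComap (V.comap π) g' = ⟨(z : W), hzV⟩ *
      β.subgroupComap (V.comap π) g := Subtype.ext h2
    have h5 := h ⟨(z : W), hzV⟩ (β.subgroupComap (V.comap π) g) z.2
    change E g' * ζ (β.subgroupComap (V.comap π) g') = ((ν' z : ℂˣ) : ℂ) *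
      (E g * ζ (β.subgroupComap (V.comap π) g))
    have h7 : (((ν * ν') z : ℂˣ) : ℂ) = ((ν z : ℂˣ) : ℂ) * ((ν' z : ℂˣ) : ℂ) := rfl
    rw [h4, h5]
    have h8 : (((ν * ν') ⟨((⟨(z : W), hzV⟩ : ↥(V.comap π)) : W), z.2⟩ : ℂˣ) : ℂ) =
        ((ν z : ℂˣ) : ℂ) * ((ν' z : ℂˣ) : ℂ) := rfl
    rw [h8, ← h3]
    ring

end Pool.Agent.DPF
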