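import Mathlib
import Pool.Agent.DPN.Base
import Pool.Agent.DPF.Stmts

/-!
# NUM: the characters of `T` over `θ`
-/

set_option autoImplicit false

namespace Pool.Agent.DPF

open Pool.Agent.DP Pool.Agent.DPC Pool.Agent.DPM Pool.Agent.DPN Pool.Agent.Lib_helper13
  Representation
open Pool.Agent.Lib_helper13.Dade (pCore DadeHolds dadeSum)

namespace NUM

variable {A T H W G : Type} [Group A] [Fintype A] [Group T] [Fintype T] [Group H] [Fintype H]
  [Group W] [Fintype W] [Group G] [Fintype G] {α : G →* T} {β : G →* W} {p : T →* H} {π : W →* H}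

omit [Fintype A] [Fintype T] [Fintype H] [Fintype W] [Fintype G] in
theorem exists_eps (h : FbP α β p π) (i : A →* T) (hp : ∀ a, p (i a) = 1) :
    ∃ ε : A →* G, ∀ a, α (ε a) = i a ∧ β (ε a) = 1 := by
  have h1 : ∀ a, p (i a) = π 1 := fun a => by rw [hp, map_one]
  choose e he he' using fun a => h.ex (i a) 1 (h1 a)
  refine ⟨MonoidHom.mk' e ?_, fun a => he a⟩
  intro a b
  symm
  refine he' (a * b) (e a * e b) ⟨?_, ?_⟩
  · rw [map_mul, map_mul, (he a).1, (he b).1]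
  · rw [map_mul, (he a).2, (he b).2, one_mul]

omit [Fintype A] [Fintype T] [Fintype H] [Fintype W] [Fintype G] in
theorem mem_iff (h : FbP α β p π) (V : Subgroup H) (g : G) :
    α g ∈ V.comap p ↔ g ∈ V.comap (π.comp β) := by
  rw [Subgroup.mem_comap, Subgroup.mem_comap, MonoidHom.comp_apply, h.cm]

/-- The restriction of `α`. -/
def aV (h : FbP α β p π) (V : Subgroup H) : ↥(V.comap (π.comp β)) →* ↥(V.comap p) :=
  (α.comp (V.comap (π.comp β)).subtype).codRestrict (V.comap p)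
    (fun g => (mem_iff h V g).2 g.2)

omit [Fintype A] [Fintype T] [Fintype H] [Fintype W] [Fintype G] in
theorem aV_val (h : FbP α β p π) (V : Subgroup H) (g : ↥(V.comap (π.comp β))) :
    ((aV h V g : ↥(V.comap p)) : T) = α g := rfl

omit [Fintype A] [Fintype T] [Fintype H] [Fintype W] [Fintype G] in
theorem aV_surj (h : FbP α β p π) (hπ : Function.Surjective π) (V : Subgroup H) :
    Function.Surjective (aV h V) := by
  rintro ⟨t, ht⟩
  obtain ⟨w, hw⟩ := hπ (p t)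
  obtain ⟨g, ⟨h1, h2⟩, _⟩ := h.ex t w hw.symm
  refine ⟨⟨g, (mem_iff h V g).1 (by rw [h1]; exact ht)⟩, ?_⟩
  exact Subtype.ext h1

omit [Fintype A] [Fintype T] [Fintype H] [Fintype W] [Fintype G] in
theorem aV_ker (h : FbP α β p π) (V : Subgroup H) :
    Nat.card (aV h V).ker = Nat.card π.ker := by
  have h0 : ∀ g : G, α g = 1 → π (β g) = 1 := fun g hg => by rw [← h.cm, hg, map_one]
  refine Nat.card_congr (Equiv.ofBijective (fun z => ⟨β ((z : ↥(V.comap (π.comp β))) : G),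
    h0 _ (congrArg Subtype.val ((MonoidHom.mem_ker).1 z.2))⟩) ⟨?_, ?_⟩)
  · intro x y hxy
    have h1 : β ((x : ↥(V.comap (π.comp β))) : G) = β ((y : ↥(V.comap (π.comp β))) : G) :=
      congrArg Subtype.val hxy
    have hx : α ((x : ↥(V.comap (π.comp β))) : G) = 1 :=
      congrArg Subtype.val ((MonoidHom.mem_ker).1 x.2)
    have hy : α ((y : ↥(V.comap (π.comp β))) : G) = 1 :=
      congrArg Subtype.val ((MonoidHom.mem_ker).1 y.2)
    obtain ⟨g, _, hg⟩ := h.ex 1 (β ((x : ↥(V.comap (π.comp β))) : G)) (by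
      rw [map_one, h0 _ hx])
    have h2 := hg _ ⟨hx, rfl⟩
    have h3 := hg _ ⟨hy, h1.symm⟩
    apply Subtype.ext
    apply Subtype.ext
    rw [h2, h3]
  · rintro ⟨w, hw⟩
    obtain ⟨g, ⟨h1, h2⟩, _⟩ := h.ex 1 w (by rw [map_one, (MonoidHom.mem_ker).1 hw])
    have h3 : g ∈ V.comap (π.comp β) := by
      rw [Subgroup.mem_comap, MonoidHom.comp_apply, h2, (MonoidHom.mem_ker).1 hw]
      exact V.one_mem
    refine ⟨⟨⟨g, h3⟩, ?_⟩, Subtype.ext h2⟩
    rw [MonoidHom.mem_ker]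
    exact Subtype.ext h1

omit [Fintype A] [Fintype T] [Fintype H] [Fintype W] in
theorem inv_nu {i : A →* T} {θ : A → ℂ} (hθ : IsIrr θ) (hp : Function.Surjective p)
    (h : FbP α β p π) {ν : π.ker →* ℂˣ} {E : G → ℂ} (hE : EXW i θ α β π ν E) (w : W)
    (z z' : π.ker) (hz : (z' : W) = w * z * w⁻¹) : ν z' = ν z := by
  obtain ⟨t, ht⟩ := hp (π w)
  obtain ⟨g₀, ⟨_, h1⟩, _⟩ := h.ex t w ht
  obtain ⟨g₁, ⟨h2, h3⟩, _⟩ := h.ex 1 (z : W) (by rw [map_one, (MonoidHom.mem_ker).1 z.2])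
  have h4 := hE.El z 1 g₁ (by rw [h2, map_one]) (by rw [h3, map_one, mul_one])
  have h5 := hE.El z' 1 (g₀ * g₁ * g₀⁻¹)
    (by rw [map_mul, map_mul, map_inv, h2, map_one, mul_one, mul_inv_cancel])
    (by rw [map_mul, map_mul, map_inv, h1, h3, map_one, mul_one, hz])
  rw [hE.Ec.conj_eq g₀ g₁] at h5
  have h6 : E 1 = θ 1 := hE.Ee 1 1 (by rw [map_one, map_one]) (map_one β)
  have h7 : E 1 ≠ 0 := by
    rw [h6]
    obtain ⟨n, hn, hn'⟩ := hθ.exists_degree
    rw [hn']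
    exact_mod_cast hn.ne'
  have h8 : E g₁ ≠ 0 := by
    intro h9
    rw [h9, mul_zero] at h4
    exact h7 h4.symm
  have h9 : ((ν z' : ℂˣ) : ℂ) = ((ν z : ℂˣ) : ℂ) :=
    mul_right_cancel₀ h8 (h5.trans h4.symm)
  exact Units.ext h9

end NUM

/-- **NUM** -/
theorem NUM_thm (h1 : Stmt_NUG) : Stmt_NUM := by
  classical
  intro A T H W G _ _ _ _ _ _ _ _ _ _ ℓ _ i p hi hp hpi θ hθ π hπ α β hF ν E hE
  refine ⟨fun w z z' hz => NUM.inv_nu hθ hp hF hE w z z' hz, fun V d => ?_⟩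
  have hpa : ∀ a, p (i a) = 1 := fun a => (hpi _).2 ⟨a, rfl⟩
  obtain ⟨ε, hε⟩ := NUM.exists_eps hF i hpa
  have h2 := h1 A T H W G ℓ i p hi hp hpi θ hθ π hπ α β hF ν E hE ε hε 1 V
    (d + padicValNat ℓ (Nat.card π.ker))
  have hν : ν * (1 : π.ker →* ℂˣ) = ν := by
    ext z
    simp
  rw [hν] at h2
  rw [← h2]
  have hsurj := NUM.aV_surj hF hπ V
  have hip : ∀ ψ : ↥(V.comap p) → ℂ,
      (fun a : A => ext0 (fun g => ψ (NUM.aV hF V g)) (ε a)) = fun a : A => ext0 ψ (i a) := by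
    intro ψ
    funext a
    have h3 : i a ∈ V.comap p := by
      rw [Subgroup.mem_comap, hpa]
      exact V.one_mem
    have h4 : ε a ∈ V.comap (π.comp β) := (NUM.mem_iff hF V _).1 (by rw [(hε a).1]; exact h3)
    rw [ext0_of_mem _ h4, ext0_of_mem _ h3]
    exact congrArg ψ (Subtype.ext (hε a).1)
  have hdef : ∀ ψ : ↥(V.comap p) → ℂ,
      HasDefect ℓ (fun g => ψ (NUM.aV hF V g)) (d + padicValNat ℓ (Nat.card π.ker)) ↔
        HasDefect ℓ ψ d := by
    intro ψ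
    rw [← NUM.aV_ker hF V]
    exact QINF.defect_inf (NUM.aV hF V) ℓ hsurj ψ d
  refine Nat.card_congr (Equiv.ofBijective (fun ψ => ⟨fun g => ψ.1 (NUM.aV hF V g),
    QINF.irr_inf _ hsurj ψ.2.1, ?_, ?_, (hdef ψ.1).2 ψ.2.2.2⟩) ⟨?_, ?_⟩)
  · rw [hip]
    exact ψ.2.2.1
  · intro z g g' h3 h4
    rw [MonoidHom.one_apply, Units.val_one, one_mul]
    exact congrArg ψ.1 (Subtype.ext h3)
  · intro ψ₁ ψ₂ h3
    apply Subtype.ext
    funext y
    obtain ⟨x, rfl⟩ := hsurj y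
    exact congrFun (congrArg Subtype.val h3) x
  · rintro ⟨ψ', h3, h4, h5, h6⟩
    obtain ⟨ψ, h7, h8⟩ := QINF.exists_inf (NUM.aV hF V) hsurj h3 (by
      intro x y hxy
      have h9 : α (x : G) = 1 := congrArg Subtype.val hxy
      have h10 : β (x : G) ∈ π.ker := by
        rw [MonoidHom.mem_ker, ← hF.cm, h9, map_one]
      have h11 := h5 ⟨β (x : G), h10⟩ y (x * y)
        (by
          show α ((x : G) * (y : G)) = _
          rw [map_mul, h9, one_mul])
        (by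
          show β ((x : G) * (y : G)) = _
          rw [map_mul])
      rw [MonoidHom.one_apply, Units.val_one, one_mul] at h11
      exact h11)
    subst h8
    refine ⟨⟨ψ, h7, ?_, (hdef ψ).1 h6⟩, rfl⟩
    rw [← hip ψ]
    exact h4

end Pool.Agent.DPF
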