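import Pool.Agent.DPF.Stmts

set_option autoImplicit false

/-!
# NUW: the numbers of characters from the extension
-/

namespace Pool.Agent.DPF

open Pool.Agent.DP Pool.Agent.DPC Pool.Agent.DPM Pool.Agent.DPN Pool.Agent.Lib_helper13
  Representation

namespace NUW

variable {L K H : Type} [Group L] [Group K] [Group H]

theorem mem_iff (π : L →* K) (M : Subgroup K) (p : K →* H) (τ : Finset (Subgroup M))
    (V : Subgroup H) (x : L) :
    x ∈ SL π M τ (V.comap p) ↔ ∃ h : x ∈ SL π M τ ⊤, (⟨x, h⟩ : ↥(SL π M τ ⊤)) ∈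
      V.comap (pSL π p M τ) := by
  constructor
  · intro hx
    exact ⟨SL_mono π M τ le_top hx, hx.1⟩
  · rintro ⟨h, hV⟩
    exact ⟨hV, h.2⟩

/-- The two models of the inverse image. -/
noncomputable def eqv (π : L →* K) (M : Subgroup K) (p : K →* H) (τ : Finset (Subgroup M))
    (V : Subgroup H) : ↥(SL π M τ (V.comap p)) ≃* ↥(V.comap (pSL π p M τ)) where
  toFun x := ⟨⟨x.1, SL_mono π M τ le_top x.2⟩, ((mem_iff π M p τ V x.1).mp x.2).2⟩
  invFun y := ⟨y.1.1, (mem_iff π M p τ V y.1.1).mpr ⟨y.1.2, y.2⟩⟩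
  left_inv _ := rfl
  right_inv _ := rfl
  map_mul' _ _ := rfl

theorem ext0_eqv (π : L →* K) (M : Subgroup K) (p : K →* H) (τ : Finset (Subgroup M))
    (V : Subgroup H) (ψ : ↥(V.comap (pSL π p M τ)) → ℂ) (a : ↥(SL π M τ M)) :
    ext0 (fun y => ψ (eqv π M p τ V y)) (a : L) = ext0 ψ (iSL π M τ a) := by
  by_cases h : (a : L) ∈ SL π M τ (V.comap p)
  · have h2 : iSL π M τ a ∈ V.comap (pSL π p M τ) := ((mem_iff π M p τ V (a : L)).mp h).2
    rw [ext0_of_mem _ h, ext0_of_mem _ h2]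
    rfl
  · have h2 : iSL π M τ a ∉ V.comap (pSL π p M τ) := fun hc =>
      h ((mem_iff π M p τ V (a : L)).mpr ⟨SL_mono π M τ le_top a.2, hc⟩)
    rw [ext0_of_not_mem _ h, ext0_of_not_mem _ h2]

end NUW

open NUW in
theorem NUW_thm (h1 : Stmt_NUM) : Stmt_NUW := by
  intro L K H W _ _ _ _ _ _ _ _ 𝔐 ℓ _ π hπ μ M _ p hp ω πW hπW τ θ ν hPr hED
  obtain ⟨G, gG, fG, α, β, E, hFb, hEX⟩ := hED
  letI := gG
  haveI := fG
  letI : Fintype G := Fintype.ofFinite G
  have hinj : Function.Injective (iSL π M τ) := Subgroup.inclusion_injective _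
  have hsurj : Function.Surjective (pSL π p M τ) := by
    intro h
    obtain ⟨k, hk, rfl⟩ := hPr.sj h
    obtain ⟨l, rfl⟩ := hπ k
    exact ⟨⟨l, Subgroup.mem_top _, hk⟩, rfl⟩
  have hker : ∀ t, pSL π p M τ t = 1 ↔ t ∈ (iSL π M τ).range := by
    intro t
    constructor
    · intro h
      have h2 : π (t : L) ∈ M := (hp _).mp h
      exact ⟨⟨(t : L), h2, t.2.2⟩, Subtype.ext rfl⟩
    · rintro ⟨a, rfl⟩
      exact (hp _).mpr a.2.1
  have key := h1 ↥(SL π M τ M) ↥(SL π M τ ⊤) H W G ℓ (iSL π M τ) (pSL π p M τ) hinj hsurj hker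
    θ hPr.irr πW hπW α β hFb ν E hEX
  refine ⟨key.1, fun V d => ?_⟩
  rw [← key.2 V d]
  refine card_irr_equiv (eqv π M p τ V) _ _ fun ψ _ => ?_
  have h3 : (fun a : ↥(SL π M τ M) => ext0 (fun y => ψ (eqv π M p τ V y)) (a : L)) =
      fun a => ext0 ψ (iSL π M τ a) := funext (ext0_eqv π M p τ V ψ)
  rw [h3, hasDefect_comp_equiv]

end Pool.Agent.DPF
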