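import Mathlib
import Pool.Agent.DPF.Stmts
import Pool.Agent.DPM.MXM

/-!
# PS3: the sums over the chains of `M` vanish for the subgroups which contain `M`
-/

set_option autoImplicit false

namespace Pool.Agent.DPF

open Pool.Agent.DP Pool.Agent.DPC Pool.Agent.DPM Pool.Agent.DPN Pool.Agent.Lib_helper13
  Representation
open Pool.Agent.Lib_helper13.Dade (pCore DadeHolds dadeSum)

namespace PS3

/-- A subgroup `B` of `T` is isomorphic to the subgroup `A` of `G` with the same elements. -/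
def subE {G : Type} [Group G] {T A : Subgroup G} {B : Subgroup T} (hAT : A ≤ T)
    (h : ∀ x : T, x ∈ B ↔ (x : G) ∈ A) : B ≃* A where
  toFun x := ⟨x.1.1, (h x.1).1 x.2⟩
  invFun y := ⟨⟨y.1, hAT y.2⟩, (h _).2 y.2⟩
  left_inv _ := rfl
  right_inv _ := rfl
  map_mul' _ _ := rfl

theorem sylAb {H : Type} [Group H] {ℓ : ℕ} {P : Subgroup H} (hP : SylAb ℓ P) (V : Subgroup H) :
    SylAb ℓ (P.subgroupOf V) := by
  have := hP.nrm
  refine ⟨inferInstance, ?_, ?_, ?_⟩
  · exact hP.pgr.comap_of_injective V.subtype V.subtype_injective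
  · intro h
    exact hP.idx (h.trans (Subgroup.relIndex_dvd_index_of_normal P V))
  · intro x y
    exact hP.abl x y

open Classical in
/-- The function which agrees with `c` on `N` and vanishes outside `N`. -/
noncomputable def rsN {Y k : Type} [Group Y] [Zero k] (N : Subgroup Y) (c : Y → k) (y : Y) : k :=
  if y ∈ N then c y else 0

theorem rsN_of_mem {Y k : Type} [Group Y] [Zero k] {N : Subgroup Y} (c : Y → k) {y : Y}
    (h : y ∈ N) : rsN N c y = c y := if_pos h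

theorem rsN_of_notMem {Y k : Type} [Group Y] [Zero k] {N : Subgroup Y} (c : Y → k) {y : Y}
    (h : y ∉ N) : rsN N c y = 0 := if_neg h

/-- A function which vanishes outside `N`. -/
theorem rsN_eq_iff {Y k : Type} [Group Y] [Zero k] {N : Subgroup Y} {c c' ω : Y → k}
    (hω : ω = rsN N c') : rsN N c = ω ↔ ∀ g ∈ N, c g = ω g := by
  constructor
  · intro h g hg
    rw [← h, rsN_of_mem c hg]
  · intro h
    funext g
    by_cases hg : g ∈ N
    · rw [rsN_of_mem c hg, h g hg]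
    · rw [rsN_of_notMem c hg, hω, rsN_of_notMem c' hg]

/-- The pairing with the class of an element of `M` depends only on the values on `N`. -/
theorem pair_rsN {X Y : Type} [Group X] [Group Y] [Fintype Y]
    (𝔐 : Ideal (integralClosure ℤ ℂ)) (i : Y →* X) (M : Subgroup X) [hM : M.Normal]
    (N : Subgroup Y) (hN : ∀ y, i y ∈ M → y ∈ N) {g : X} (hg : g ∈ M)
    (c : Y → (integralClosure ℤ ℂ) ⧸ 𝔐) :
    pair 𝔐 (fun y => conjInd (i y) g) (rsN N c) = pair 𝔐 (fun y => conjInd (i y) g) c := by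
  unfold pair
  refine finsum_congr fun C => ?_
  by_cases hC : C.out ∈ N
  · rw [rsN_of_mem c hC]
  · have h1 : conjInd (i C.out) g = 0 := by
      rw [conjInd, if_neg]
      intro h
      apply hC
      apply hN
      obtain ⟨x, hx⟩ := isConj_iff.1 h.symm
      rw [← hx]
      exact hM.conj_mem g hg x
    have h2 : red 𝔐 (0 : ℂ) = 0 := by
      have := red_zero 𝔐
      exact this
    change red 𝔐 (conjInd (i C.out) g) * _ = red 𝔐 (conjInd (i C.out) g) * _
    rw [h1, h2, zero_mul, zero_mul]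

open Classical in
theorem card_split {S β : Type} [Group S] [Fintype S] (f : (S → ℂ) → β)
    (Q1 Q2 R : (S → ℂ) → Prop) (F : Finset β)
    (h : ∀ ψ : S → ℂ, IsIrr ψ → (R ψ ↔ f ψ ∈ F)) :
    Nat.card {ψ : S → ℂ // IsIrr ψ ∧ Q1 ψ ∧ Q2 ψ ∧ R ψ} =
      ∑ b ∈ F, Nat.card {ψ : S → ℂ // IsIrr ψ ∧ Q1 ψ ∧ Q2 ψ ∧ f ψ = b} := by
  rw [MXM.card_irr (fun ψ => Q1 ψ ∧ Q2 ψ ∧ R ψ)]
  rw [Finset.card_eq_sum_card_fiberwise (f := f) (t := F)]
  · refine Finset.sum_congr rfl fun b hb => ?_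
    rw [MXM.card_irr (fun ψ => Q1 ψ ∧ Q2 ψ ∧ f ψ = b)]
    congr 1
    ext ψ
    simp only [Finset.mem_filter, mem_irrF]
    constructor
    · rintro ⟨⟨h1, h2, h3, h5⟩, h4⟩
      exact ⟨h1, h2, h3, h4⟩
    · rintro ⟨h1, h2, h3, h4⟩
      exact ⟨⟨h1, h2, h3, (h ψ h1).2 (h4 ▸ hb)⟩, h4⟩
  · intro ψ hψ
    have hψ' := Finset.mem_coe.1 hψ
    rw [Finset.mem_filter, mem_irrF] at hψ'
    exact Finset.mem_coe.2 ((h ψ hψ'.1).1 hψ'.2.2.2)

section Sub

variable {L K : Type} [Group L] [Group K] (π : L →* K) (M S : Subgroup K)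

theorem ker_le : π.ker ≤ S.comap π := by
  intro x hx
  rw [Subgroup.mem_comap, (show π x = 1 from hx)]
  exact S.one_mem

/-- The kernel of the projection of the inverse image of `S`. -/
def kerE : (π.subgroupComap S).ker ≃* π.ker :=
  subE (ker_le π S) fun x => by
    rw [MonoidHom.mem_ker, MonoidHom.mem_ker]
    constructor
    · intro h
      exact congrArg Subtype.val h
    · intro h
      exact Subtype.ext h

/-- The linear character of the kernel of the projection of the inverse image of `S`. -/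
def muS (μ : π.ker →* ℂˣ) : (π.subgroupComap S).ker →* ℂˣ :=
  μ.comp (kerE π S).toMonoidHom

theorem muS_apply (μ : π.ker →* ℂˣ) (z : (π.subgroupComap S).ker) (h : ((z : ↥(S.comap π)) : L) ∈ π.ker) :
    muS π S μ z = μ ⟨((z : ↥(S.comap π)) : L), h⟩ := rfl

/-- `OvL` for a subgroup of the inverse image of `S`. -/
theorem ovl_iff (μ : π.ker →* ℂˣ) {A : Subgroup L} {B : Subgroup ↥(S.comap π)}
    (hAT : A ≤ S.comap π) (h : ∀ x : ↥(S.comap π), x ∈ B ↔ (x : L) ∈ A) (ψ : A → ℂ) :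
    OvL (π.subgroupComap S).ker (muS π S μ) B (fun y => ψ (subE hAT h y)) ↔
      OvL π.ker μ A ψ := by
  constructor
  · intro h1 s t hs
    have h2 := h1 ((subE hAT h).symm s) ((subE hAT h).symm t) (by
      rw [MonoidHom.mem_ker]
      exact Subtype.ext hs)
    exact h2
  · intro h1 s t hs
    have h2 := h1 (subE hAT h s) (subE hAT h t) (congrArg Subtype.val hs)
    rw [← map_mul] at h2
    exact h2

/-- The isomorphism of `M` as a subgroup of `S` and `M`. -/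
def eM (hMS : M ≤ S) : ↥(M.subgroupOf S) ≃* M :=
  subE hMS fun _ => Iff.rfl

theorem mapCh_eq (hMS : M ≤ S) (τ : Finset (Subgroup ↥(M.subgroupOf S))) :
    mapCh S.subtype (mapCh (M.subgroupOf S).subtype τ) =
      mapCh M.subtype (mapCh (eM M S hMS).toMonoidHom τ) := by
  rw [mapCh_comp, mapCh_comp]
  rfl

theorem mem_stb_iff (hMS : M ≤ S) (τ : Finset (Subgroup ↥(M.subgroupOf S))) (x : S) :
    x ∈ (⊤ : Subgroup S) ⊓ stb (mapCh (M.subgroupOf S).subtype τ) ↔
      (x : K) ∈ S ⊓ stb (mapCh M.subtype (mapCh (eM M S hMS).toMonoidHom τ)) := by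
  rw [← mapCh_eq, ← comap_stb_mapCh (i := S.subtype) S.subtype_injective]
  constructor
  · intro h
    exact ⟨x.2, h.2⟩
  · intro h
    exact ⟨trivial, h.2⟩

theorem mem_SL_iff (hMS : M ≤ S) (τ : Finset (Subgroup ↥(M.subgroupOf S)))
    (x : ↥(S.comap π)) : x ∈ SL (π.subgroupComap S) (M.subgroupOf S) τ ⊤ ↔
      (x : L) ∈ SL π M (mapCh (eM M S hMS).toMonoidHom τ) S :=
  mem_stb_iff M S hMS τ (π.subgroupComap S x)

theorem SL_le (τ : Finset (Subgroup M)) : SL π M τ S ≤ S.comap π :=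
  Subgroup.comap_mono inf_le_left

variable [Fintype L] [Fintype K]

open Classical in
/-- The sum over the chains for `S` is a sum of sums over the chains for the group `S`. -/
theorem split (𝔐 : Ideal (integralClosure ℤ ℂ)) (ℓ d : ℕ) [hMn : M.Normal] (hMS : M ≤ S)
    (μ : π.ker →* ℂˣ) (ω : L → (integralClosure ℤ ℂ) ⧸ 𝔐) :
    ∃ F : Finset (↥(S.comap π) → (integralClosure ℤ ℂ) ⧸ 𝔐),
      (∀ ω' ∈ F, (∃ c, ω' = rsN ((M.subgroupOf S).comap (π.subgroupComap S)) c) ∧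
        ∀ g ∈ M.comap π, pair 𝔐 (fun y => conjInd ((S.comap π).subtype y) g) ω' = ω g) ∧
      PHU 𝔐 ℓ d π μ M S ω =
        ∑ ω' ∈ F, PHU 𝔐 ℓ d (π.subgroupComap S) (muS π S μ) (M.subgroupOf S) ⊤ ω' := by
  let N : Subgroup ↥(S.comap π) := (M.subgroupOf S).comap (π.subgroupComap S)
  let Call : Finset (↥(S.comap π) → (integralClosure ℤ ℂ) ⧸ 𝔐) :=
    (Ch ℓ (⊥ : Subgroup ↥(M.subgroupOf S))).biUnion fun τ =>
      (irrF ↥(SL (π.subgroupComap S) (M.subgroupOf S) τ ⊤)).image fun ψ =>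
        rsN N (cen 𝔐 (SL (π.subgroupComap S) (M.subgroupOf S) τ ⊤).subtype ψ)
  let F : Finset (↥(S.comap π) → (integralClosure ℤ ℂ) ⧸ 𝔐) :=
    Call.filter fun ω' => ∀ g ∈ M.comap π,
      pair 𝔐 (fun y => conjInd ((S.comap π).subtype y) g) ω' = ω g
  have hF : ∀ ω' ∈ F, (∃ c, ω' = rsN N c) ∧
        ∀ g ∈ M.comap π, pair 𝔐 (fun y => conjInd ((S.comap π).subtype y) g) ω' = ω g := by
    intro ω' hω'
    obtain ⟨h1, h2⟩ := Finset.mem_filter.1 hω'
    obtain ⟨τ, -, h3⟩ := Finset.mem_biUnion.1 h1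
    obtain ⟨ψ, -, h4⟩ := Finset.mem_image.1 h3
    exact ⟨⟨_, h4.symm⟩, h2⟩
  refine ⟨F, hF, ?_⟩
  unfold PHU
  rw [Finset.sum_comm]
  have hb : (⊥ : Subgroup M) = (⊥ : Subgroup ↥(M.subgroupOf S)).map (eM M S hMS).toMonoidHom :=
    Subgroup.map_bot _ |>.symm
  rw [hb, sum_Ch_equiv]
  refine Finset.sum_congr rfl fun τ hτ => ?_
  rw [← Finset.mul_sum, ← Finset.mul_sum]
  rw [card_mapCh (i := (eM M S hMS).toMonoidHom) (eM M S hMS).injective]
  have hc : Nat.card ↥(S ⊓ stb (mapCh M.subtype (mapCh (eM M S hMS).toMonoidHom τ))) =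
      Nat.card ↥((⊤ : Subgroup S) ⊓ stb (mapCh (M.subgroupOf S).subtype τ)) :=
    (Nat.card_congr (subE inf_le_left (mem_stb_iff M S hMS τ)).toEquiv).symm
  rw [hc, ← Nat.cast_sum]
  congr 3
  rw [← card_irr_equiv (subE (SL_le π M S _) (mem_SL_iff π M S hMS τ))
    (fun ψ => OvL (π.subgroupComap S).ker (muS π S μ) _ ψ ∧ HasDefect ℓ ψ d ∧
      ∀ g ∈ M.comap π, cen 𝔐 ((S.comap π).subtype.comp
        (SL (π.subgroupComap S) (M.subgroupOf S) τ ⊤).subtype) ψ g = ω g)]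
  · rw [card_split (fun ψ => rsN N
      (cen 𝔐 (SL (π.subgroupComap S) (M.subgroupOf S) τ ⊤).subtype ψ)) _ _ _ F]
    · refine Finset.sum_congr rfl fun ω' hω' => ?_
      obtain ⟨⟨c, hc⟩, -⟩ := hF ω' hω'
      refine Nat.card_congr (Equiv.subtypeEquivRight fun ψ => ?_)
      rw [rsN_eq_iff hc]
    · intro ψ hψ
      rw [Finset.mem_filter]
      have h3 : ∀ g ∈ M.comap π, cen 𝔐 ((S.comap π).subtype.comp
          (SL (π.subgroupComap S) (M.subgroupOf S) τ ⊤).subtype) ψ g =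
          pair 𝔐 (fun y => conjInd ((S.comap π).subtype y) g) (rsN N
            (cen 𝔐 (SL (π.subgroupComap S) (M.subgroupOf S) τ ⊤).subtype ψ)) := by
        intro g hg
        rw [pair_rsN 𝔐 (S.comap π).subtype (M.comap π) N (fun y hy => hy) hg]
        exact MXM.cen_comp 𝔐 _ _ hψ g
      constructor
      · intro h1
        refine ⟨Finset.mem_biUnion.2 ⟨τ, hτ, Finset.mem_image_of_mem _ (mem_irrF.2 hψ)⟩,
          fun g hg => ?_⟩
        rw [← h3 g hg]
        exact h1 g hg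
      · rintro ⟨-, h1⟩ g hg
        rw [h3 g hg]
        exact h1 g hg
  · intro ψ hψ
    rw [ovl_iff, hasDefect_comp_equiv]
    have h4 := cen_comp_equiv 𝔐 (subE (SL_le π M S _) (mem_SL_iff π M S hMS τ))
      (SL π M (mapCh (eM M S hMS).toMonoidHom τ) S).subtype ψ
    rw [← h4]
    rfl

omit [Fintype K] in
/-- The central functions which occur are positive. -/
theorem pos (𝔐 : Ideal (integralClosure ℤ ℂ)) (ℓ : ℕ) [hMn : M.Normal] (hMS : M ≤ S)
    (μ : π.ker →* ℂˣ) (ω : L → (integralClosure ℤ ℂ) ⧸ 𝔐) (hω : Pos 𝔐 ℓ π μ M ω)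
    (ω' : ↥(S.comap π) → (integralClosure ℤ ℂ) ⧸ 𝔐)
    (h1 : ∃ c, ω' = rsN ((M.subgroupOf S).comap (π.subgroupComap S)) c)
    (h2 : ∀ g ∈ M.comap π, pair 𝔐 (fun y => conjInd ((S.comap π).subtype y) g) ω' = ω g) :
    Pos 𝔐 ℓ (π.subgroupComap S) (muS π S μ) (M.subgroupOf S) ω' := by
  intro θ hθ hO hd hc
  obtain ⟨c, hc'⟩ := h1
  have hT : M.comap π ≤ S.comap π := Subgroup.comap_mono hMS
  let e : ↥((M.subgroupOf S).comap (π.subgroupComap S)) ≃* ↥(M.comap π) :=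
    subE hT fun _ => Iff.rfl
  have he : (fun y => (fun x => θ (e.symm x)) (e y)) = θ := by
    funext y
    exact congrArg θ (e.symm_apply_apply y)
  refine hω (fun x => θ (e.symm x)) (hθ.comp_mulEquiv e.symm) ?_ ?_ ?_
  · rw [← ovl_iff π S μ (B := (M.subgroupOf S).comap (π.subgroupComap S)) hT (fun _ => Iff.rfl)]
    exact hO
  · rw [← hasDefect_comp_equiv e, he, ← Nat.card_congr (kerE π S).toEquiv]
    exact hd
  · intro g hg
    rw [← h2 g hg, ← (rsN_eq_iff hc').2 hc,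
      pair_rsN 𝔐 (S.comap π).subtype (M.comap π) _ (fun y hy => hy) hg,
      ← MXM.cen_comp 𝔐 (S.comap π).subtype _ hθ g]
    have h4 := cen_comp_equiv 𝔐 e (M.comap π).subtype (fun x => θ (e.symm x))
    rw [he] at h4
    rw [← h4]
    rfl

end Sub

end PS3

open PS3 in
/-- PS3: the sum over the chains of a normal subgroup vanishes for the subgroups which
contain `M`. -/
theorem PS3_thm (h1 : Stmt_PS2) : Stmt_PS3 := by
  intro L K H _ _ _ _ _ _ 𝔐 ℓ _ h𝔐 hℓ π hπ hZ μ M _ p hp hpM P hP ω hω V hV d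
  have hMS : M ≤ V.comap p := fun x hx => by
    rw [Subgroup.mem_comap, (hpM x).2 hx]
    exact V.one_mem
  classical
  obtain ⟨F, hF, hsum⟩ := split π M (V.comap p) 𝔐 ℓ d hMS μ ω
  rw [hsum]
  refine Finset.sum_eq_zero fun ω' hω' => ?_
  obtain ⟨h2, h3⟩ := hF ω' hω'
  refine h1 ↥((V.comap p).comap π) ↥(V.comap p) ↥V 𝔐 ℓ h𝔐 hℓ (π.subgroupComap (V.comap p)) ?_
    ?_ (muS π (V.comap p) μ) hV (M.subgroupOf (V.comap p)) (p.subgroupComap V) ?_ ?_
    (P.subgroupOf V) (sylAb hP V) ω' (pos π M (V.comap p) 𝔐 ℓ hMS μ ω hω ω' h2 h3) d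
  · intro y
    obtain ⟨x, hx⟩ := hπ y
    refine ⟨⟨x, ?_⟩, Subtype.ext hx⟩
    rw [Subgroup.mem_comap, hx]
    exact y.2
  · intro z hz
    rw [Subgroup.mem_center_iff]
    intro g
    have h4 : (z : L) ∈ π.ker := congrArg Subtype.val hz
    exact Subtype.ext ((Subgroup.mem_center_iff.1 (hZ h4)) g)
  · intro y
    obtain ⟨x, hx⟩ := hp y
    refine ⟨⟨x, ?_⟩, Subtype.ext hx⟩
    rw [Subgroup.mem_comap, hx]
    exact y.2
  · intro k
    rw [Subgroup.mem_subgroupOf, ← hpM]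
    constructor
    · intro h
      exact congrArg Subtype.val h
    · intro h
      exact Subtype.ext h

end Pool.Agent.DPF
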