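import Mathlib
import Pool.Agent.DPF.Stmts
import Pool.Agent.DPM.MOBX

/-!
# T2A: the relations between the linear characters, from Dade's conjecture
-/

namespace Pool.Agent.DPF

open Pool.Agent.DP Pool.Agent.DPC Pool.Agent.DPM Pool.Agent.DPN Pool.Agent.Lib_helper13
  Representation
open Pool.Agent.Lib_helper13.Dade (pCore DadeHolds dadeSum)

namespace T2A

theorem sum_coe {α M : Type*} [AddCommMonoid M] (J : Finset α) (f : α → M) :
    ∑ i : ↥J, f i = ∑ i ∈ J, f i := Finset.sum_coe_sort J f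

end T2A

open Classical in
theorem T2A_thm (h1 : Stmt_T2R) (h2 : Stmt_T2F) : Stmt_T2A := by
  intro L K H W _ _ _ _ _ _ _ _ 𝔐 ℓ _ hmax hmem π hπ hc μ M _ p hp hk P hP hQ ω hpos πW hπW hcW
    ν hν
  obtain ⟨⟨m, hm⟩, -⟩ := MOBX_thm H
  have hR := h1 L K H W 𝔐 ℓ hmax hmem π hπ hc μ M p hp hk P hP hQ ω hpos πW hπW hcW ν hν m hm
  intro a ha n
  set J : Finset (Σ τ : Finset (Subgroup M), (↥(SL π M τ M) → ℂ)) :=
    (Ch ℓ (⊥ : Subgroup M)).sigma
      (fun τ => (irrF (SL π M τ M)).filter (fun θ => PrU 𝔐 π μ p M ω τ θ)) with hJ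
  have hJm : ∀ x : ↥J, PrU 𝔐 π μ p M ω x.1.1 x.1.2 := by
    intro x
    exact (Finset.mem_filter.1 (Finset.mem_sigma.1 x.2).2).2
  have hdef : ∀ x : ↥J, ∃ d, HasDefect ℓ x.1.2 d := fun x => (hJm x).irr.exists_defect
  choose d hd using hdef
  have hF := h2 W H ↥J ℓ πW hπW hcW P hP
    (fun x => (-1 : ℚ) ^ x.1.1.card * (Nat.card ↥(M ⊓ stb (mapCh M.subtype x.1.1)) : ℚ)) d
    (fun x => ν x.1.1 x.1.2) m hm ?_ a ha n
  · rw [Finset.sum_filter] at hF
    have h3 : ∀ x : ↥J, (if d x = n then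
        (((-1 : ℚ) ^ x.1.1.card * (Nat.card ↥(M ⊓ stb (mapCh M.subtype x.1.1)) : ℚ) : ℚ) : ℂ) *
          ((ν x.1.1 x.1.2 a : ℂˣ) : ℂ) else 0) =
        (if HasDefect ℓ x.1.2 n then (-1 : ℂ) ^ x.1.1.card *
          ((Nat.card ↥(M ⊓ stb (mapCh M.subtype x.1.1)) : ℂ) *
            ((ν x.1.1 x.1.2 a : ℂˣ) : ℂ)) else 0) := by
      intro x
      have h4 : d x = n ↔ HasDefect ℓ x.1.2 n := by
        constructor
        · intro h
          rw [← h]
          exact hd x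
        · intro h
          exact (hd x).unique h
      by_cases h5 : d x = n
      · rw [if_pos h5, if_pos (h4.1 h5)]
        push_cast
        ring
      · rw [if_neg h5, if_neg (fun h => h5 (h4.2 h))]
    rw [Finset.sum_congr rfl (fun x _ => h3 x)] at hF
    rw [T2A.sum_coe J (fun x => if HasDefect ℓ x.2 n then (-1 : ℂ) ^ x.1.card *
          ((Nat.card ↥(M ⊓ stb (mapCh M.subtype x.1)) : ℂ) *
            ((ν x.1 x.2 a : ℂˣ) : ℂ)) else 0), hJ, Finset.sum_sigma] at hF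
    rw [← hF]
    refine Finset.sum_congr rfl fun τ _ => ?_
    rw [Finset.mul_sum, Finset.sum_filter, Finset.sum_filter]
    refine Finset.sum_congr rfl fun θ _ => ?_
    by_cases h5 : PrU 𝔐 π μ p M ω τ θ
    · by_cases h6 : HasDefect ℓ θ n
      · rw [if_pos ⟨h5, h6⟩, if_pos h5, if_pos h6]
      · rw [if_neg (fun h => h6 h.2), if_pos h5, if_neg h6]
    · rw [if_neg (fun h => h5 h.1), if_neg h5]
  · intro ν' n'
    have hRn := hR ν' n'
    have h3 : ∀ x : ↥J, ((-1 : ℚ) ^ x.1.1.card *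
        (Nat.card ↥(M ⊓ stb (mapCh M.subtype x.1.1)) : ℚ)) *
          PSM ℓ πW m (ν x.1.1 x.1.2 * ν') (d x) n' =
        (-1 : ℚ) ^ x.1.1.card * ((Nat.card ↥(M ⊓ stb (mapCh M.subtype x.1.1)) : ℚ) *
          ∑ V, m V * ((Nat.card V : ℚ) * Nat.card {η : ↥(V.comap πW) → ℂ // IsIrr η ∧
            OvL πW.ker (ν x.1.1 x.1.2 * ν') _ η ∧
            ∃ e a, HasDefect ℓ η e ∧ HasDefect ℓ x.1.2 a ∧ e + a = n'})) := by
      intro x
      rw [mul_assoc, PSM]
      have h4 : ∀ V : Subgroup H, ∀ η : ↥(V.comap πW) → ℂ,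
          (∃ e, HasDefect ℓ η e ∧ e + d x = n') ↔
            ∃ e a, HasDefect ℓ η e ∧ HasDefect ℓ x.1.2 a ∧ e + a = n' := by
        intro V η
        constructor
        · rintro ⟨e, he, h⟩
          exact ⟨e, d x, he, hd x, h⟩
        · rintro ⟨e, b, he, hb, h⟩
          have := (hd x).unique hb
          subst this
          exact ⟨e, he, h⟩
      simp only [h4]
    rw [Finset.sum_congr rfl (fun x _ => h3 x)]
    rw [T2A.sum_coe J (fun x => (-1 : ℚ) ^ x.1.card *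
        ((Nat.card ↥(M ⊓ stb (mapCh M.subtype x.1)) : ℚ) *
          ∑ V, m V * ((Nat.card V : ℚ) * Nat.card {η : ↥(V.comap πW) → ℂ // IsIrr η ∧
            OvL πW.ker (ν x.1 x.2 * ν') _ η ∧
            ∃ e a, HasDefect ℓ η e ∧ HasDefect ℓ x.2 a ∧ e + a = n'}))), hJ, Finset.sum_sigma]
    rw [← hRn]
    refine Finset.sum_congr rfl fun τ _ => ?_
    rw [Finset.mul_sum]

end Pool.Agent.DPF
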