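import Pool.Agent.DPF.Stmts
import Pool.Agent.DPM.MOBX

/-!
# Dade's conjecture: the relations imply that the sum over the chains vanishes
-/

namespace Pool.Agent.DPF

open Pool.Agent.DP Pool.Agent.DPC Pool.Agent.DPM Pool.Agent.DPN Pool.Agent.Lib_helper13
  Representation
open Pool.Agent.Lib_helper13.Dade (pCore DadeHolds dadeSum)

namespace T2B

/-- A sum over a finite set of pairs. -/
theorem sum_sig {R α : Type} [AddCommMonoid R] {β : α → Type} (A : Finset α)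
    (B : ∀ a, Finset (β a)) (f : ∀ a, β a → R) :
    ∑ i : ↥(A.sigma B), f i.1.1 i.1.2 = ∑ a ∈ A, ∑ b ∈ B a, f a b := by
  rw [Finset.sum_coe_sort (A.sigma B) (fun x => f x.1 x.2), Finset.sum_sigma]

/-- A sum over the pairs with a property. -/
theorem sum_sig_filter {R α : Type} [AddCommMonoid R] {β : α → Type} (A : Finset α)
    (B : ∀ a, Finset (β a)) (q : ∀ a, β a → Prop) [∀ a b, Decidable (q a b)]
    (f : ∀ a, β a → R) :
    ∑ i : ↥(A.sigma B) with q i.1.1 i.1.2, f i.1.1 i.1.2 =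
      ∑ a ∈ A, ∑ b ∈ B a with q a b, f a b := by
  rw [Finset.sum_filter, sum_sig A B (fun a b => if q a b then f a b else 0)]
  exact Finset.sum_congr rfl fun a _ => (Finset.sum_filter _ _).symm

/-- The Moebius sum with the defect of a character. -/
theorem PSM_eq {W H A : Type} [Group W] [Fintype W] [Group H] [Fintype H] [Group A] [Fintype A]
    (ℓ : ℕ) (π : W →* H) (m : Subgroup H → ℚ) (μ : π.ker →* ℂˣ) (θ : A → ℂ) {a : ℕ}
    (ha : HasDefect ℓ θ a) (n : ℕ) :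
    PSM ℓ π m μ a n = ∑ V, m V * ((Nat.card V : ℚ) *
      Nat.card {η : ↥(V.comap π) → ℂ // IsIrr η ∧ OvL π.ker μ _ η ∧
        ∃ e a, HasDefect ℓ η e ∧ HasDefect ℓ θ a ∧ e + a = n}) := by
  unfold PSM
  refine Finset.sum_congr rfl fun V _ => ?_
  have h : Nat.card {η : ↥(V.comap π) → ℂ // IsIrr η ∧ OvL π.ker μ _ η ∧
      ∃ e, HasDefect ℓ η e ∧ e + a = n} =
      Nat.card {η : ↥(V.comap π) → ℂ // IsIrr η ∧ OvL π.ker μ _ η ∧
        ∃ e a, HasDefect ℓ η e ∧ HasDefect ℓ θ a ∧ e + a = n} := by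
    refine Nat.card_congr (Equiv.subtypeEquivRight fun η => ?_)
    refine and_congr_right fun _ => and_congr_right fun _ => ?_
    constructor
    · rintro ⟨e, he, hn⟩
      exact ⟨e, a, he, ha, hn⟩
    · rintro ⟨e, a', he, ha', hn⟩
      exact ⟨e, he, by rw [HasDefect.unique ha ha']; exact hn⟩
  rw [h]

end T2B

open Classical in
theorem T2B_thm (h1 : Stmt_PSZ) (h2 : Stmt_PS3) (h3 : Stmt_EXPU) (h4 : Stmt_T2D) : Stmt_T2B := by
  intro L K H W _ _ _ _ _ _ _ _ 𝔐 ℓ _ hM hℓ π hπ hc μ M _ p hp hpM P hP hcore hQ ω hpos πW hπW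
    ν hnum hT2 d
  rw [h1 L K H 𝔐 ℓ hM hℓ π hπ hc μ hcore hQ M p hp hpM P hP ω hpos d]
  obtain ⟨m, hm⟩ := (MOBX_thm H).1
  have hm1 : m ⊤ = 1 := ((MOBX_thm H).2 m hm).1
  have hL : ∑ V, m V * PHU 𝔐 ℓ d π μ M (V.comap p) ω = PHU 𝔐 ℓ d π μ M ⊤ ω := by
    rw [Finset.sum_eq_single (⊤ : Subgroup H)]
    · rw [hm1, one_mul, Subgroup.comap_top]
    · intro V _ hV
      have hV' : V.comap p ≠ ⊤ := by
        intro h
        apply hV
        apply Subgroup.comap_injective hp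
        rw [h, Subgroup.comap_top]
      have hlt : Nat.card ↥(V.comap p) < Nat.card K :=
        lt_of_le_of_ne (Subgroup.card_le_card_group _)
          (fun h => hV' (Subgroup.eq_top_of_card_eq _ h))
      rw [h2 L K H 𝔐 ℓ hM hℓ π hπ hc μ M p hp hpM P hP ω hpos V (hQ _ hlt) d, mul_zero]
    · intro h
      exact absurd (Finset.mem_univ _) h
  rw [← hL, h3 L K H 𝔐 ℓ π hπ hc μ M p hp hpM ω d m hm]
  have hdd : ∀ (τ : Finset (Subgroup M)) (θ : ↥(SL π M τ M) → ℂ), ∃ a : ℕ,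
      PrU 𝔐 π μ p M ω τ θ → HasDefect ℓ θ a := by
    intro τ θ
    by_cases h : PrU 𝔐 π μ p M ω τ θ
    · obtain ⟨a, ha⟩ := h.irr.exists_defect (ℓ := ℓ)
      exact ⟨a, fun _ => ha⟩
    · exact ⟨0, fun h' => absurd h' h⟩
  choose dd hdd using hdd
  let S : Finset (Σ τ : Finset (Subgroup M), (↥(SL π M τ M) → ℂ)) :=
    (Ch ℓ (⊥ : Subgroup M)).sigma
      (fun τ => (irrF (SL π M τ M)).filter (fun θ => PrU 𝔐 π μ p M ω τ θ))
  have hS : ∀ i : ↥S, PrU 𝔐 π μ p M ω i.1.1 i.1.2 := by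
    intro i
    have := i.2
    rw [Finset.mem_sigma] at this
    exact (Finset.mem_filter.mp this.2).2
  have key := h4 W H ↥S ℓ πW hπW P hP
    (fun i => (-1 : ℚ) ^ i.1.1.card * (Nat.card ↥(M ⊓ stb (mapCh M.subtype i.1.1)) : ℚ))
    (fun i => dd i.1.1 i.1.2) (fun i => ν i.1.1 i.1.2)
    (fun i => (hnum i.1.1 i.1.2 (hS i)).inv) ?_ m hm (d + padicValNat ℓ (Nat.card πW.ker))
  · rw [T2B.sum_sig (Ch ℓ (⊥ : Subgroup M))
      (fun τ => (irrF (SL π M τ M)).filter (fun θ => PrU 𝔐 π μ p M ω τ θ))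
      (fun τ θ => (-1 : ℚ) ^ τ.card * (Nat.card ↥(M ⊓ stb (mapCh M.subtype τ)) : ℚ) *
        PSM ℓ πW m (ν τ θ) (dd τ θ) (d + padicValNat ℓ (Nat.card πW.ker)))] at key
    rw [← key]
    refine Finset.sum_congr rfl fun τ _ => ?_
    rw [Finset.mul_sum]
    refine Finset.sum_congr rfl fun θ hθ => ?_
    have hPr : PrU 𝔐 π μ p M ω τ θ := (Finset.mem_filter.mp hθ).2
    rw [T2B.PSM_eq ℓ πW m (ν τ θ) θ (hdd τ θ hPr), mul_assoc]
    refine congrArg _ (congrArg _ (Finset.sum_congr rfl fun V _ => ?_))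
    rw [(hnum τ θ hPr).num V d]
  · intro a ha n
    have h5 := hT2 a ha n
    rw [T2B.sum_sig_filter (Ch ℓ (⊥ : Subgroup M))
      (fun τ => (irrF (SL π M τ M)).filter (fun θ => PrU 𝔐 π μ p M ω τ θ))
      (fun τ θ => dd τ θ = n)
      (fun τ θ => (((-1 : ℚ) ^ τ.card * (Nat.card ↥(M ⊓ stb (mapCh M.subtype τ)) : ℚ) : ℚ) : ℂ) *
        ((ν τ θ a : ℂˣ) : ℂ))]
    rw [← h5]
    refine Finset.sum_congr rfl fun τ _ => ?_
    rw [Finset.mul_sum, Finset.filter_filter]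
    have h6 : (irrF (SL π M τ M)).filter (fun θ => PrU 𝔐 π μ p M ω τ θ ∧ dd τ θ = n) =
        (irrF (SL π M τ M)).filter (fun θ => PrU 𝔐 π μ p M ω τ θ ∧ HasDefect ℓ θ n) := by
      refine Finset.filter_congr fun θ _ => and_congr_right fun hPr => ?_
      constructor
      · rintro rfl
        exact hdd τ θ hPr
      · exact fun h => HasDefect.unique (hdd τ θ hPr) h
    rw [h6]
    refine Finset.sum_congr rfl fun θ _ => ?_
    push_cast
    ring

end Pool.Agent.DPF
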