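import Mathlib
import Pool.Agent.DPF.Stmts

/-!
# T2D: the relations imply that the Moebius sums of the numbers of characters cancel
-/

namespace Pool.Agent.DPF

open Pool.Agent.DP Pool.Agent.DPC Pool.Agent.DPM Pool.Agent.DPN Pool.Agent.Lib_helper13
  Representation
open Pool.Agent.Lib_helper13.Dade (pCore DadeHolds dadeSum)

namespace T2D

/-- The order of an inverse image. -/
theorem card_comap {L K : Type} [Group L] [Finite L] [Group K] [Finite K] (π : L →* K)
    (hs : Function.Surjective π) (V : Subgroup K) :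
    Nat.card ↥(V.comap π) = Nat.card π.ker * Nat.card V := by
  have h1 : (V.comap π).index = V.index := V.index_comap_of_surjective hs
  have h2 : (V.comap π).index * Nat.card ↥(V.comap π) = Nat.card L :=
    (V.comap π).index_mul_card
  have h3 : V.index * Nat.card V = Nat.card K := V.index_mul_card
  have h4 : π.ker.index * Nat.card π.ker = Nat.card L := π.ker.index_mul_card
  have h5 : π.ker.index = Nat.card K := by
    rw [Subgroup.index_ker, MonoidHom.range_eq_top.mpr hs]
    exact Nat.card_congr Subgroup.topEquiv.toEquiv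
  have h6 : 0 < V.index := Nat.pos_of_ne_zero Subgroup.index_ne_zero_of_finite
  have h7 : V.index * Nat.card ↥(V.comap π) = V.index * (Nat.card π.ker * Nat.card V) := by
    rw [h1] at h2
    rw [h2, ← h4, h5, ← h3]
    ring
  exact Nat.eq_of_mul_eq_mul_left h6 h7

/-- The number of the characters of a defect `e` with `e + d = n`. -/
theorem cnt_split {X : Type} (A B : X → Prop) (D : X → ℕ → Prop) (d n : ℕ) :
    Nat.card {η : X // A η ∧ B η ∧ ∃ e, D η e ∧ e + d = n} =
      ∑ e ∈ Finset.range (n + 1),
        if e + d = n then Nat.card {η : X // A η ∧ B η ∧ D η e} else 0 := by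
  by_cases h : d ≤ n
  · rw [Finset.sum_eq_single (n - d)]
    · rw [if_pos (by omega)]
      refine Nat.card_congr (Equiv.subtypeEquivRight (fun η => ⟨?_, ?_⟩))
      · rintro ⟨h1, h2, e, h3, h4⟩
        have h5 : e = n - d := by omega
        subst h5
        exact ⟨h1, h2, h3⟩
      · rintro ⟨h1, h2, h3⟩
        exact ⟨h1, h2, n - d, h3, by omega⟩
    · intro b _ hb
      exact if_neg (by omega)
    · intro hb
      exact absurd (Finset.mem_range.mpr (by omega)) hb
  · rw [Finset.sum_eq_zero (fun e _ => if_neg (by omega))]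
    refine Nat.card_eq_zero.mpr (Or.inl ⟨?_⟩)
    rintro ⟨η, _, _, e, _, h4⟩
    omega

/-- The element is a commutator of generators. -/
theorem ins {W H : Type} [Group W] [Group H] (π : W →* H) (P : Subgroup H) (hP : P.Normal)
    {x y : W} (hxy : Subgroup.closure {x, y} ⊔ P.comap π = ⊤) (S : Subgroup W)
    (hS : S ≤ P.comap π) (a : W) (ha : a⁻¹ * (x * y * x⁻¹ * y⁻¹) ∈ ⁅S, S⁆) :
    InS π P a⁻¹ := by
  have hN : (P.comap π).Normal := hP.comap π
  have hC : (⁅P.comap π, P.comap π⁆ : Subgroup W).Normal := Subgroup.commutator_normal _ _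
  refine ⟨y, x, (x * y * x⁻¹ * y⁻¹) * (a⁻¹ * (x * y * x⁻¹ * y⁻¹)) * (x * y * x⁻¹ * y⁻¹)⁻¹,
    ?_, ?_, ?_⟩
  · rw [Set.pair_comm]
    exact hxy
  · exact hC.conj_mem _ (Subgroup.commutator_mono hS hS ha) _
  · group

end T2D

open Classical in
/-- T2D. -/
theorem T2D_thm (h1 : Stmt_EDV) (h2 : Stmt_EDL) (h3 : Stmt_EDC) (h4 : Stmt_MBX) : Stmt_T2D := by
  intro W H ι _ _ _ _ _ ℓ _ π hπ P hP s d ν hν hrel m hm n
  have hA : (Nat.card π.ker : ℂ) ≠ 0 := by
    exact_mod_cast Nat.card_pos.ne'
  -- the values at the commutators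
  have key : ∀ x y : W, ∑ i, (s i : ℂ) * ∑ e ∈ Finset.range (n + 1),
      (if e + d i = n then ∑ V : Subgroup H, (m V : ℂ) * (if π x ∈ V ∧ π y ∈ V then
        ed ((V ⊓ P).comap π) (fun κ => OvL π.ker (ν i) _ κ ∧ HasDefect ℓ κ e)
          (x * y * x⁻¹ * y⁻¹) else 0) else 0) = 0 := by
    intro x y
    obtain ⟨hM, -⟩ := h4 W H π hπ P m hm x y
    by_cases hg : Subgroup.closure {x, y} ⊔ P.comap π = ⊤
    · apply mul_left_cancel₀ hA
      rw [mul_zero]
      calc (Nat.card π.ker : ℂ) * ∑ i, (s i : ℂ) * ∑ e ∈ Finset.range (n + 1),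
          (if e + d i = n then ∑ V : Subgroup H, (m V : ℂ) * (if π x ∈ V ∧ π y ∈ V then
            ed ((V ⊓ P).comap π) (fun κ => OvL π.ker (ν i) _ κ ∧ HasDefect ℓ κ e)
              (x * y * x⁻¹ * y⁻¹) else 0) else 0)
          = ∑ i, ∑ e ∈ Finset.range (n + 1), ∑ V : Subgroup H, ∑ a : π.ker,
            (if e + d i = n then (if π x ∈ V ∧ π y ∈ V then
              (m V : ℂ) * ((s i : ℂ) * (((ν i a)⁻¹ : ℂˣ) : ℂ) *
                ed ((V ⊓ P).comap π) (fun κ => HasDefect ℓ κ e)
                  ((a : W)⁻¹ * (x * y * x⁻¹ * y⁻¹))) else 0) else 0) := by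
            rw [Finset.mul_sum]
            refine Finset.sum_congr rfl (fun i _ => ?_)
            rw [Finset.mul_sum, Finset.mul_sum]
            refine Finset.sum_congr rfl (fun e _ => ?_)
            by_cases hi : e + d i = n
            · simp only [if_pos hi]
              rw [Finset.mul_sum, Finset.mul_sum]
              refine Finset.sum_congr rfl (fun V _ => ?_)
              by_cases hV : π x ∈ V ∧ π y ∈ V
              · simp only [if_pos hV]
                have hL := h2 W ℓ ((V ⊓ P).comap π) π.ker
                  (fun z hz => by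
                    change π z ∈ V ⊓ P
                    rw [MonoidHom.mem_ker.mp hz]
                    exact one_mem _)
                  (fun w _ a ha => (MonoidHom.normal_ker π).conj_mem a ha w) (ν i)
                  (fun w _ a a' haa => hν i w a a' haa) e (x * y * x⁻¹ * y⁻¹)
                calc (Nat.card π.ker : ℂ) * ((s i : ℂ) * ((m V : ℂ) *
                      ed ((V ⊓ P).comap π) (fun κ => OvL π.ker (ν i) _ κ ∧ HasDefect ℓ κ e)
                        (x * y * x⁻¹ * y⁻¹)))
                    = (s i : ℂ) * (m V : ℂ) * ((Nat.card π.ker : ℂ) *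
                      ed ((V ⊓ P).comap π) (fun κ => OvL π.ker (ν i) _ κ ∧ HasDefect ℓ κ e)
                        (x * y * x⁻¹ * y⁻¹)) := by ring
                  _ = _ := by
                    rw [hL, Finset.mul_sum]
                    refine Finset.sum_congr rfl (fun a _ => ?_)
                    ring
              · simp only [if_neg hV, mul_zero, Finset.sum_const_zero]
            · simp only [if_neg hi, mul_zero, Finset.sum_const_zero]
        _ = ∑ e ∈ Finset.range (n + 1), ∑ V : Subgroup H, ∑ a : π.ker,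
            (if π x ∈ V ∧ π y ∈ V then (m V : ℂ) * ed ((V ⊓ P).comap π)
              (fun κ => HasDefect ℓ κ e) ((a : W)⁻¹ * (x * y * x⁻¹ * y⁻¹)) *
                ∑ i, (if e + d i = n then (s i : ℂ) * (((ν i a)⁻¹ : ℂˣ) : ℂ) else 0)
              else 0) := by
            rw [Finset.sum_comm]
            refine Finset.sum_congr rfl (fun e _ => ?_)
            rw [Finset.sum_comm]
            refine Finset.sum_congr rfl (fun V _ => ?_)
            rw [Finset.sum_comm]
            refine Finset.sum_congr rfl (fun a _ => ?_)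
            by_cases hV : π x ∈ V ∧ π y ∈ V
            · simp only [if_pos hV]
              rw [Finset.mul_sum]
              refine Finset.sum_congr rfl (fun i _ => ?_)
              by_cases hi : e + d i = n
              · simp only [if_pos hi]
                ring
              · simp only [if_neg hi, mul_zero]
            · simp only [if_neg hV, ite_self, Finset.sum_const_zero]
        _ = 0 := by
            refine Finset.sum_eq_zero (fun e he => Finset.sum_eq_zero (fun V _ =>
              Finset.sum_eq_zero (fun a _ => ?_)))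
            by_cases hV : π x ∈ V ∧ π y ∈ V
            · rw [if_pos hV]
              by_cases hE : ed ((V ⊓ P).comap π) (fun κ => HasDefect ℓ κ e)
                  ((a : W)⁻¹ * (x * y * x⁻¹ * y⁻¹)) = 0
              · rw [hE, mul_zero, zero_mul]
              · have hc := h3 W ℓ ((V ⊓ P).comap π) e _ hE
                have hI : InS π P ((a⁻¹ : π.ker) : W) :=
                  T2D.ins π P hP.nrm hg _ (Subgroup.comap_mono inf_le_right) (a : W) hc
                have hr := hrel a⁻¹ hI (n - e)
                have he' : e ≤ n := Nat.lt_succ_iff.mp (Finset.mem_range.mp he)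
                have hz : ∑ i, (if e + d i = n then (s i : ℂ) * (((ν i a)⁻¹ : ℂˣ) : ℂ)
                    else 0) = 0 := by
                  refine Eq.trans ?_ hr
                  rw [Finset.sum_filter]
                  refine Finset.sum_congr rfl (fun i _ => ?_)
                  by_cases hi : e + d i = n
                  · rw [if_pos hi, if_pos (by omega), map_inv]
                  · rw [if_neg hi, if_neg (by omega)]
                rw [hz, mul_zero]
            · rw [if_neg hV]
    · refine Finset.sum_eq_zero (fun i _ => ?_)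
      rw [Finset.sum_eq_zero (fun e _ => ?_), mul_zero]
      by_cases hi : e + d i = n
      · rw [if_pos hi]
        exact hM hg (fun U => ed (U.comap π)
          (fun κ => OvL π.ker (ν i) _ κ ∧ HasDefect ℓ κ e) (x * y * x⁻¹ * y⁻¹))
      · rw [if_neg hi]
  -- the Moebius sums
  have hcast : ∀ i, (Nat.card π.ker : ℂ) * ((PSM ℓ π m (ν i) (d i) n : ℚ) : ℂ) =
      ∑ x : W, ∑ y : W, ∑ e ∈ Finset.range (n + 1),
      (if e + d i = n then ∑ V : Subgroup H, (m V : ℂ) * (if π x ∈ V ∧ π y ∈ V then
        ed ((V ⊓ P).comap π) (fun κ => OvL π.ker (ν i) _ κ ∧ HasDefect ℓ κ e)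
          (x * y * x⁻¹ * y⁻¹) else 0) else 0) := by
    intro i
    have hV : ∀ V : Subgroup H, (Nat.card π.ker : ℂ) * ((m V : ℂ) * ((Nat.card V : ℂ) *
        ((Nat.card {η : ↥(V.comap π) → ℂ // IsIrr η ∧
          OvL π.ker (ν i) _ η ∧ ∃ e, HasDefect ℓ η e ∧ e + d i = n} : ℕ) : ℂ))) =
        ∑ x : W, ∑ y : W, ∑ e ∈ Finset.range (n + 1),
          (if e + d i = n then (m V : ℂ) * (if π x ∈ V ∧ π y ∈ V then
            ed ((V ⊓ P).comap π) (fun κ => OvL π.ker (ν i) _ κ ∧ HasDefect ℓ κ e)
              (x * y * x⁻¹ * y⁻¹) else 0) else 0) := by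
      intro V
      rw [T2D.cnt_split (fun η : ↥(V.comap π) → ℂ => IsIrr η)
        (fun η => OvL π.ker (ν i) _ η) (fun η e => HasDefect ℓ η e) (d i) n]
      have hWV : ((Nat.card ↥(V.comap π) : ℕ) : ℂ) = (Nat.card π.ker : ℂ) * (Nat.card V : ℂ) := by
        rw [T2D.card_comap π hπ V, Nat.cast_mul]
      calc (Nat.card π.ker : ℂ) * ((m V : ℂ) * ((Nat.card V : ℂ) *
          ((∑ e ∈ Finset.range (n + 1), (if e + d i = n then Nat.card
            {η : ↥(V.comap π) → ℂ // IsIrr η ∧ OvL π.ker (ν i) _ η ∧ HasDefect ℓ η e}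
              else 0) : ℕ) : ℂ)))
          = ∑ e ∈ Finset.range (n + 1), (if e + d i = n then (m V : ℂ) *
            ((Nat.card ↥(V.comap π) : ℂ) * ((Nat.card {η : ↥(V.comap π) → ℂ // IsIrr η ∧
              OvL π.ker (ν i) _ η ∧ HasDefect ℓ η e} : ℕ) : ℂ)) else 0) := by
            rw [Nat.cast_sum, Finset.mul_sum, Finset.mul_sum, Finset.mul_sum]
            refine Finset.sum_congr rfl (fun e _ => ?_)
            by_cases hi : e + d i = n
            · rw [if_pos hi, if_pos hi, hWV]
              ring
            · rw [if_neg hi, if_neg hi, Nat.cast_zero]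
              ring
        _ = ∑ e ∈ Finset.range (n + 1), ∑ x : W, ∑ y : W,
            (if e + d i = n then (m V : ℂ) * (if π x ∈ V ∧ π y ∈ V then
              ed ((V ⊓ P).comap π) (fun κ => OvL π.ker (ν i) _ κ ∧ HasDefect ℓ κ e)
                (x * y * x⁻¹ * y⁻¹) else 0) else 0) := by
            refine Finset.sum_congr rfl (fun e _ => ?_)
            by_cases hi : e + d i = n
            · simp only [if_pos hi]
              rw [(h1 W H ℓ π hπ P hP V e).1 (ν i) (hν i), Finset.mul_sum]
              refine Finset.sum_congr rfl (fun x _ => ?_)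
              rw [Finset.mul_sum]
            · simp only [if_neg hi, Finset.sum_const_zero]
        _ = _ := by
            rw [Finset.sum_comm]
            refine Finset.sum_congr rfl (fun x _ => ?_)
            rw [Finset.sum_comm]
    unfold PSM
    push_cast
    rw [Finset.mul_sum]
    calc ∑ V : Subgroup H, (Nat.card π.ker : ℂ) * ((m V : ℂ) * ((Nat.card V : ℂ) *
        ((Nat.card {η : ↥(V.comap π) → ℂ // IsIrr η ∧
          OvL π.ker (ν i) _ η ∧ ∃ e, HasDefect ℓ η e ∧ e + d i = n} : ℕ) : ℂ)))
        = ∑ V : Subgroup H, ∑ x : W, ∑ y : W, ∑ e ∈ Finset.range (n + 1),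
          (if e + d i = n then (m V : ℂ) * (if π x ∈ V ∧ π y ∈ V then
            ed ((V ⊓ P).comap π) (fun κ => OvL π.ker (ν i) _ κ ∧ HasDefect ℓ κ e)
              (x * y * x⁻¹ * y⁻¹) else 0) else 0) :=
          Finset.sum_congr rfl (fun V _ => hV V)
      _ = _ := by
          rw [Finset.sum_comm]
          refine Finset.sum_congr rfl (fun x _ => ?_)
          rw [Finset.sum_comm]
          refine Finset.sum_congr rfl (fun y _ => ?_)
          rw [Finset.sum_comm]
          refine Finset.sum_congr rfl (fun e _ => ?_)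
          by_cases hi : e + d i = n
          · simp only [if_pos hi]
          · simp only [if_neg hi, Finset.sum_const_zero]
  have hfin : (Nat.card π.ker : ℂ) * ((∑ i, s i * PSM ℓ π m (ν i) (d i) n : ℚ) : ℂ) = 0 := by
    push_cast
    rw [Finset.mul_sum]
    calc ∑ i, (Nat.card π.ker : ℂ) * ((s i : ℂ) * ((PSM ℓ π m (ν i) (d i) n : ℚ) : ℂ))
        = ∑ i, ∑ x : W, ∑ y : W, (s i : ℂ) * ∑ e ∈ Finset.range (n + 1),
          (if e + d i = n then ∑ V : Subgroup H, (m V : ℂ) * (if π x ∈ V ∧ π y ∈ V then
            ed ((V ⊓ P).comap π) (fun κ => OvL π.ker (ν i) _ κ ∧ HasDefect ℓ κ e)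
              (x * y * x⁻¹ * y⁻¹) else 0) else 0) := by
          refine Finset.sum_congr rfl (fun i _ => ?_)
          rw [mul_left_comm, hcast i, Finset.mul_sum]
          refine Finset.sum_congr rfl (fun x _ => ?_)
          rw [Finset.mul_sum]
      _ = ∑ x : W, ∑ y : W, (0 : ℂ) := by
          rw [Finset.sum_comm]
          refine Finset.sum_congr rfl (fun x _ => ?_)
          rw [Finset.sum_comm]
          exact Finset.sum_congr rfl (fun y _ => key x y)
      _ = 0 := by simp only [Finset.sum_const_zero]
  have h0 := (mul_eq_zero.mp hfin).resolve_left hA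
  exact_mod_cast h0

end Pool.Agent.DPF
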