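import Pool.Agent.DPF.Stmts

/-!
# T2F: the twisted relations imply the relations between the linear characters
-/

namespace Pool.Agent.DPF

namespace T2F

/-- A product of two finite sequences which vanishes, where the second one has a last
nonzero term: the first one vanishes. -/
theorem seq_zero {ι : Type} [Fintype ι] (c : ι → ℂ) (d : ι → ℕ) (G : ℕ → ℂ) (e₀ : ℕ)
    (hG : ∀ e, e₀ < e → G e = 0) (hG0 : G e₀ ≠ 0)
    (h : ∀ n : ℕ, ∑ i with d i ≤ n, c i * G (n - d i) = 0) (n : ℕ) :
    ∑ i with d i = n, c i = 0 := by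
  classical
  by_contra hn
  have hne : ∀ j : ℕ, ∑ i with d i = j, c i ≠ 0 →
      j ∈ ((Finset.univ.image d).filter (fun j => ∑ i with d i = j, c i ≠ 0)) := by
    intro j hj
    rw [Finset.mem_filter]
    refine ⟨?_, hj⟩
    by_contra hjj
    apply hj
    apply Finset.sum_eq_zero
    intro i hi
    exact absurd (Finset.mem_image_of_mem d (Finset.mem_univ i))
      (by rw [(Finset.mem_filter.mp hi).2]; exact hjj)
  obtain ⟨M, hM, hmax⟩ := Finset.exists_max_image
    ((Finset.univ.image d).filter (fun j => ∑ i with d i = j, c i ≠ 0)) (fun j => j)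
    ⟨n, hne n hn⟩
  have hM0 : ∑ i with d i = M, c i ≠ 0 := (Finset.mem_filter.mp hM).2
  have hbig : ∀ j, M < j → ∑ i with d i = j, c i = 0 := by
    intro j hj
    by_contra hjj
    exact absurd (hmax j (hne j hjj)) (not_le.mpr hj)
  have key := h (M + e₀)
  have hmaps : ∀ i ∈ Finset.univ.filter (fun i => d i ≤ M + e₀),
      d i ∈ Finset.range (M + e₀ + 1) := by
    intro i hi
    exact Finset.mem_range.mpr (Nat.lt_succ_of_le (Finset.mem_filter.mp hi).2)
  rw [← Finset.sum_fiberwise_of_maps_to hmaps] at key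
  have hterm : ∀ j ∈ Finset.range (M + e₀ + 1),
      ∑ i ∈ Finset.univ.filter (fun i => d i ≤ M + e₀) with d i = j, c i * G (M + e₀ - d i) =
        (∑ i with d i = j, c i) * G (M + e₀ - j) := by
    intro j hj
    have hj' : j ≤ M + e₀ := Nat.le_of_lt_succ (Finset.mem_range.mp hj)
    rw [Finset.filter_filter, Finset.sum_mul]
    apply Finset.sum_congr
    · ext i
      simp only [Finset.mem_filter, Finset.mem_univ, true_and]
      constructor
      · exact fun hi => hi.2
      · intro hi
        exact ⟨by rw [hi]; exact hj', hi⟩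
    · intro i hi
      rw [(Finset.mem_filter.mp hi).2]
  rw [Finset.sum_congr rfl hterm, Finset.sum_eq_single M] at key
  · rw [Nat.add_sub_cancel_left] at key
    exact (mul_ne_zero hM0 hG0) key
  · intro j hj hjM
    rcases lt_or_gt_of_ne hjM with hlt | hgt
    · rw [hG (M + e₀ - j) (by omega), mul_zero]
    · rw [hbig j hgt, zero_mul]
  · intro hM'
    exact absurd (Finset.mem_range.mpr (by omega)) hM'

end T2F

theorem T2F_thm (h1 : Stmt_FOX) (h2 : Stmt_TOPC) : Stmt_T2F := by
  intro W H ι _ _ _ _ _ ℓ _ π hπ hz P hP s d ν m hm h a ha n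
  obtain ⟨hG, hG0⟩ := h2 W H ℓ π hπ hz P hP m hm
  exact T2F.seq_zero (fun i => (s i : ℂ) * ((ν i a : ℂˣ) : ℂ)) d
    (fun e => PHT ℓ π m e a) (padicValNat ℓ (Nat.card W)) (fun e he => hG e he a) (hG0 a ha)
    (fun k => h1 W H ι ℓ π hz s d ν m h a k) n

end Pool.Agent.DPF
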