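import Mathlib
import Pool.Agent.DPF.Stmts

/-!
# The leading coefficient

For a central extension `π : W → H` with a normal Sylow `ℓ`-subgroup `P` of `H`, the Moebius sum
of the values of the central characters of the characters of the largest possible defect is, up to
a positive factor, the number of pairs which generate `W` modulo the inverse image of `P` and
whose commutator is in a given coset.
-/

namespace Pool.Agent.DPF

open Pool.Agent.DP Pool.Agent.DPC Pool.Agent.DPM Pool.Agent.DPN Pool.Agent.Lib_helper13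
  Representation
open Pool.Agent.Lib_helper13.Dade (pCore DadeHolds dadeSum)

namespace TOPC

variable {W H : Type} [Group W] [Fintype W] [Group H] [Fintype H] {ℓ : ℕ} [hℓ : Fact ℓ.Prime]

theorem defect_le {Y : Type} [Group Y] {η : Y → ℂ} {e : ℕ} (h : HasDefect ℓ η e) :
    e ≤ padicValNat ℓ (Nat.card Y) := by
  obtain ⟨n, _, h2⟩ := h
  omega

theorem card_rel {A B : Subgroup H} (h : A ≤ B) : Nat.card A * A.relIndex B = Nat.card B := by
  have := Subgroup.relIndex_mul_relIndex ⊥ A B bot_le h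
  rwa [Subgroup.relIndex_bot_left, Subgroup.relIndex_bot_left] at this

theorem card_comap {π : W →* H} (hπ : Function.Surjective π) (V : Subgroup H) :
    Nat.card ↥(V.comap π) = Nat.card V * Nat.card π.ker := by
  have h1 : (V.comap π).index * Nat.card ↥(V.comap π) = Nat.card W :=
    Subgroup.index_mul_card _
  have h2 : V.index * Nat.card V = Nat.card H := Subgroup.index_mul_card _
  have h3 : π.ker.index * Nat.card π.ker = Nat.card W := Subgroup.index_mul_card _
  have h4 : (V.comap π).index = V.index := Subgroup.index_comap_of_surjective V hπ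
  have h5 : π.ker.index = Nat.card H := by
    rw [Subgroup.index_ker, MonoidHom.range_eq_top.mpr hπ]
    exact Nat.card_congr Subgroup.topEquiv.toEquiv
  have h6 : 0 < V.index := Nat.pos_of_ne_zero Subgroup.FiniteIndex.index_ne_zero
  rw [h4, ← h3, h5, ← h2] at h1
  have h7 : V.index * Nat.card ↥(V.comap π) = V.index * (Nat.card V * Nat.card π.ker) := by
    rw [h1]; ring
  exact Nat.eq_of_mul_eq_mul_left h6 h7

/-- The valuation of the order of the inverse image of the Sylow subgroup. -/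
theorem val_syl {π : W →* H} (hπ : Function.Surjective π) {P : Subgroup H} (hP : SylAb ℓ P) :
    padicValNat ℓ (Nat.card ↥(P.comap π)) = padicValNat ℓ (Nat.card W) := by
  have h1 : (P.comap π).index * Nat.card ↥(P.comap π) = Nat.card W := Subgroup.index_mul_card _
  have h4 : (P.comap π).index = P.index := Subgroup.index_comap_of_surjective P hπ
  rw [h4] at h1
  rw [← h1, padicValNat.mul (Nat.pos_of_ne_zero Subgroup.FiniteIndex.index_ne_zero).ne'
    Nat.card_pos.ne', padicValNat.eq_zero_of_not_dvd hP.idx, zero_add]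

/-- A subgroup whose inverse image has full valuation contains the Sylow subgroup. -/
theorem le_of_val {π : W →* H} (hπ : Function.Surjective π) {P V : Subgroup H}
    (hP : SylAb ℓ P) (h : padicValNat ℓ (Nat.card W) ≤ padicValNat ℓ (Nat.card ↥(V.comap π))) :
    P ≤ V := by
  haveI := hP.nrm
  have h1 : (V.comap π).index * Nat.card ↥(V.comap π) = Nat.card W := Subgroup.index_mul_card _
  rw [Subgroup.index_comap_of_surjective V hπ] at h1
  have hi0 : V.index ≠ 0 := Subgroup.FiniteIndex.index_ne_zero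
  have h2 : padicValNat ℓ V.index = 0 := by
    rw [← h1, padicValNat.mul hi0 Nat.card_pos.ne'] at h
    omega
  have h3 : padicValNat ℓ (Nat.card V) = padicValNat ℓ (Nat.card H) := by
    rw [← Subgroup.index_mul_card V, padicValNat.mul hi0 Nat.card_pos.ne', h2, zero_add]
  have h4 : padicValNat ℓ (Nat.card P) = padicValNat ℓ (Nat.card H) := by
    rw [← Subgroup.index_mul_card P, padicValNat.mul Subgroup.FiniteIndex.index_ne_zero
      Nat.card_pos.ne', padicValNat.eq_zero_of_not_dvd hP.idx, zero_add]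
  have h5 : padicValNat ℓ (Nat.card ↥(P ⊓ V)) = padicValNat ℓ (Nat.card V) := by
    have h6 : padicValNat ℓ (P.relIndex V) = 0 := padicValNat.eq_zero_of_not_dvd
      fun hd => hP.idx (hd.trans (Subgroup.relIndex_dvd_index_of_normal P V))
    have h7 : P.relIndex V ≠ 0 := by
      intro h0
      have := Subgroup.relIndex_dvd_index_of_normal P V
      rw [h0, Nat.zero_dvd] at this
      exact (Subgroup.FiniteIndex.index_ne_zero (H := P)) this
    rw [← card_rel (inf_le_right : P ⊓ V ≤ V), Subgroup.inf_relIndex_right,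
      padicValNat.mul Nat.card_pos.ne' h7, h6, add_zero]
  obtain ⟨j, hj⟩ := IsPGroup.iff_card.mp hP.pgr
  obtain ⟨k, hk⟩ := IsPGroup.iff_card.mp (hP.pgr.to_le (inf_le_left : P ⊓ V ≤ P))
  rw [hk, padicValNat.prime_pow, h3, ← h4, hj, padicValNat.prime_pow] at h5
  have h6 : P ⊓ V = P := by
    apply Subgroup.eq_of_le_of_card_ge inf_le_left
    rw [hj, hk, h5]
  exact inf_eq_left.mp h6

open Classical in
/-- No characters of a defect which is too large. -/
theorem filt_empty {Y : Type} [Group Y] [Fintype Y] {e : ℕ}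
    (he : padicValNat ℓ (Nat.card Y) < e) (f : (Y → ℂ) → ℂ) :
    ∑ η ∈ irrF Y with HasDefect ℓ η e, f η = 0 := by
  apply Finset.sum_eq_zero
  intro η hη
  have := defect_le (Finset.mem_filter.mp hη).2
  omega

theorem val_comap_le {π : W →* H} (V : Subgroup H) :
    padicValNat ℓ (Nat.card ↥(V.comap π)) ≤ padicValNat ℓ (Nat.card W) := by
  rw [← Subgroup.index_mul_card (V.comap π), padicValNat.mul Subgroup.FiniteIndex.index_ne_zero
      Nat.card_pos.ne']
  omega

theorem pht_zero {π : W →* H} {m : Subgroup H → ℚ} {e : ℕ}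
    (he : padicValNat ℓ (Nat.card W) < e) (a : W) : PHT ℓ π m e a = 0 := by
  unfold PHT
  apply Finset.sum_eq_zero
  intro V _
  rw [filt_empty (lt_of_le_of_lt (val_comap_le V) he), mul_zero, mul_zero]

open Classical in
/-- The sum over the characters of one inverse image. -/
theorem one_V (h1 : Stmt_EDV) (h2 : Stmt_EDT) {π : W →* H} (hπ : Function.Surjective π)
    (hc : π.ker ≤ Subgroup.center W) {P : Subgroup H} (hP : SylAb ℓ P) (V : Subgroup H)
    {a : W} (ha : a ∈ π.ker) :
    ((Nat.card π.ker : ℂ) * (Nat.card ↥⁅P.comap π, P.comap π⁆ : ℂ)) * ((Nat.card V : ℂ) *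
      ∑ η ∈ irrF (V.comap π) with HasDefect ℓ η (padicValNat ℓ (Nat.card W)),
        ext0 η a⁻¹ / η 1) =
      ∑ x : W, ∑ y : W, if x * y * x⁻¹ * y⁻¹ * a ∈ ⁅P.comap π, P.comap π⁆ then
        (if P ≤ V ∧ π x ∈ V ∧ π y ∈ V then (1 : ℂ) else 0) else 0 := by
  by_cases hPV : P ≤ V
  · have h3 := (h1 W H ℓ π hπ P hP V (padicValNat ℓ (Nat.card W))).2 hc a ha
    have h4 : V ⊓ P = P := inf_eq_right.mpr hPV
    rw [h4] at h3
    have h5 : ∀ r : W, ed (P.comap π)
        (fun κ => HasDefect ℓ κ (padicValNat ℓ (Nat.card W))) r =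
        if r ∈ ⁅P.comap π, P.comap π⁆ then
          1 / (Nat.card ↥⁅P.comap π, P.comap π⁆ : ℂ) else 0 := by
      intro r
      have h6 := h2 W ℓ (P.comap π) π.ker (by
        intro x hx
        rw [Subgroup.mem_comap, (MonoidHom.mem_ker).mp hx]
        exact one_mem P) (fun a ha s _ => (Subgroup.mem_center_iff.mp (hc ha) s).symm) (by
        intro s hs
        obtain ⟨k, hk⟩ := hP.pgr ⟨π s, hs⟩
        refine ⟨k, ?_⟩
        rw [MonoidHom.mem_ker, map_pow]
        have := congrArg Subtype.val hk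
        simpa using this) r
      rw [val_syl hπ hP] at h6
      exact h6
    have h7 : (Nat.card ↥⁅P.comap π, P.comap π⁆ : ℂ) ≠ 0 :=
      Nat.cast_ne_zero.mpr Nat.card_pos.ne'
    have h8 : ((Nat.card π.ker : ℂ) * (Nat.card ↥⁅P.comap π, P.comap π⁆ : ℂ)) *
        ((Nat.card V : ℂ) *
        ∑ η ∈ irrF (V.comap π) with HasDefect ℓ η (padicValNat ℓ (Nat.card W)),
          ext0 η a⁻¹ / η 1) =
        (Nat.card ↥⁅P.comap π, P.comap π⁆ : ℂ) * ((Nat.card ↥(V.comap π) : ℂ) *
        ∑ η ∈ irrF (V.comap π) with HasDefect ℓ η (padicValNat ℓ (Nat.card W)),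
          ext0 η a⁻¹ / η 1) := by
      rw [card_comap hπ V, Nat.cast_mul]
      ring
    rw [h8, h3, Finset.mul_sum]
    refine Finset.sum_congr rfl fun x _ => ?_
    rw [Finset.mul_sum]
    refine Finset.sum_congr rfl fun y _ => ?_
    rw [h5]
    by_cases hxy : π x ∈ V ∧ π y ∈ V
    · have h9 : P ≤ V ∧ π x ∈ V ∧ π y ∈ V := ⟨hPV, hxy⟩
      simp only [if_pos hxy, if_pos h9]
      split_ifs
      · field_simp
      · rw [mul_zero]
    · have h9 : ¬ (P ≤ V ∧ π x ∈ V ∧ π y ∈ V) := fun h => hxy h.2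
      simp only [if_neg hxy, if_neg h9, ite_self, mul_zero]
  · have h3 : padicValNat ℓ (Nat.card ↥(V.comap π)) < padicValNat ℓ (Nat.card W) := by
      by_contra h
      exact hPV (le_of_val hπ hP (not_lt.mp h))
    rw [filt_empty h3, mul_zero, mul_zero]
    symm
    refine Finset.sum_eq_zero fun x _ => Finset.sum_eq_zero fun y _ => ?_
    have h9 : ¬ (P ≤ V ∧ π x ∈ V ∧ π y ∈ V) := fun h => hPV h.1
    simp only [if_neg h9, ite_self]

open Classical in
/-- The Moebius sum is a number of pairs. -/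
theorem count (h1 : Stmt_EDV) (h2 : Stmt_EDT) (h3 : Stmt_MBX) {π : W →* H}
    (hπ : Function.Surjective π) (hc : π.ker ≤ Subgroup.center W) {P : Subgroup H}
    (hP : SylAb ℓ P) {m : Subgroup H → ℚ} (hm : Mob m) {a : W} (ha : a ∈ π.ker) :
    ((Nat.card π.ker : ℂ) * (Nat.card ↥⁅P.comap π, P.comap π⁆ : ℂ)) *
      PHT ℓ π m (padicValNat ℓ (Nat.card W)) a =
      ((∑ x : W, ∑ y : W, if x * y * x⁻¹ * y⁻¹ * a ∈ ⁅P.comap π, P.comap π⁆ then
        (if Subgroup.closure {x, y} ⊔ P.comap π = ⊤ then 1 else 0) else 0 : ℕ) : ℂ) := by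
  unfold PHT
  rw [Finset.mul_sum]
  have h4 : ∀ V : Subgroup H, ((Nat.card π.ker : ℂ) *
      (Nat.card ↥⁅P.comap π, P.comap π⁆ : ℂ)) * ((m V : ℂ) * ((Nat.card V : ℂ) *
      ∑ η ∈ irrF (V.comap π) with HasDefect ℓ η (padicValNat ℓ (Nat.card W)),
        ext0 η a⁻¹ / η 1)) =
      ∑ x : W, ∑ y : W, if x * y * x⁻¹ * y⁻¹ * a ∈ ⁅P.comap π, P.comap π⁆ then
        (if P ≤ V ∧ π x ∈ V ∧ π y ∈ V then (m V : ℂ) else 0) else 0 := by
    intro V
    rw [mul_left_comm, one_V h1 h2 hπ hc hP V ha, Finset.mul_sum]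
    refine Finset.sum_congr rfl fun x _ => ?_
    rw [Finset.mul_sum]
    refine Finset.sum_congr rfl fun y _ => ?_
    split_ifs <;> simp
  rw [Finset.sum_congr rfl fun V _ => h4 V, Finset.sum_comm]
  push_cast
  refine Finset.sum_congr rfl fun x _ => ?_
  rw [Finset.sum_comm]
  refine Finset.sum_congr rfl fun y _ => ?_
  by_cases hxy : x * y * x⁻¹ * y⁻¹ * a ∈ ⁅P.comap π, P.comap π⁆
  · simp only [if_pos hxy]
    rw [(h3 W H π hπ P m hm x y).2]
  · simp only [if_neg hxy, Finset.sum_const_zero]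

end TOPC

open TOPC in
theorem TOPC_thm (h1 : Stmt_EDV) (h2 : Stmt_EDT) (h3 : Stmt_MBX) : Stmt_TOPC := by
  intro W H _ _ _ _ ℓ _ π hπ hc P hP m hm
  refine ⟨fun e he a => pht_zero he (a : W), ?_⟩
  rintro a ⟨x₀, y₀, e, hcl, he, hae⟩ h0
  classical
  have h4 := count h1 h2 h3 hπ hc hP hm a.2
  rw [h0, mul_zero, eq_comm, Nat.cast_eq_zero, Finset.sum_eq_zero_iff] at h4
  have h5 := h4 y₀ (Finset.mem_univ _)
  rw [Finset.sum_eq_zero_iff] at h5
  have h6 := h5 x₀ (Finset.mem_univ _)
  have h7 : y₀ * x₀ * y₀⁻¹ * x₀⁻¹ * (a : W) = e := by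
    rw [hae]; group
  rw [h7, if_pos he, Set.pair_comm, if_pos hcl] at h6
  exact one_ne_zero h6

end Pool.Agent.DPF
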