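import Pool.Agent.DPF.Stmts
import Pool.Agent.DPF.EXU
import Pool.Agent.DPF.EXPU
import Pool.Agent.DPF.PS2
import Pool.Agent.DPF.PS3
import Pool.Agent.DPF.NUG
import Pool.Agent.DPF.NUM
import Pool.Agent.DPF.NUW
import Pool.Agent.DPF.EDV
import Pool.Agent.DPF.EDL
import Pool.Agent.DPF.EDC
import Pool.Agent.DPF.EDT
import Pool.Agent.DPF.MBX
import Pool.Agent.DPF.DGI
import Pool.Agent.DPF.FRZ
import Pool.Agent.DPF.FBA
import Pool.Agent.DPF.FBB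
import Pool.Agent.DPF.FBC
import Pool.Agent.DPF.FOX
import Pool.Agent.DPF.TOPC
import Pool.Agent.DPF.T2A
import Pool.Agent.DPF.T2B
import Pool.Agent.DPF.T2D
import Pool.Agent.DPF.T2F
import Pool.Agent.DPF.T2R
import Pool.Agent.DPF.COV
import Pool.Agent.DPF.COVG
import Pool.Agent.DPF.CQI

namespace Pool.Agent.DPF

theorem all_COV : Stmt_COV := COV_thm COVG_thm
theorem all_NUM : Stmt_NUM := NUM_thm NUG_thm
theorem all_NUW : Stmt_NUW := NUW_thm all_NUM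
theorem all_EXPU : Stmt_EXPU := EXPU_thm EXU_thm
theorem all_EDV : Stmt_EDV := EDV_thm FRZ_thm DGI_thm
theorem all_EDT : Stmt_EDT := EDT_thm EDC_thm
theorem all_T2D : Stmt_T2D := T2D_thm all_EDV EDL_thm EDC_thm MBX_thm
theorem all_TOPC : Stmt_TOPC := TOPC_thm all_EDV all_EDT MBX_thm
theorem all_T2F : Stmt_T2F := T2F_thm FOX_thm all_TOPC
theorem all_FBC : Stmt_FBC := FBC_thm NUG_thm

theorem all_PS2 (h1 : Stmt_PS1) : Stmt_PS2 := PS2_thm h1 CQI_thm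
theorem all_PS3 (h1 : Stmt_PS1) : Stmt_PS3 := PS3_thm (all_PS2 h1)
theorem all_T2A (h1 : Stmt_PS1) : Stmt_T2A :=
  T2A_thm (T2R_thm (all_PS3 h1) all_EXPU FBA_thm FBB_thm all_FBC) all_T2F
theorem all_T2B (h1 : Stmt_PS1) (h2 : Stmt_PSZ) : Stmt_T2B :=
  T2B_thm h2 (all_PS3 h1) all_EXPU all_T2D

end Pool.Agent.DPF
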