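import Mathlib
import Pool.Agent.DPF.Stmts
import Pool.Agent.Lib_helper13.Clifford

/-!
# FBB: the fixed pairs of the fibre product
-/

namespace Pool.Agent.DPF

open Pool.Agent.DP Pool.Agent.DPC Pool.Agent.DPM Pool.Agent.DPN Pool.Agent.Lib_helper13
  Representation
open Pool.Agent.Lib_helper13.Dade (pCore DadeHolds dadeSum)

namespace FBB

variable {L K H W : Type} [Group L] [Group K] [Group H] [Group W]

theorem mem2 {π : L →* K} {M : Subgroup K} {p : K →* H} {πW : W →* H}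
    (hM : ∀ k, p k = 1 ↔ k ∈ M) {x : fpr (p.comp π) πW} (hx : π (x : L × W).1 ∈ M) :
    (x : L × W).2 ∈ πW.ker := by
  have h1 : p (π (x : L × W).1) = πW (x : L × W).2 := x.2
  rw [(hM _).mpr hx] at h1
  exact h1.symm

/-- The element `(l, w)` of the fibre product. -/
def mk {π : L →* K} {M : Subgroup K} {p : K →* H} {πW : W →* H}
    (hM : ∀ k, p k = 1 ↔ k ∈ M) (τ : Finset (Subgroup M)) (a : ↥(SL π M τ M)) (z : πW.ker) :
    ↥(SL (piY π p πW) M τ M) :=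
  ⟨⟨((a : L), (z : W)), by
    change p (π (a : L)) = πW (z : W)
    rw [(hM _).mpr a.2.1]
    exact z.2.symm⟩, a.2⟩

/-- The inverse image in the fibre product is a direct product. -/
def eY {π : L →* K} {M : Subgroup K} {p : K →* H} {πW : W →* H}
    (hM : ∀ k, p k = 1 ↔ k ∈ M) (τ : Finset (Subgroup M)) :
    ↥(SL (piY π p πW) M τ M) ≃* ↥(SL π M τ M) × πW.ker where
  toFun x := (⟨((x : fpr (p.comp π) πW) : L × W).1, x.2⟩,
    ⟨((x : fpr (p.comp π) πW) : L × W).2, mem2 hM x.2.1⟩)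
  invFun y := mk hM τ y.1 y.2
  left_inv x := rfl
  right_inv y := rfl
  map_mul' x y := rfl

theorem thY_eq {π : L →* K} {M : Subgroup K} {p : K →* H} {πW : W →* H}
    (hM : ∀ k, p k = 1 ↔ k ∈ M) (τ : Finset (Subgroup M)) (θ : ↥(SL π M τ M) → ℂ)
    (ν : πW.ker →* ℂˣ) (x : ↥(SL (piY π p πW) M τ M)) :
    thY π p M πW τ θ ν x = θ (eY hM τ x).1 * ((ν (eY hM τ x).2 : ℂˣ) : ℂ) := by
  rw [thY, dif_pos (mem2 hM x.2.1)]
  rw [ext0_of_mem θ (k := ((x : fpr (p.comp π) πW) : L × W).1) x.2]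
  rfl

theorem thY_mk {π : L →* K} {M : Subgroup K} {p : K →* H} {πW : W →* H}
    (hM : ∀ k, p k = 1 ↔ k ∈ M) (τ : Finset (Subgroup M)) (θ : ↥(SL π M τ M) → ℂ)
    (ν : πW.ker →* ℂˣ) (a : ↥(SL π M τ M)) (z : πW.ker) :
    thY π p M πW τ θ ν (mk hM τ a z) = θ a * ((ν z : ℂˣ) : ℂ) :=
  thY_eq hM τ θ ν (mk hM τ a z)

/-- The restriction to the first factor. -/
def rs {π : L →* K} {M : Subgroup K} {p : K →* H} {πW : W →* H}
    (hM : ∀ k, p k = 1 ↔ k ∈ M) (τ : Finset (Subgroup M)) :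
    ↥(SL π M τ M) →* ↥(SL (piY π p πW) M τ M) where
  toFun a := mk hM τ a 1
  map_one' := rfl
  map_mul' a b := by
    apply Subtype.ext
    apply Subtype.ext
    apply Prod.ext
    · rfl
    · change (1 : W) = 1 * 1
      rw [one_mul]

theorem isIntegral_unit {G : Type} [Group G] [Finite G] (lam : G →* ℂˣ) (v : G) :
    IsIntegral ℤ ((lam v : ℂˣ) : ℂ) := by
  have h1 : ((lam v : ℂˣ) : ℂ) ^ Nat.card G = 1 := by
    rw [← Units.val_pow_eq_pow_val, ← map_pow, pow_card_eq_one', map_one, Units.val_one]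
  have h2 : IsIntegral ℤ (((lam v : ℂˣ) : ℂ) ^ Nat.card G) := by
    rw [h1]
    exact isIntegral_one
  exact IsIntegral.of_pow Nat.card_pos h2

section Irr

variable [Fintype L] [Fintype K] [Fintype H] [Fintype W]
  {π : L →* K} {M : Subgroup K} {p : K →* H} {πW : W →* H}

theorem sum_thY (hM : ∀ k, p k = 1 ↔ k ∈ M) (τ : Finset (Subgroup M))
    (θ : ↥(SL π M τ M) → ℂ) (ν : πW.ker →* ℂˣ) :
    ∑ x : ↥(SL (piY π p πW) M τ M), thY π p M πW τ θ ν x * thY π p M πW τ θ ν x⁻¹ =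
      (Nat.card πW.ker : ℂ) * ∑ a : ↥(SL π M τ M), θ a * θ a⁻¹ := by
  classical
  have h1 : ∑ x : ↥(SL (piY π p πW) M τ M), thY π p M πW τ θ ν x * thY π p M πW τ θ ν x⁻¹ =
      ∑ y : ↥(SL π M τ M) × πW.ker, θ y.1 * θ (y.1)⁻¹ := by
    refine Fintype.sum_equiv (eY hM τ).toEquiv _ _ ?_
    intro x
    rw [thY_eq hM τ θ ν x, thY_eq hM τ θ ν x⁻¹]
    have h2 : eY hM τ x⁻¹ = (eY hM τ x)⁻¹ := map_inv _ _
    rw [h2]
    change θ (eY hM τ x).1 * ((ν (eY hM τ x).2 : ℂˣ) : ℂ) *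
      (θ ((eY hM τ x).1)⁻¹ * ((ν ((eY hM τ x).2)⁻¹ : ℂˣ) : ℂ)) =
      θ (eY hM τ x).1 * θ ((eY hM τ x).1)⁻¹
    have h3 : ((ν (eY hM τ x).2 : ℂˣ) : ℂ) * ((ν ((eY hM τ x).2)⁻¹ : ℂˣ) : ℂ) = 1 := by
      rw [map_inv, ← Units.val_mul, mul_inv_cancel, Units.val_one]
    calc θ (eY hM τ x).1 * ((ν (eY hM τ x).2 : ℂˣ) : ℂ) *
          (θ ((eY hM τ x).1)⁻¹ * ((ν ((eY hM τ x).2)⁻¹ : ℂˣ) : ℂ))
        = θ (eY hM τ x).1 * θ ((eY hM τ x).1)⁻¹ *
          (((ν (eY hM τ x).2 : ℂˣ) : ℂ) * ((ν ((eY hM τ x).2)⁻¹ : ℂˣ) : ℂ)) := by ring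
      _ = _ := by rw [h3, mul_one]
  rw [h1, Fintype.sum_prod_type]
  simp only [Finset.sum_const, Finset.card_univ, nsmul_eq_mul]
  rw [← Finset.mul_sum, Nat.card_eq_fintype_card]

theorem card_eq (hM : ∀ k, p k = 1 ↔ k ∈ M) (τ : Finset (Subgroup M)) :
    (Nat.card ↥(SL (piY π p πW) M τ M) : ℂ) =
      (Nat.card πW.ker : ℂ) * (Nat.card ↥(SL π M τ M) : ℂ) := by
  rw [Nat.card_congr (eY (πW := πW) hM τ).toEquiv, Nat.card_prod]
  push_cast
  ring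

theorem irr_thY (hM : ∀ k, p k = 1 ↔ k ∈ M) (τ : Finset (Subgroup M))
    {θ : ↥(SL π M τ M) → ℂ} (ν : πW.ker →* ℂˣ) (hθ : IsIrr θ) :
    IsIrr (thY π p M πW τ θ ν) := by
  have h1 : thY π p M πW τ θ ν = fun x =>
      θ (((MonoidHom.fst _ _).comp (eY (πW := πW) hM τ).toMonoidHom) x) *
        ((ν (((MonoidHom.snd _ _).comp (eY (πW := πW) hM τ).toMonoidHom) x) : ℂˣ) : ℂ) := by
    funext x
    exact thY_eq hM τ θ ν x
  have h2 : IsChr (thY π p M πW τ θ ν) := by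
    rw [h1]
    exact (hθ.isChr.comp _).mul ((isChr_lin ν).comp _)
  apply h2.isIrr
  rw [sum_thY hM τ θ ν, hθ.sum_self, card_eq hM τ]

/-- A function over the linear character is a product. -/
theorem eq_thY (hM : ∀ k, p k = 1 ↔ k ∈ M) (τ : Finset (Subgroup M)) (μ : π.ker →* ℂˣ)
    (ν : πW.ker →* ℂˣ) {η : ↥(SL (piY π p πW) M τ M) → ℂ}
    (h : OvL (piY π p πW).ker (muY π p πW μ ν) _ η) :
    η = thY π p M πW τ (fun a => η (rs hM τ a)) ν := by
  funext x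
  obtain ⟨y, rfl⟩ := (eY (πW := πW) hM τ).symm.surjective x
  obtain ⟨a, z⟩ := y
  change η (mk hM τ a z) = thY π p M πW τ (fun a => η (rs hM τ a)) ν (mk hM τ a z)
  rw [thY_mk]
  have h1 : ((mk hM τ 1 z : ↥(SL (piY π p πW) M τ M)) : fpr (p.comp π) πW) ∈
      (piY π p πW).ker := by
    change π (1 : L) = 1
    exact map_one π
  have h2 := h (mk hM τ 1 z) (rs hM τ a) h1
  have h3 : mk hM τ 1 z * rs hM τ a = mk hM τ a z := by
    apply Subtype.ext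
    apply Subtype.ext
    apply Prod.ext
    · change (1 : L) * (a : L) = a
      rw [one_mul]
    · change (z : W) * 1 = z
      rw [mul_one]
  have h4 : ((muY π p πW μ ν ⟨(mk hM τ 1 z : ↥(SL (piY π p πW) M τ M)), h1⟩ : ℂˣ) : ℂ) =
      ((ν z : ℂˣ) : ℂ) := by
    have h5 : muY π p πW μ ν ⟨(mk hM τ 1 z : ↥(SL (piY π p πW) M τ M)), h1⟩ = μ 1 * ν z := rfl
    rw [h5, map_one, one_mul]
  rw [h3, h4] at h2
  rw [h2, mul_comm]

theorem irr_rs (hM : ∀ k, p k = 1 ↔ k ∈ M) (τ : Finset (Subgroup M)) (μ : π.ker →* ℂˣ)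
    (ν : πW.ker →* ℂˣ) {η : ↥(SL (piY π p πW) M τ M) → ℂ} (hη : IsIrr η)
    (h : OvL (piY π p πW).ker (muY π p πW μ ν) _ η) :
    IsIrr (fun a => η (rs hM τ a)) := by
  have h1 : IsChr (fun a => η (rs hM τ a)) := hη.isChr.comp (rs hM τ)
  apply h1.isIrr
  have h2 := hη.sum_self
  have h3 := sum_thY hM τ (fun a => η (rs (πW := πW) hM τ a)) ν
  rw [← eq_thY hM τ μ ν h, h2, card_eq hM τ] at h3
  have h4 : (Nat.card πW.ker : ℂ) ≠ 0 := natCard_ne_zero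
  exact (mul_left_cancel₀ h4 h3).symm

/-- Conjugacy in the fibre product. -/
theorem isConj_mk (hπW : Function.Surjective πW) (hc : πW.ker ≤ Subgroup.center W)
    (hM : ∀ k, p k = 1 ↔ k ∈ M) (τ : Finset (Subgroup M)) (a : ↥(SL π M τ M)) (z : πW.ker)
    (g : fpr (p.comp π) πW) :
    IsConj ((mk hM τ a z : ↥(SL (piY π p πW) M τ M)) : fpr (p.comp π) πW) g ↔
      IsConj (a : L) (g : L × W).1 ∧ (z : W) = (g : L × W).2 := by
  constructor
  · intro h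
    obtain ⟨t, ht⟩ := isConj_iff.mp h
    have h1 : (t : L × W).1 * (a : L) * (t : L × W).1⁻¹ = (g : L × W).1 :=
      congrArg (fun x : fpr (p.comp π) πW => (x : L × W).1) ht
    have h2 : (t : L × W).2 * (z : W) * (t : L × W).2⁻¹ = (g : L × W).2 :=
      congrArg (fun x : fpr (p.comp π) πW => (x : L × W).2) ht
    refine ⟨isConj_iff.mpr ⟨_, h1⟩, ?_⟩
    rw [← h2, (Subgroup.mem_center_iff.mp (hc z.2) (t : L × W).2), mul_assoc, mul_inv_cancel,
      mul_one]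
  · rintro ⟨h1, h2⟩
    obtain ⟨t, ht⟩ := isConj_iff.mp h1
    obtain ⟨u, hu⟩ := hπW (p (π t))
    refine isConj_iff.mpr ⟨⟨(t, u), hu.symm⟩, ?_⟩
    apply Subtype.ext
    apply Prod.ext
    · exact ht
    · change u * (z : W) * u⁻¹ = (g : L × W).2
      rw [(Subgroup.mem_center_iff.mp (hc z.2) u), mul_assoc, mul_inv_cancel, mul_one, h2]

variable (𝔐 : Ideal (integralClosure ℤ ℂ))

theorem cen_thY (hπW : Function.Surjective πW) (hc : πW.ker ≤ Subgroup.center W)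
    (hM : ∀ k, p k = 1 ↔ k ∈ M) (τ : Finset (Subgroup M)) {θ : ↥(SL π M τ M) → ℂ}
    (ν : πW.ker →* ℂˣ) (hθ : IsIrr θ) (g : fpr (p.comp π) πW) (w : πW.ker)
    (hw : (w : W) = (g : L × W).2) :
    cen 𝔐 (SL (piY π p πW) M τ M).subtype (thY π p M πW τ θ ν) g =
      red 𝔐 ((ν w : ℂˣ) : ℂ) * cen 𝔐 (SL π M τ M).subtype θ (g : L × W).1 := by
  classical
  have hint : IsIntegral ℤ (wt θ (fun y => conjInd ((SL π M τ M).subtype y) (g : L × W).1)) := by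
    apply isIntegral_wt hθ
    · intro x y
      rw [map_mul, map_mul, map_inv, conjInd_conj]
    · intro y
      exact isIntegral_conjInd _ _
  rw [cen, cen, ← red_mul 𝔐 (isIntegral_unit ν w) hint]
  congr 1
  rw [wt, wt]
  have h1 : thY π p M πW τ θ ν 1 = θ 1 := by
    rw [thY_eq hM τ θ ν 1, map_one]
    change θ 1 * ((ν 1 : ℂˣ) : ℂ) = θ 1
    rw [map_one, Units.val_one, mul_one]
  rw [h1, mul_div_assoc']
  congr 1
  have h2 : ∑ y : ↥(SL (piY π p πW) M τ M),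
      conjInd ((SL (piY π p πW) M τ M).subtype y) g * thY π p M πW τ θ ν y =
      ∑ y : ↥(SL π M τ M) × πW.ker, (if y.2 = w then
        conjInd (y.1 : L) (g : L × W).1 * (θ y.1 * ((ν y.2 : ℂˣ) : ℂ)) else 0) := by
    refine Fintype.sum_equiv (eY hM τ).toEquiv _ _ ?_
    intro x
    obtain ⟨y, rfl⟩ := (eY (πW := πW) hM τ).symm.surjective x
    obtain ⟨a, z⟩ := y
    change conjInd ((mk hM τ a z : ↥(SL (piY π p πW) M τ M)) : fpr (p.comp π) πW) g *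
      thY π p M πW τ θ ν (mk hM τ a z) =
      if z = w then conjInd (a : L) (g : L × W).1 * (θ a * ((ν z : ℂˣ) : ℂ)) else 0
    rw [thY_mk]
    by_cases hz : z = w
    · rw [if_pos hz]
      congr 1
      apply conjInd_congr
      rw [isConj_mk hπW hc hM τ a z g]
      constructor
      · exact fun h => h.1
      · exact fun h => ⟨h, by rw [hz]; exact hw⟩
    · rw [if_neg hz, conjInd, if_neg, zero_mul]
      intro h
      rw [isConj_mk hπW hc hM τ a z g] at h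
      apply hz
      apply Subtype.ext
      rw [h.2, hw]
  rw [h2, Fintype.sum_prod_type, Finset.mul_sum]
  refine Finset.sum_congr rfl fun a _ => ?_
  rw [Finset.sum_ite_eq' Finset.univ w]
  rw [if_pos (Finset.mem_univ _)]
  change conjInd (a : L) (g : L × W).1 * (θ a * ((ν w : ℂˣ) : ℂ)) =
    ((ν w : ℂˣ) : ℂ) * (conjInd (a : L) (g : L × W).1 * θ a)
  ring

theorem ovl_thY (hM : ∀ k, p k = 1 ↔ k ∈ M) (τ : Finset (Subgroup M)) (μ : π.ker →* ℂˣ)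
    (ν : πW.ker →* ℂˣ) (θ : ↥(SL π M τ M) → ℂ) :
    OvL (piY π p πW).ker (muY π p πW μ ν) _ (thY π p M πW τ θ ν) ↔ OvL π.ker μ _ θ := by
  constructor
  · intro h s t hs
    have hs' : ((rs hM τ s : ↥(SL (piY π p πW) M τ M)) : fpr (p.comp π) πW) ∈
        (piY π p πW).ker := hs
    have h1 := h (rs hM τ s) (rs hM τ t) hs'
    rw [← map_mul] at h1
    change thY π p M πW τ θ ν (mk hM τ (s * t) 1) =
      ((muY π p πW μ ν ⟨(rs hM τ s : ↥(SL (piY π p πW) M τ M)), hs'⟩ : ℂˣ) : ℂ) *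
        thY π p M πW τ θ ν (mk hM τ t 1) at h1
    have h5 : muY π p πW μ ν ⟨(rs hM τ s : ↥(SL (piY π p πW) M τ M)), hs'⟩ =
      μ ⟨(s : L), hs⟩ * ν 1 := rfl
    rw [thY_mk, thY_mk, h5, map_one, Units.val_one, mul_one, mul_one, mul_one] at h1
    exact h1
  · intro h s t hs
    have h1 : muY π p πW μ ν ⟨(s : fpr (p.comp π) πW), hs⟩ =
      μ ⟨((eY hM τ s).1 : L), hs⟩ * ν (eY hM τ s).2 := rfl
    rw [h1, thY_eq hM τ θ ν (s * t), thY_eq hM τ θ ν t, map_mul]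
    change θ ((eY hM τ s).1 * (eY hM τ t).1) *
      ((ν ((eY hM τ s).2 * (eY hM τ t).2) : ℂˣ) : ℂ) = _
    rw [h (eY hM τ s).1 (eY hM τ t).1 hs, map_mul, Units.val_mul, Units.val_mul]
    ring

/-- The conditions on the pairs correspond to each other. -/
theorem pr_thY (hπW : Function.Surjective πW) (hc : πW.ker ≤ Subgroup.center W)
    (hM : ∀ k, p k = 1 ↔ k ∈ M) (τ : Finset (Subgroup M)) (μ : π.ker →* ℂˣ)
    (ν : πW.ker →* ℂˣ) (ω : L → (integralClosure ℤ ℂ) ⧸ 𝔐) {θ : ↥(SL π M τ M) → ℂ}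
    (hθ : IsIrr θ) :
    PrU 𝔐 (piY π p πW) (muY π p πW μ ν) p M (omY 𝔐 π p πW ν ω) τ (thY π p M πW τ θ ν) ↔
      PrU 𝔐 π μ p M ω τ θ := by
  constructor
  · intro h
    refine ⟨hθ, (ovl_thY hM τ μ ν θ).mp h.ovl, ?_, h.sj, ?_⟩
    · intro g hg
      have hg0 : π g ∈ M := hg
      have hg1 : p (π g) = πW 1 := by
        rw [(hM _).mpr hg0, map_one]
      have h1 := h.cn ⟨(g, 1), hg1⟩ hg0
      rw [cen_thY 𝔐 hπW hc hM τ ν hθ ⟨(g, 1), hg1⟩ 1 rfl] at h1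
      have h2 : omY 𝔐 π p πW ν ω ⟨(g, 1), hg1⟩ = red 𝔐 ((ν 1 : ℂˣ) : ℂ) * ω g := by
        have h3 : ((⟨(g, 1), hg1⟩ : fpr (p.comp π) πW) : L × W).2 ∈ πW.ker := πW.ker.one_mem
        rw [omY, dif_pos h3]
        rfl
      rw [h2, map_one, Units.val_one, red_one, one_mul, one_mul] at h1
      exact h1
    · intro t ht a b hab
      obtain ⟨u, hu⟩ := hπW (p (π t))
      have h1 := h.iv ⟨(t, u), hu.symm⟩ ht (rs hM τ a) (rs hM τ b) (by
        apply Subtype.ext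
        apply Prod.ext
        · exact hab
        · change (1 : W) = u * 1 * u⁻¹
          rw [mul_one, mul_inv_cancel])
      change thY π p M πW τ θ ν (mk hM τ b 1) = thY π p M πW τ θ ν (mk hM τ a 1) at h1
      rw [thY_mk, thY_mk, map_one, Units.val_one, mul_one, mul_one] at h1
      exact h1
  · intro h
    refine ⟨irr_thY hM τ ν hθ, (ovl_thY hM τ μ ν θ).mpr h.ovl, ?_, h.sj, ?_⟩
    · intro g hg
      have hg2 : (g : L × W).2 ∈ πW.ker := mem2 hM hg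
      rw [cen_thY 𝔐 hπW hc hM τ ν hθ g ⟨_, hg2⟩ rfl, omY, dif_pos hg2,
        h.cn (g : L × W).1 hg]
    · intro t ht a b hab
      have h1 : ((eY hM τ b).1 : L) = (t : L × W).1 * ((eY hM τ a).1 : L) * (t : L × W).1⁻¹ :=
        congrArg (fun x : fpr (p.comp π) πW => (x : L × W).1) hab
      have h2 : ((eY hM τ b).2 : W) = (t : L × W).2 * ((eY hM τ a).2 : W) * (t : L × W).2⁻¹ :=
        congrArg (fun x : fpr (p.comp π) πW => (x : L × W).2) hab
      have h3 : (eY hM τ b).2 = (eY hM τ a).2 := by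
        apply Subtype.ext
        rw [h2, (Subgroup.mem_center_iff.mp (hc (eY hM τ a).2.2) (t : L × W).2), mul_assoc,
          mul_inv_cancel, mul_one]
      rw [thY_eq hM τ θ ν a, thY_eq hM τ θ ν b, h3,
        h.iv (t : L × W).1 ht (eY hM τ a).1 (eY hM τ b).1 h1]

end Irr

end FBB

/-- FBB: the fixed pairs of the fibre product. -/
theorem FBB_thm : Stmt_FBB := by
  classical
  intro L K H W _ _ _ _ _ _ _ _ 𝔐 ℓ _ _ _ π _ _ μ M _ p _ hM ω πW hπW hc ν τ f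
  symm
  refine Finset.sum_nbij (fun θ => thY π p M πW τ θ ν) ?_ ?_ ?_ ?_
  · intro θ hθ
    rw [Finset.mem_filter, mem_irrF] at hθ ⊢
    exact ⟨FBB.irr_thY hM τ ν hθ.1, (FBB.pr_thY 𝔐 hπW hc hM τ μ ν ω hθ.1).mpr hθ.2⟩
  · intro θ _ θ' _ h
    funext a
    have h1 := congrFun h (FBB.mk hM τ a 1)
    simp only at h1
    rw [FBB.thY_mk, FBB.thY_mk, map_one, Units.val_one, mul_one, mul_one] at h1
    exact h1
  · intro η hη
    rw [Finset.mem_coe, Finset.mem_filter, mem_irrF] at hη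
    have h1 := FBB.eq_thY hM τ μ ν hη.2.ovl
    have h2 := FBB.irr_rs hM τ μ ν hη.1 hη.2.ovl
    refine ⟨fun a => η (FBB.rs hM τ a), ?_, h1.symm⟩
    rw [Finset.mem_coe, Finset.mem_filter, mem_irrF]
    refine ⟨h2, (FBB.pr_thY 𝔐 hπW hc hM τ μ ν ω h2).mp ?_⟩
    rw [← h1]
    exact hη.2
  · intro θ _
    rfl

end Pool.Agent.DPF
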